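import Pool.Agent.Y2.Gp.Low

/-!
Prisms of height `h` over lattice polytopes.
-/

set_option autoImplicit false

open Set Pointwise

namespace Pool.Agent.Y2.Gp

open Pool.Agent.H178R3.Gam

variable {n : ℕ}

/-- the prism `[0, h] × P` -/
def prismH (h : ℝ) (P : Set (Fin n → ℝ)) : Set (Fin (n + 1) → ℝ) :=
  {v | 0 ≤ v 0 ∧ v 0 ≤ h ∧ tl v ∈ P}

lemma end_eqH {a b s t e h : ℝ} (ha : 0 < a) (hb : 0 < b) (hab : a + b = 1) (hs0 : 0 ≤ s)
    (hs1 : s ≤ h) (ht0 : 0 ≤ t) (ht1 : t ≤ h) (he : e = 0 ∨ e = h) (hh : a * s + b * t = e) :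
    s = e := by
  rcases he with rfl | rfl
  · have h1 : a * s = 0 := by nlinarith [mul_nonneg ha.le hs0, mul_nonneg hb.le ht0]
    rcases mul_eq_zero.mp h1 with h | h
    · exact absurd h ha.ne'
    · exact h
  · have h0 : e = a * e + b * e := by rw [← add_mul, hab, one_mul]
    have h1 : a * (e - s) = 0 := by
      nlinarith [mul_nonneg ha.le (sub_nonneg.mpr hs1), mul_nonneg hb.le (sub_nonneg.mpr ht1)]
    rcases mul_eq_zero.mp h1 with h | h
    · exact absurd h ha.ne'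
    · linarith

lemma mem_ext_prismH {h : ℝ} (hh : 0 < h) {P : Set (Fin n → ℝ)} {v : Fin (n + 1) → ℝ} :
    v ∈ (prismH h P).extremePoints ℝ ↔ (v 0 = 0 ∨ v 0 = h) ∧ tl v ∈ P.extremePoints ℝ := by
  constructor
  · intro hv
    obtain ⟨⟨h0, h1, hP⟩, hext⟩ := hv
    constructor
    · by_contra hcon
      push Not at hcon
      have hlt0 : 0 < v 0 := lt_of_le_of_ne h0 (Ne.symm hcon.1)
      have hlt1 : v 0 < h := lt_of_le_of_ne h1 hcon.2
      have h2 := hext (x₁ := cc 0 (tl v)) ⟨le_rfl, hh.le, hP⟩ (x₂ := cc h (tl v))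
        ⟨hh.le, le_rfl, hP⟩ (mem_oseg.mpr ⟨1 - v 0 / h, v 0 / h,
          sub_pos.mpr ((div_lt_one hh).mpr hlt1), div_pos hlt0 hh, by ring,
          by simp [div_mul_cancel₀ _ hh.ne'], by simp only [tl_cc]; rw [← add_smul]; simp⟩)
      have h3 := congrFun h2 0
      simp at h3
      exact hcon.1 h3.symm
    · refine ⟨hP, ?_⟩
      intro a ha b hb hab
      obtain ⟨s, t, hs, ht, hst, hab⟩ := hab
      have h2 := hext (x₁ := cc (v 0) a) ⟨h0, h1, ha⟩ (x₂ := cc (v 0) b) ⟨h0, h1, hb⟩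
        (mem_oseg.mpr ⟨s, t, hs, ht, hst, by simp only [cc_zero]; rw [← add_mul, hst, one_mul],
          by simpa using hab⟩)
      exact congrArg tl h2
  · rintro ⟨h01, hP, hext⟩
    refine ⟨⟨by rcases h01 with h' | h' <;> rw [h']; exact hh.le,
      by rcases h01 with h' | h' <;> rw [h']; exact hh.le, hP⟩, ?_⟩
    rintro a ⟨ha0, ha1, haP⟩ b ⟨hb0, hb1, hbP⟩ hab
    obtain ⟨s, t, hs, ht, hst, h0, h1⟩ := mem_oseg.mp hab
    exact ext' (end_eqH hs ht hst ha0 ha1 hb0 hb1 h01 h0) (hext haP hbP ⟨s, t, hs, ht, hst, h1⟩)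

lemma edge_prismH {h : ℝ} (hh : 0 < h) {P : Set (Fin n → ℝ)} {x y : Fin (n + 1) → ℝ} :
    IsEdge (prismH h P) x y ↔
      ((x 0 = 0 ∨ x 0 = h) ∧ x 0 = y 0 ∧ IsEdge P (tl x) (tl y)) ∨
      ((x 0 = 0 ∨ x 0 = h) ∧ y 0 = h - x 0 ∧ tl x ∈ P.extremePoints ℝ ∧ tl y = tl x) := by
  constructor
  · rintro ⟨hne, hx, hy, hsub, hext⟩
    rw [mem_ext_prismH hh] at hx hy
    by_cases h0 : x 0 = y 0
    · left
      refine ⟨hx.1, h0, fun h => hne (ext' h0 h), hx.2, hy.2, ?_⟩
      have hx01 : 0 ≤ x 0 ∧ x 0 ≤ h := by rcases hx.1 with h' | h' <;> rw [h'] <;> simp [hh.le]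
      refine ⟨?_, ?_⟩
      · rintro z ⟨a, b, ha, hb, hab, hz⟩
        have h1 := hsub (a := cc (x 0) z) (mem_seg.mpr ⟨a, b, ha, hb, hab, by
          rw [← h0, ← add_mul, hab, one_mul]; rfl, hz⟩)
        exact h1.2.2
      · rintro a ha b hb z hz hzo
        obtain ⟨s, t, hs, ht, hst, hz1⟩ := hz
        obtain ⟨s', t', hs', ht', hst', hz2⟩ := hzo
        have h1 := hext (x := cc (x 0) a) ⟨hx01.1, hx01.2, ha⟩ (y := cc (x 0) b)
          ⟨hx01.1, hx01.2, hb⟩ (z := cc (x 0) z)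
          (mem_seg.mpr ⟨s, t, hs, ht, hst, by rw [← h0, ← add_mul, hst, one_mul]; rfl, hz1⟩)
          (mem_oseg.mpr ⟨s', t', hs', ht', hst', by
            simp only [cc_zero]; rw [← add_mul, hst', one_mul], hz2⟩)
        obtain ⟨p, q, hp, hq, hpq, -, h2⟩ := mem_seg.mp h1
        exact ⟨p, q, hp, hq, hpq, h2⟩
    · right
      have hy0 : y 0 = h - x 0 := by
        rcases hx.1 with h1 | h1
        · rcases hy.1 with h' | h'
          · exact absurd (h1.trans h'.symm) h0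
          · rw [h1, h']; ring
        · rcases hy.1 with h' | h'
          · rw [h1, h']; ring
          · exact absurd (h1.trans h'.symm) h0
      refine ⟨hx.1, hy0, hx.2, ?_⟩
      by_contra hcon
      have hx01 : 0 ≤ x 0 ∧ x 0 ≤ h := by rcases hx.1 with h' | h' <;> rw [h'] <;> simp [hh.le]
      have hy01 : 0 ≤ y 0 ∧ y 0 ≤ h := by rcases hy.1 with h' | h' <;> rw [h'] <;> simp [hh.le]
      have h1 := hext (x := cc (x 0) (tl y)) ⟨hx01.1, hx01.2, hy.2.1⟩ (y := cc (y 0) (tl x))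
        ⟨hy01.1, hy01.2, hx.2.1⟩ (z := (1 / 2 : ℝ) • x + (1 / 2 : ℝ) • y)
        ⟨1 / 2, 1 / 2, by norm_num, by norm_num, by norm_num, rfl⟩
        (mem_oseg.mpr ⟨1 / 2, 1 / 2, by norm_num, by norm_num, by norm_num, rfl, by
          simp only [tl_cc, tl_add, tl_smul]; rw [add_comm]⟩)
      obtain ⟨a, b, ha, hb, hab, h2, h3⟩ := mem_seg.mp h1
      simp only [cc_zero, tl_cc] at h2 h3
      have hb0 : b = 0 := by
        have h4 : b * (y 0 - x 0) = 0 := by
          have : a * x 0 = (1 - b) * x 0 := by rw [← hab]; ring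
          linarith
        rcases mul_eq_zero.mp h4 with h | h
        · exact h
        · exact absurd (sub_eq_zero.mp h).symm h0
      rw [hb0, zero_smul, add_zero] at h3
      have ha1 : a = 1 := by linarith
      rw [ha1, one_smul] at h3
      exact hcon h3.symm
  · rintro (⟨hx0, h0, hne, hx, hy, hsub, hext⟩ | ⟨hx0, hy0, hx, hxy⟩)
    · refine ⟨fun h => hne (congrArg tl h), (mem_ext_prismH hh).mpr ⟨hx0, hx⟩,
        (mem_ext_prismH hh).mpr ⟨h0 ▸ hx0, hy⟩, ?_, ?_⟩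
      · intro z hz
        obtain ⟨a, b, ha, hb, hab, h1, h2⟩ := mem_seg.mp hz
        have h3 : z 0 = x 0 := by rw [← h1, ← h0, ← add_mul, hab, one_mul]
        refine ⟨?_, ?_, hsub ⟨a, b, ha, hb, hab, h2⟩⟩
        · rw [h3]; rcases hx0 with h' | h' <;> rw [h']; exact hh.le
        · rw [h3]; rcases hx0 with h' | h' <;> rw [h']; exact hh.le
      · rintro a ⟨ha0, ha1, haP⟩ b ⟨hb0, hb1, hbP⟩ z hz hzo
        obtain ⟨s, t, hs, ht, hst, h1, h2⟩ := mem_seg.mp hz
        obtain ⟨s', t', hs', ht', hst', h3, h4⟩ := mem_oseg.mp hzo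
        have h5 : z 0 = x 0 := by rw [← h1, ← h0, ← add_mul, hst, one_mul]
        have h6 : a 0 = x 0 := end_eqH hs' ht' hst' ha0 ha1 hb0 hb1 hx0 (h3.trans h5)
        obtain ⟨p, q, hp, hq, hpq, h7⟩ := hext haP hbP ⟨s, t, hs, ht, hst, h2⟩
          ⟨s', t', hs', ht', hst', h4⟩
        exact mem_seg.mpr ⟨p, q, hp, hq, hpq, by rw [h6, ← h0, ← add_mul, hpq, one_mul], h7⟩
    · have hy0' : y 0 = 0 ∨ y 0 = h := by
        rcases hx0 with h' | h'
        · right; rw [hy0, h']; ring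
        · left; rw [hy0, h']; ring
      refine ⟨?_, (mem_ext_prismH hh).mpr ⟨hx0, hx⟩, (mem_ext_prismH hh).mpr ⟨hy0', hxy ▸ hx⟩,
        ?_, ?_⟩
      · rintro rfl
        rcases hx0 with h' | h' <;> rw [h'] at hy0 <;> linarith
      · intro z hz
        obtain ⟨a, b, ha, hb, hab, h1, h2⟩ := mem_seg.mp hz
        have h3 : tl z = tl x := by rw [← h2, hxy, ← add_smul, hab, one_smul]
        have hah := mul_nonneg ha hh.le
        have hbh := mul_nonneg hb hh.le
        have hs : a * h + b * h = h := by rw [← add_mul, hab, one_mul]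
        refine ⟨?_, ?_, h3 ▸ hx.1⟩
        · rw [← h1, hy0]; rcases hx0 with h' | h' <;> rw [h'] <;> linarith
        · rw [← h1, hy0]; rcases hx0 with h' | h' <;> rw [h'] <;> linarith
      · rintro a ⟨ha0, ha1, haP⟩ b ⟨hb0, hb1, hbP⟩ z hz hzo
        obtain ⟨s, t, hs, ht, hst, h1, h2⟩ := mem_seg.mp hz
        obtain ⟨s', t', hs', ht', hst', h3, h4⟩ := mem_oseg.mp hzo
        have h5 : tl z = tl x := by rw [← h2, hxy, ← add_smul, hst, one_smul]
        have h6 : tl a = tl x := hx.2 haP hbP ⟨s', t', hs', ht', hst', h4.trans h5⟩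
        have h7 : a 0 / h ≤ 1 := (div_le_one hh).mpr ha1
        have h8 : 0 ≤ a 0 / h := div_nonneg ha0 hh.le
        refine mem_seg.mpr ?_
        rcases hx0 with h' | h'
        · exact ⟨1 - a 0 / h, a 0 / h, by linarith, h8, by ring, by
            rw [hy0, h', mul_zero, zero_add, sub_zero, div_mul_cancel₀ _ hh.ne'],
            by rw [hxy, ← add_smul, h6]; simp⟩
        · exact ⟨a 0 / h, 1 - a 0 / h, h8, by linarith, by ring, by
            rw [hy0, h', sub_self, mul_zero, add_zero, div_mul_cancel₀ _ hh.ne'],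
            by rw [hxy, ← add_smul, h6]; simp⟩

lemma ext_ccH {h : ℝ} (hh : 0 < h) {P : Set (Fin n → ℝ)} {t : ℝ} {x : Fin n → ℝ}
    (ht : t = 0 ∨ t = h) (hx : x ∈ P.extremePoints ℝ) :
    cc t x ∈ (prismH h P).extremePoints ℝ :=
  (mem_ext_prismH hh).mpr ⟨ht, hx⟩

theorem vertexCone_prismH {h : ℝ} (hh : 0 < h) {P : Set (Fin n → ℝ)} {x : Fin (n + 1) → ℝ}
    (hx : x ∈ (prismH h P).extremePoints ℝ) {σ : ℝ}
    (hσ : (x 0 = 0 ∧ σ = 1) ∨ (x 0 = h ∧ σ = -1)) :
    vertexCone (prismH h P) x = coneP σ (vertexCone P (tl x)) := by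
  obtain ⟨hx0, hxP⟩ := (mem_ext_prismH hh).mp hx
  have hσ1 : σ * σ = 1 := by rcases hσ with h' | h' <;> rw [h'.2] <;> norm_num
  have hvert : IsEdge (prismH h P) x (cc (h - x 0) (tl x)) :=
    (edge_prismH hh).mpr (Or.inr ⟨hx0, rfl, hxP, rfl⟩)
  apply Subset.antisymm
  · intro u hu
    refine vc_induction (p := fun u => u ∈ coneP σ (vertexCone P (tl x))) ?_ ?_ ?_ ?_ hu
    · intro y hy
      rcases (edge_prismH hh).mp hy with ⟨-, h0, h1⟩ | ⟨-, h0, -, h1⟩
      · exact ⟨by simp [h0], by rw [tl_sub]; exact vc_gen h1⟩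
      · refine ⟨?_, by rw [tl_sub, h1, sub_self]; exact vc_zero _ _⟩
        rw [Pi.sub_apply, h0]
        rcases hσ with h' | h' <;> rw [h'.1, h'.2] <;> linarith
    · exact ⟨by simp, vc_zero _ _⟩
    · rintro u v ⟨hu0, hu1⟩ ⟨hv0, hv1⟩
      exact ⟨by rw [Pi.add_apply, mul_add]; linarith, vc_add _ _ _ hu1 _ hv1⟩
    · rintro c u hc ⟨hu0, hu1⟩
      refine ⟨?_, vc_smul _ _ c hc _ hu1⟩
      rw [Pi.smul_apply, smul_eq_mul, mul_left_comm]
      exact mul_nonneg hc hu0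
  · rintro u ⟨hu0, hu1⟩
    have h1 : cc 0 (tl u) ∈ vertexCone (prismH h P) x := by
      refine vc_induction (p := fun w => cc 0 w ∈ vertexCone (prismH h P) x) ?_ ?_ ?_ ?_ hu1
      · intro y hy
        have h2 : IsEdge (prismH h P) x (cc (x 0) y) :=
          (edge_prismH hh).mpr (Or.inl ⟨hx0, rfl, hy⟩)
        have h3 := vc_gen h2
        have h4 : cc (x 0) y - x = cc 0 (y - tl x) := ext' (by simp) rfl
        rwa [h4] at h3
      · have : cc 0 (0 : Fin n → ℝ) = 0 := ext' rfl rfl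
        rw [this]; exact vc_zero _ _
      · intro a b ha hb
        have : cc 0 (a + b) = cc 0 a + cc 0 b := by rw [cc_add, add_zero]
        rw [this]; exact vc_add _ _ _ ha _ hb
      · intro c a hc ha
        have : cc 0 (c • a) = c • cc 0 a := by rw [cc_smul, mul_zero]
        rw [this]; exact vc_smul _ _ c hc _ ha
    have h2 : cc σ (0 : Fin n → ℝ) ∈ vertexCone (prismH h P) x := by
      have h3 := vc_gen hvert
      have h4 : (1 / h) • (cc (h - x 0) (tl x) - x) = cc σ 0 := by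
        apply ext'
        · rw [Pi.smul_apply, Pi.sub_apply, cc_zero, cc_zero, smul_eq_mul]
          rcases hσ with h' | h' <;> rw [h'.1, h'.2] <;> field_simp <;> ring
        · simp
      rw [← h4]
      exact vc_smul _ _ _ (by positivity) _ h3
    have h3 : u = cc 0 (tl u) + (σ * u 0) • cc σ 0 := by
      rw [cc_smul, cc_add, smul_zero, add_zero, zero_add]
      apply ext'
      · rw [cc_zero, mul_right_comm, hσ1, one_mul]
      · rfl
    rw [h3]
    exact vc_add _ _ _ h1 _ (vc_smul _ _ _ hu0 _ h2)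

lemma gamma_vertex_iffH {h : ℝ} (hh : 0 < h) {P : Set (Fin n → ℝ)} (hP : Convex ℝ P)
    {x : Fin (n + 1) → ℝ} (hx : x ∈ (prismH h P).extremePoints ℝ) (g : ℝ) :
    IsGammaCone (vertexCone (prismH h P) x) g ↔ IsGammaCone (vertexCone P (tl x)) g := by
  obtain ⟨hx0, hxP⟩ := (mem_ext_prismH hh).mp hx
  rcases hx0 with h' | h'
  · rw [vertexCone_prismH hh hx (Or.inl ⟨h', rfl⟩)]
    exact gamma_coneP (vc_good hP hxP) (Or.inl rfl) g
  · rw [vertexCone_prismH hh hx (Or.inr ⟨h', rfl⟩)]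
    exact gamma_coneP (vc_good hP hxP) (Or.inr rfl) g

theorem isGamma_prismH {h : ℝ} (hh : 0 < h) {P : Set (Fin n → ℝ)} (hP : Convex ℝ P) {g : ℝ}
    (hg : IsGamma P g) : IsGamma (prismH h P) g := by
  obtain ⟨h1, ⟨x, hx, h2⟩, h3⟩ := hg
  refine ⟨?_, ⟨cc 0 x, ext_ccH hh (Or.inl rfl) hx, ?_⟩, ?_⟩
  · intro y hy
    obtain ⟨d, hd⟩ := h1 (tl y) ((mem_ext_prismH hh).mp hy).2
    exact ⟨d, (gamma_vertex_iffH hh hP hy d).mpr hd⟩
  · exact (gamma_vertex_iffH hh hP (ext_ccH hh (Or.inl rfl) hx) g).mpr h2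
  · rintro d ⟨y, hy, hd⟩
    exact h3 ⟨tl y, ((mem_ext_prismH hh).mp hy).2, (gamma_vertex_iffH hh hP hy d).mp hd⟩

lemma latLength_horizontalH {k : ℕ} {x y : Fin (n + 1) → ℝ} (hx : x 0 = 0 ∨ x 0 = k)
    (h0 : x 0 = y 0) : latLength x y = latLength (tl x) (tl y) := by
  have hinj : Function.Injective (cc (n := n) (x 0)) := fun a b hab => (cc_inj hab).2
  have h1 : {z | z ∈ segment ℝ x y ∧ IsLat z} =
      cc (x 0) '' {z | z ∈ segment ℝ (tl x) (tl y) ∧ IsLat z} := by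
    ext z
    constructor
    · rintro ⟨hz, hl⟩
      obtain ⟨a, b, ha, hb, hab, h2, h3⟩ := mem_seg.mp hz
      refine ⟨tl z, ⟨⟨a, b, ha, hb, hab, h3⟩, lat_tl hl⟩, ext' ?_ rfl⟩
      rw [cc_zero, ← h2, ← h0, ← add_mul, hab, one_mul]
    · rintro ⟨z, ⟨⟨a, b, ha, hb, hab, h3⟩, hl⟩, rfl⟩
      refine ⟨mem_seg.mpr ⟨a, b, ha, hb, hab, ?_, h3⟩, isLat_cc ?_ hl⟩
      · rw [← h0, ← add_mul, hab, one_mul]; rfl
      · rcases hx with h | h
        · exact ⟨0, by rw [h]; simp⟩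
        · exact ⟨k, by rw [h]; simp⟩
  rw [latLength, latLength, h1, ncard_image_of_injective _ hinj]

lemma latLength_verticalH {k : ℕ} (hk : 1 ≤ k) {x y : Fin (n + 1) → ℝ}
    (hx : x 0 = 0 ∨ x 0 = k) (hy : y 0 = k - x 0)
    (hxy : tl y = tl x) (hl : IsLat (tl x)) : latLength x y = k := by
  classical
  have hk' : (0 : ℝ) < k := by exact_mod_cast hk
  have h1 : {z | z ∈ segment ℝ x y ∧ IsLat z} =
      (((Finset.range (k + 1)).image fun j : ℕ => cc (j : ℝ) (tl x) : Finset (Fin (n + 1) → ℝ)) :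
        Set (Fin (n + 1) → ℝ)) := by
    ext z
    rw [Finset.coe_image, Set.mem_image]
    constructor
    · rintro ⟨hz, hlz⟩
      obtain ⟨a, b, ha, hb, hab, h2, h3⟩ := mem_seg.mp hz
      have h4 : tl z = tl x := by rw [← h3, hxy, ← add_smul, hab, one_smul]
      have hs : a * (k : ℝ) + b * k = k := by rw [← add_mul, hab, one_mul]
      have hak := mul_nonneg ha hk'.le
      have hbk := mul_nonneg hb hk'.le
      have h5 : 0 ≤ z 0 ∧ z 0 ≤ k := by
        rw [← h2, hy]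
        rcases hx with h | h <;> rw [h] <;> constructor <;> linarith
      obtain ⟨w, hw⟩ := hlz 0
      have h6 : (0 : ℝ) ≤ w := by rw [← hw]; exact h5.1
      have h7 : 0 ≤ w := by exact_mod_cast h6
      obtain ⟨j, rfl⟩ := Int.eq_ofNat_of_zero_le h7
      refine ⟨j, ?_, ext' ?_ ?_⟩
      · rw [Finset.coe_range, Set.mem_Iio]
        have h8 : ((j : ℤ) : ℝ) ≤ k := by rw [← hw]; exact h5.2
        have h9 : j ≤ k := by exact_mod_cast h8
        omega
      · rw [cc_zero, hw]; simp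
      · rw [tl_cc, h4]
    · rintro ⟨j, hj, rfl⟩
      rw [Finset.coe_range, Set.mem_Iio] at hj
      have hj' : (j : ℝ) ≤ k := by exact_mod_cast (by omega : j ≤ k)
      refine ⟨mem_seg.mpr ?_, isLat_cc ⟨j, by simp⟩ hl⟩
      have h7 : (j : ℝ) / k ≤ 1 := (div_le_one hk').mpr hj'
      have h8 : (0 : ℝ) ≤ j / k := by positivity
      rcases hx with h | h
      · exact ⟨1 - j / k, j / k, by linarith, h8, by ring, by
          rw [hy, h, mul_zero, zero_add, sub_zero, div_mul_cancel₀ _ hk'.ne', cc_zero], by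
          rw [hxy, ← add_smul, tl_cc]; simp⟩
      · exact ⟨j / k, 1 - j / k, h8, by linarith, by ring, by
          rw [hy, h, sub_self, mul_zero, add_zero, div_mul_cancel₀ _ hk'.ne', cc_zero], by
          rw [hxy, ← add_smul, tl_cc]; simp⟩
  have hinj : Function.Injective fun j : ℕ => cc (j : ℝ) (tl x) := by
    intro a b hab
    exact_mod_cast (cc_inj hab).1
  rw [latLength, h1, Set.ncard_coe_finset, Finset.card_image_of_injective _ hinj,
    Finset.card_range]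
  simp

theorem minLength_prismH {k : ℕ} (hk : 1 ≤ k) {P : Set (Fin n → ℝ)} (hP : IsLatticePolytope P)
    (h : IsMinLength P k) : IsMinLength (prismH k P) k := by
  have hk' : (0 : ℝ) < k := by exact_mod_cast hk
  obtain ⟨⟨x, y, hxy, -⟩, hle⟩ := h
  constructor
  · have hx : x ∈ P.extremePoints ℝ := hxy.2.1
    have hl : IsLat x := ext_lat hP hx
    refine ⟨cc 0 x, cc k x, (edge_prismH hk' (x := cc 0 x) (y := cc k x)).mpr
      (Or.inr ⟨Or.inl rfl, by simp, hx, rfl⟩), ?_⟩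
    exact (latLength_verticalH hk (x := cc 0 x) (y := cc k x) (Or.inl rfl) (by simp) rfl hl).symm
  · rintro l ⟨a, b, hab, rfl⟩
    rcases (edge_prismH hk').mp hab with ⟨h1, h2, h3⟩ | ⟨h1, h2, h3, h4⟩
    · rw [latLength_horizontalH h1 h2]
      exact hle ⟨tl a, tl b, h3, rfl⟩
    · rw [latLength_verticalH hk h1 h2 h4 (ext_lat hP h3)]

theorem lattice_prismH {k : ℕ} (hk : 1 ≤ k) {P : Set (Fin n → ℝ)} (hP : IsLatticePolytope P) :
    IsLatticePolytope (prismH k P) := by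
  have hk' : (0 : ℝ) < k := by exact_mod_cast hk
  obtain ⟨S, hS, hl, rfl⟩ := hP
  refine ⟨cc 0 '' S ∪ cc k '' S, (hS.image _).union (hS.image _), ?_, ?_⟩
  · rintro x (⟨y, hy, rfl⟩ | ⟨y, hy, rfl⟩)
    · exact isLat_cc ⟨0, by simp⟩ (hl y hy)
    · exact isLat_cc ⟨k, by simp⟩ (hl y hy)
  · apply Subset.antisymm
    · rintro v ⟨h0, h1, hv⟩
      have key : ∀ t : ℝ, cc t '' S ⊆ convexHull ℝ (cc 0 '' S ∪ cc k '' S) →
          cc t (tl v) ∈ convexHull ℝ (cc 0 '' S ∪ cc k '' S) := by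
        intro t ht
        have h2 : convexHull ℝ S ⊆ {p | cc t p ∈ convexHull ℝ (cc 0 '' S ∪ cc k '' S)} := by
          apply convexHull_min
          · intro s hs
            exact ht ⟨s, hs, rfl⟩
          · intro p hp q hq a b ha hb hab
            have h3 : cc t (a • p + b • q) = a • cc t p + b • cc t q := by
              rw [cc_smul, cc_smul, cc_add, ← add_mul, hab, one_mul]
            show cc t (a • p + b • q) ∈ convexHull ℝ (cc 0 '' S ∪ cc k '' S)
            rw [h3]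
            exact (convex_convexHull ℝ _) hp hq ha hb hab
        exact h2 hv
      have h2 := key 0 (subset_union_left.trans (subset_convexHull ℝ _))
      have h3 := key k (subset_union_right.trans (subset_convexHull ℝ _))
      have h4 : v = (1 - v 0 / k) • cc 0 (tl v) + (v 0 / k) • cc k (tl v) := by
        apply ext'
        · simp [div_mul_cancel₀ _ hk'.ne']
        · simp only [tl_add, tl_smul, tl_cc]; rw [← add_smul]; simp
      rw [h4]
      exact (convex_convexHull ℝ _) h2 h3 (sub_nonneg.mpr ((div_le_one hk').mpr h1))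
        (div_nonneg h0 hk'.le) (by ring)
    · apply convexHull_min
      · rintro x (⟨y, hy, rfl⟩ | ⟨y, hy, rfl⟩)
        · exact ⟨le_rfl, hk'.le, subset_convexHull ℝ S hy⟩
        · exact ⟨hk'.le, le_rfl, subset_convexHull ℝ S hy⟩
      · rintro p ⟨hp0, hp1, hp⟩ q ⟨hq0, hq1, hq⟩ a b ha hb hab
        refine ⟨?_, ?_, (convex_convexHull ℝ S) hp hq ha hb hab⟩
        · simp only [Pi.add_apply, Pi.smul_apply, smul_eq_mul]; positivity
        · simp only [Pi.add_apply, Pi.smul_apply, smul_eq_mul]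
          have h1 := mul_le_mul_of_nonneg_left hp1 ha
          have h2 := mul_le_mul_of_nonneg_left hq1 hb
          have h3 : a * (k : ℝ) + b * k = k := by rw [← add_mul, hab, one_mul]
          linarith

theorem interior_prismH {h : ℝ} (hh : 0 < h) {P : Set (Fin n → ℝ)} (hP : (interior P).Nonempty) :
    (interior (prismH h P)).Nonempty := by
  obtain ⟨x, hx⟩ := hP
  have hc0 : Continuous fun v : Fin (n + 1) → ℝ => v 0 := continuous_apply 0
  have hct : Continuous (tl (n := n)) := continuous_pi fun i => continuous_apply i.succ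
  have hU : IsOpen {v : Fin (n + 1) → ℝ | 0 < v 0 ∧ v 0 < h ∧ tl v ∈ interior P} := by
    apply IsOpen.and (isOpen_lt continuous_const hc0)
    apply IsOpen.and (isOpen_lt hc0 continuous_const)
    exact isOpen_interior.preimage hct
  refine ⟨cc (h / 2) x, mem_interior.mpr ⟨_, ?_, hU, ?_⟩⟩
  · rintro v ⟨h0, h1, h2⟩
    exact ⟨h0.le, h1.le, interior_subset h2⟩
  · exact ⟨by rw [cc_zero]; linarith, by rw [cc_zero]; linarith, hx⟩

theorem closed_of_prismH {h : ℝ} (hh : 0 < h) {P : Set (Fin n → ℝ)} (hP : Convex ℝ P)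
    (hcl : IntegrallyClosed (prismH h P)) : IntegrallyClosed P := by
  intro r hr
  apply Subset.antisymm (sum_subset hP r)
  rintro u ⟨⟨p, hp, hpu⟩, hul⟩
  have h1 : cc 0 u ∈ (((r + 1 : ℕ) : ℝ) • prismH h P) ∩ {x | IsLat x} := by
    refine ⟨⟨cc 0 p, ⟨le_rfl, hh.le, hp⟩, ?_⟩, isLat_cc ⟨0, by simp⟩ hul⟩
    show ((r + 1 : ℕ) : ℝ) • cc 0 p = cc 0 u
    rw [cc_smul, mul_zero]
    exact ext' rfl hpu
  rw [← hcl r hr] at h1
  obtain ⟨a, ⟨ha, hal⟩, b, ⟨hb, hbl⟩, hab⟩ := h1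
  obtain ⟨b', hb', rfl⟩ := hb
  refine ⟨tl a, ⟨ha.2.2, lat_tl hal⟩, tl ((r : ℝ) • b'), ⟨⟨tl b', hb'.2.2, rfl⟩, lat_tl hbl⟩, ?_⟩
  exact congrArg tl hab

/-- a counterexample with `L = k` and `Γ = 0` in dimension `n` -/
def BadK (k n : ℕ) : Prop := ∃ P : Set (Fin n → ℝ), IsLatticePolytope P ∧
  (interior P).Nonempty ∧ IsMinLength P k ∧ IsGamma P 0 ∧ ¬ IntegrallyClosed P

theorem BadK.succ {k : ℕ} (hk : 1 ≤ k) (h : BadK k n) : BadK k (n + 1) := by
  have hk' : (0 : ℝ) < k := by exact_mod_cast hk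
  obtain ⟨P, h1, h2, h3, h4, h5⟩ := h
  exact ⟨prismH k P, lattice_prismH hk h1, interior_prismH hk' h2, minLength_prismH hk h1 h3,
    isGamma_prismH hk' (convex_of_lattice h1) h4,
    fun h => h5 (closed_of_prismH hk' (convex_of_lattice h1) h)⟩

end Pool.Agent.Y2.Gp
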