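import Pool.Agent.Y2.Gp.Circ

/-!
A system in dimension `2 m + 1`.
-/

set_option autoImplicit false

open Set Pointwise

namespace Pool.Agent.Y2.Gp

open Pool.Agent.H178R3.Gam

variable {m N : ℕ}

/-- the coordinates of `ℝ^(2m+1)` -/
noncomputable def theta (m : ℕ) : Option (Bool × Fin m) ≃ Fin (2 * m + 1) :=
  Fintype.equivFinOfCardEq (by simp)

/-- the coordinates of the points -/
noncomputable def vv (N : ℕ) (s : Bool × Fin (m + 1)) (x : Option (Bool × Fin m)) : ℝ :=
  Fin.cases (motive := fun _ => ℝ)
    (if s.1 then x.elim (N : ℝ) (fun p => if p.1 then -1 else 1) else 0)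
    (fun i => if x = some (s.1, i) then 1 else 0) s.2

@[simp] lemma vv_true_zero (x : Option (Bool × Fin m)) :
    vv N (true, 0) x = x.elim (N : ℝ) (fun p => if p.1 then -1 else 1) := rfl
@[simp] lemma vv_false_zero (x : Option (Bool × Fin m)) : vv N (false, 0) x = 0 := rfl
@[simp] lemma vv_succ (b : Bool) (i : Fin m) (x : Option (Bool × Fin m)) :
    vv N (b, i.succ) x = if x = some (b, i) then 1 else 0 := rfl

/-- the coordinate functions -/
noncomputable def cf (y : Option (Bool × Fin m) → ℝ) (s : Bool × Fin (m + 1)) : ℝ :=
  Fin.cases (motive := fun _ => ℝ) (if s.1 then 0 else -∑ p : Bool × Fin m, y (some p))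
    (fun i => y (some (s.1, i))) s.2

@[simp] lemma cf_true_zero (y : Option (Bool × Fin m) → ℝ) : cf y (true, 0) = 0 := rfl
@[simp] lemma cf_false_zero (y : Option (Bool × Fin m) → ℝ) :
    cf y (false, 0) = -∑ p : Bool × Fin m, y (some p) := rfl
@[simp] lemma cf_succ (y : Option (Bool × Fin m) → ℝ) (b : Bool) (i : Fin m) :
    cf y (b, i.succ) = y (some (b, i)) := rfl

lemma cf_add (y z : Option (Bool × Fin m) → ℝ) (s : Bool × Fin (m + 1)) :
    cf (y + z) s = cf y s + cf z s := by
  obtain ⟨b, j⟩ := s
  refine Fin.cases ?_ (fun i => ?_) j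
  · cases b
    · simp [Finset.sum_add_distrib]; ring
    · simp
  · simp

lemma cf_smul (c : ℝ) (y : Option (Bool × Fin m) → ℝ) (s : Bool × Fin (m + 1)) :
    cf (c • y) s = c * cf y s := by
  obtain ⟨b, j⟩ := s
  refine Fin.cases ?_ (fun i => ?_) j
  · cases b
    · simp [Finset.mul_sum]
    · simp
  · simp

/-- the system -/
noncomputable def inst (m N : ℕ) : Sys (2 * m + 1) m N where
  v s := fun k => vv N s ((theta m).symm k)
  e := fun k => if (theta m).symm k = none then 1 else 0
  C :=
    { toFun := fun u => cf fun x => u (theta m x)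
      map_add' := fun u w => by
        funext s
        exact cf_add _ _ s
      map_smul' := fun c u => by
        funext s
        exact cf_smul c _ s }
  Z :=
    { toFun := fun u => u (theta m none)
      map_add' := fun u w => rfl
      map_smul' := fun c u => rfl }
  hv := by
    rintro ⟨b, j⟩ k
    refine Fin.cases ?_ (fun i => ?_) j
    · cases b
      · exact ⟨0, by simp⟩
      · rcases hx : (theta m).symm k with _ | ⟨b', i⟩
        · exact ⟨N, by simp [hx]⟩
        · cases b'
          · exact ⟨1, by simp [hx]⟩
          · exact ⟨-1, by simp [hx]⟩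
    · show ∃ z : ℤ, vv N (b, i.succ) ((theta m).symm k) = z
      rw [vv_succ]
      split_ifs
      · exact ⟨1, by simp⟩
      · exact ⟨0, by simp⟩
  he := by
    intro k
    dsimp only
    split_ifs
    · exact ⟨1, by simp⟩
    · exact ⟨0, by simp⟩
  hC := by
    rintro u hu ⟨b, j⟩
    refine Fin.cases ?_ (fun i => ?_) j
    · cases b
      · choose z hz using hu
        refine ⟨-∑ p : Bool × Fin m, z (theta m (some p)), ?_⟩
        show -∑ p : Bool × Fin m, u (theta m (some p)) = _
        simp [hz]
      · exact ⟨0, by simp⟩
    · exact hu _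
  hZ := fun u hu => hu _
  rep := by
    intro u
    funext k
    obtain ⟨x, rfl⟩ := (theta m).surjective k
    simp only [Pi.add_apply, Finset.sum_apply, Pi.smul_apply, smul_eq_mul,
      Equiv.symm_apply_apply, LinearMap.coe_mk, AddHom.coe_mk]
    rw [Fintype.sum_prod_type]
    simp only [Fintype.sum_bool, Fin.sum_univ_succ, cf_true_zero, cf_false_zero, cf_succ,
      vv_true_zero, vv_false_zero, vv_succ, zero_mul, mul_zero, zero_add]
    rcases x with _ | ⟨b, i⟩
    · simp
    · cases b <;> simp
  sum := by
    intro u
    simp only [LinearMap.coe_mk, AddHom.coe_mk]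
    rw [Fintype.sum_prod_type]
    simp only [Fintype.sum_bool, Fin.sum_univ_succ, cf_true_zero, cf_false_zero, cf_succ,
      zero_add]
    rw [Fintype.sum_prod_type]
    simp only [Fintype.sum_bool]
    ring
  rel := by
    funext k
    obtain ⟨x, rfl⟩ := (theta m).surjective k
    simp only [Finset.sum_apply, Pi.smul_apply, smul_eq_mul, Equiv.symm_apply_apply]
    rw [Fintype.sum_prod_type]
    simp only [Fintype.sum_bool, Fin.sum_univ_succ, rho, if_true, Bool.false_eq_true, if_false,
      vv_true_zero, vv_false_zero, vv_succ, one_mul, mul_zero, zero_add, neg_mul]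
    rcases x with _ | ⟨b, i⟩
    · simp
    · cases b <;> simp
  Ce := by
    funext ⟨b, j⟩
    simp only [LinearMap.coe_mk, AddHom.coe_mk, Equiv.symm_apply_apply]
    refine Fin.cases ?_ (fun i => ?_) j
    · cases b <;> simp
    · simp
  Ze := by simp
  lin := by
    intro α β h
    have key : ∀ r : Bool × Fin (m + 1), (∑ w, α w * cf (fun x => vv N r x) w +
        β * vv N r none) = α r - α (false, 0) := by
      rintro ⟨b, j⟩
      rw [Fintype.sum_prod_type] at h ⊢
      simp only [Fintype.sum_bool, Fin.sum_univ_succ, rho, if_true, Bool.false_eq_true, if_false,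
        mul_one, mul_neg, Finset.sum_neg_distrib] at h
      simp only [Fintype.sum_bool, Fin.sum_univ_succ, cf_true_zero, cf_false_zero, cf_succ,
        mul_zero, zero_add]
      refine Fin.cases ?_ (fun i => ?_) j
      · cases b
        · simp
        · simp only [vv_true_zero, Option.elim_none, Option.elim_some, if_true,
            Bool.false_eq_true, if_false]
          rw [Fintype.sum_prod_type]
          simp only [Fintype.sum_bool, if_true, Bool.false_eq_true, if_false, mul_neg, mul_one,
            Finset.sum_neg_distrib, Finset.sum_const, Finset.card_univ, Fintype.card_fin]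
          simp only [nsmul_eq_mul, mul_neg, mul_one]
          linarith
      · cases b
        · simp
          ring
        · simp
          ring
    intro r s
    have h1 := key r
    have h2 := key s
    simp only [LinearMap.coe_mk, AddHom.coe_mk, Equiv.symm_apply_apply]
    rw [h1, h2]
    ring

end Pool.Agent.Y2.Gp
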