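import Pool.Agent.Y2.Gp.SysP
import Pool.Agent.Y2.Gp.Inst

/-!
The polytopes `k Q`: `L = k`, `Γ = 0`, not integrally closed.
-/

set_option autoImplicit false

open Set Pointwise

namespace Pool.Agent.Y2.Gp

open Pool.Agent.H178R3.Gam

variable {n m N : ℕ}

theorem Sys.gamma_top (D : Sys n m N) (hm : 2 ≤ m) (hN : 1 ≤ N) {k : ℕ} (hk : 1 ≤ k)
    (s : Bool × Fin (m + 1)) :
    IsGammaCone (vertexCone (D.P k) (D.pt k (s, true))) 0 := by
  have := D.swap.gamma_bottom hm hN hk (!s.1, s.2)
  rw [D.swap_pt, D.swap_P] at this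
  simpa using this

theorem Sys.isGamma (D : Sys n m N) (hm : 2 ≤ m) (hN : 1 ≤ N) {k : ℕ} (hk : 1 ≤ k) :
    IsGamma (D.P k) 0 := by
  have key : ∀ x ∈ (D.P k).extremePoints ℝ, IsGammaCone (vertexCone (D.P k) x) 0 := by
    intro x hx
    obtain ⟨⟨s, ε⟩, rfl⟩ := D.ext_pt hx
    cases ε
    · exact D.gamma_bottom hm hN hk s
    · exact D.gamma_top hm hN hk s
  refine ⟨fun x hx => ⟨0, key x hx⟩, ⟨_, D.ext_bottom hm hN hk (true, 0), key _
    (D.ext_bottom hm hN hk (true, 0))⟩, ?_⟩
  rintro d ⟨x, hx, hd⟩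
  rw [hd.unique (key x hx)]

lemma Sys.pt_lat (D : Sys n m N) (k : ℕ) (i : (Bool × Fin (m + 1)) × Bool) :
    IsLat (D.pt k i) := by
  apply isLat_nsmul
  apply isLat_add (D.hv _)
  split_ifs
  · rw [one_smul]; exact D.he
  · rw [zero_smul]; exact isLat_zero

theorem Sys.lattice (D : Sys n m N) (k : ℕ) : IsLatticePolytope (D.P k) :=
  ⟨range (D.pt k), finite_range _, by rintro _ ⟨i, rfl⟩; exact D.pt_lat k i, rfl⟩

lemma Sys.pt_true (D : Sys n m N) (k : ℕ) (s : Bool × Fin (m + 1)) :
    D.pt k (s, true) = D.pt k (s, false) + (k : ℝ) • D.e := by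
  simp [Sys.pt, smul_add]

theorem Sys.interior (D : Sys n m N) {k : ℕ} (hk : 1 ≤ k) : (interior (D.P k)).Nonempty := by
  have hk' : (0 : ℝ) < k := by exact_mod_cast hk
  rw [Sys.P, interior_convexHull_nonempty_iff_affineSpan_eq_top,
    AffineSubspace.affineSpan_eq_top_iff_vectorSpan_eq_top_of_nonempty ℝ _ _
      (range_nonempty _), eq_top_iff]
  intro u _
  have hmem : ∀ i, D.pt k i ∈ range (D.pt k) := fun i => ⟨i, rfl⟩
  have he : D.e ∈ vectorSpan ℝ (range (D.pt k)) := by
    have h1 := vsub_mem_vectorSpan ℝ (hmem ((true, 0), true)) (hmem ((true, 0), false))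
    rw [D.pt_true, vsub_eq_sub, add_sub_cancel_left] at h1
    have h2 := Submodule.smul_mem _ (1 / (k : ℝ)) h1
    rwa [smul_smul, one_div_mul_cancel hk'.ne', one_smul] at h2
  have hv : ∀ s, D.v s - D.v (true, 0) ∈ vectorSpan ℝ (range (D.pt k)) := by
    intro s
    have h1 := vsub_mem_vectorSpan ℝ (hmem (s, false)) (hmem ((true, 0), false))
    have h3 : D.pt k (s, false) - D.pt k ((true, 0), false) =
        (k : ℝ) • (D.v s - D.v (true, 0)) := by
      simp [Sys.pt, smul_sub]
    rw [vsub_eq_sub, h3] at h1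
    have h2 := Submodule.smul_mem _ (1 / (k : ℝ)) h1
    rwa [smul_smul, one_div_mul_cancel hk'.ne', one_smul] at h2
  have h4 : u = ∑ s, D.C u s • (D.v s - D.v (true, 0)) + D.Z u • D.e := by
    conv_lhs => rw [D.rep u]
    simp only [smul_sub, Finset.sum_sub_distrib, ← Finset.sum_smul, D.sum u, zero_smul, sub_zero]
  rw [h4]
  exact Submodule.add_mem _ (Submodule.sum_mem _ fun s _ => Submodule.smul_mem _ _ (hv s))
    (Submodule.smul_mem _ _ he)

lemma Sys.latLength_vert (D : Sys n m N) {k : ℕ} (hk : 1 ≤ k) (s : Bool × Fin (m + 1)) :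
    latLength (D.pt k (s, false)) (D.pt k (s, true)) = k := by
  classical
  have hk' : (0 : ℝ) < k := by exact_mod_cast hk
  set x := D.pt k (s, false) with hx
  have hxl : IsLat x := D.pt_lat k _
  have h1 : {z | z ∈ segment ℝ x (D.pt k (s, true)) ∧ IsLat z} =
      (((Finset.range (k + 1)).image fun j : ℕ => x + (j : ℝ) • D.e : Finset (Fin n → ℝ)) :
        Set (Fin n → ℝ)) := by
    ext z
    rw [Finset.coe_image, Set.mem_image]
    constructor
    · rintro ⟨⟨a, b, ha, hb, hab, rfl⟩, hl⟩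
      have h2 : a • x + b • D.pt k (s, true) = x + (b * k) • D.e := by
        rw [D.pt_true, ← hx, smul_add, ← add_assoc, ← add_smul, hab, one_smul, smul_smul]
      rw [h2] at hl ⊢
      obtain ⟨z1, hz1⟩ := D.hZ _ hl
      obtain ⟨z2, hz2⟩ := D.hZ _ hxl
      rw [map_add, map_smul, D.Ze, hz2, smul_eq_mul, mul_one] at hz1
      obtain ⟨j, hj⟩ := exists_nat (x := b * k) ⟨z1 - z2, by push_cast; linarith⟩
        (mul_nonneg hb hk'.le)
      refine ⟨j, ?_, by simp only [hj]⟩
      rw [Finset.coe_range, Set.mem_Iio]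
      have h3 : (j : ℝ) ≤ k := by rw [hj]; nlinarith
      have h4 : j ≤ k := by exact_mod_cast h3
      omega
    · rintro ⟨j, hj, rfl⟩
      rw [Finset.coe_range, Set.mem_Iio] at hj
      have hj' : (j : ℝ) ≤ k := by exact_mod_cast (by omega : j ≤ k)
      refine ⟨⟨1 - j / k, j / k, ?_, by positivity, by ring, ?_⟩,
        isLat_add hxl (isLat_nsmul D.he j)⟩
      · rw [sub_nonneg, div_le_one hk']; exact hj'
      · rw [D.pt_true, ← hx, smul_add, ← add_assoc, ← add_smul, smul_smul,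
          div_mul_cancel₀ _ hk'.ne']
        simp
  have hinj : Function.Injective fun j : ℕ => x + (j : ℝ) • D.e := by
    intro a b hab
    have h2 := congrArg D.Z hab
    simp only [map_add, map_smul, D.Ze, smul_eq_mul, mul_one] at h2
    exact_mod_cast add_left_cancel h2
  rw [latLength, h1, Set.ncard_coe_finset, Finset.card_image_of_injective _ hinj,
    Finset.card_range]
  simp

/-- a segment between two different multiples `k a`, `k b` of lattice points has length at least
`k` -/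
lemma le_latLength {P : Set (Fin n → ℝ)} (hP : IsLatticePolytope P) {k : ℕ} (hk : 1 ≤ k)
    {a b : Fin n → ℝ} (ha : IsLat a) (hb : IsLat b) (hab : a ≠ b) (haP : (k : ℝ) • a ∈ P)
    (hbP : (k : ℝ) • b ∈ P) : k ≤ latLength ((k : ℝ) • a) ((k : ℝ) • b) := by
  classical
  have hk' : (0 : ℝ) < k := by exact_mod_cast hk
  have hfin : {z | z ∈ segment ℝ ((k : ℝ) • a) ((k : ℝ) • b) ∧ IsLat z}.Finite :=
    (finite_lat hP).subset fun z hz => ⟨(convex_of_lattice hP).segment_subset haP hbP hz.1, hz.2⟩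
  have hinj : Function.Injective fun j : ℕ => (k : ℝ) • a + (j : ℝ) • (b - a) := by
    intro i j hij
    have h1 := add_left_cancel hij
    have h2 : ((i : ℝ) - j) • (b - a) = 0 := by rw [sub_smul, h1, sub_self]
    rcases smul_eq_zero.mp h2 with h | h
    · exact_mod_cast sub_eq_zero.mp h
    · exact absurd (sub_eq_zero.mp h).symm hab
  have h1 : (((Finset.range (k + 1)).image fun j : ℕ => (k : ℝ) • a + (j : ℝ) • (b - a) :
      Finset (Fin n → ℝ)) : Set (Fin n → ℝ)) ⊆
      {z | z ∈ segment ℝ ((k : ℝ) • a) ((k : ℝ) • b) ∧ IsLat z} := by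
    rw [Finset.coe_image]
    rintro _ ⟨j, hj, rfl⟩
    rw [Finset.coe_range, Set.mem_Iio] at hj
    have hj' : (j : ℝ) ≤ k := by exact_mod_cast (by omega : j ≤ k)
    refine ⟨⟨1 - j / k, j / k, ?_, by positivity, by ring, ?_⟩,
      isLat_add (isLat_nsmul ha k) (isLat_nsmul (isLat_sub hb ha) j)⟩
    · rw [sub_nonneg, div_le_one hk']; exact hj'
    · show (1 - (j : ℝ) / k) • (k : ℝ) • a + ((j : ℝ) / k) • (k : ℝ) • b =
        (k : ℝ) • a + (j : ℝ) • (b - a)
      rw [smul_smul, smul_smul, div_mul_cancel₀ _ hk'.ne', sub_mul, one_mul,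
        div_mul_cancel₀ _ hk'.ne', sub_smul, smul_sub]
      abel
  have h2 := Set.ncard_le_ncard h1 hfin
  rw [Set.ncard_coe_finset, Finset.card_image_of_injective _ hinj, Finset.card_range] at h2
  rw [latLength]
  omega

theorem Sys.minLength (D : Sys n m N) (hm : 2 ≤ m) (hN : 1 ≤ N) {k : ℕ} (hk : 1 ≤ k) :
    IsMinLength (D.P k) k := by
  constructor
  · exact ⟨_, _, D.edge_vert hm hN hk (true, 0), (D.latLength_vert hk _).symm⟩
  · rintro l ⟨x, y, hxy, rfl⟩
    obtain ⟨i, rfl⟩ := D.ext_pt hxy.2.1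
    obtain ⟨j, rfl⟩ := D.ext_pt hxy.2.2.1
    have hlat : ∀ i : (Bool × Fin (m + 1)) × Bool,
        IsLat (D.v i.1 + (if i.2 then (1 : ℝ) else 0) • D.e) := by
      intro i
      apply isLat_add (D.hv _)
      split_ifs
      · rw [one_smul]; exact D.he
      · rw [zero_smul]; exact isLat_zero
    exact le_latLength (D.lattice k) hk (hlat i) (hlat j) (fun h => hxy.1 (by rw [Sys.pt, Sys.pt, h]))
      hxy.2.1.1 hxy.2.2.1.1

/-- the value of a functional at a point of level `ℓ` -/
lemma Sys.L_combo (D : Sys n m N) {α : Bool × Fin (m + 1) → ℝ} {β : ℝ}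
    (h : ∑ s, α s * rho s = β * N) (c : Bool × Fin (m + 1) → ℝ) (z : ℝ) :
    D.L α β (∑ s, c s • D.v s + z • D.e) =
      (∑ s, c s) * (D.L α β (D.v (false, 0)) - α (false, 0)) + ∑ s, c s * α s + z * β := by
  rw [map_add, map_smul, D.L_e, map_sum, smul_eq_mul, Finset.sum_mul, ← Finset.sum_add_distrib]
  congr 1
  apply Finset.sum_congr rfl
  intro s _
  have h1 := D.L_sub h s (false, 0)
  rw [map_smul, smul_eq_mul]
  linear_combination (c s) * h1

/-- the lattice points of `k Q`, `k ≤ m` -/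
lemma Sys.lat_points (D : Sys n m N) {k : ℕ} (hkm : k ≤ m) {p : Fin n → ℝ} (hp : p ∈ D.P k)
    (hl : IsLat p) : ∃ (c : Bool × Fin (m + 1) → ℝ) (z : ℝ), (∀ s, 0 ≤ c s) ∧
      (∀ i, ∃ a : ℤ, c (true, i) = a) ∧ ∑ s, c s = k ∧ 0 ≤ z ∧ z ≤ k ∧
      p = ∑ s, c s • D.v s + z • D.e := by
  obtain ⟨w, hw0, hw1, hpw⟩ := mem_hull hp
  have hk0 : (0 : ℝ) ≤ k := Nat.cast_nonneg k
  set c : Bool × Fin (m + 1) → ℝ := fun s => k * (w (s, false) + w (s, true)) with hc
  set z : ℝ := ∑ s, k * w (s, true) with hz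
  have hc0 : ∀ s, 0 ≤ c s := fun s => mul_nonneg hk0 (add_nonneg (hw0 _) (hw0 _))
  have hw1' : ∑ s, (w (s, false) + w (s, true)) = 1 := by
    rw [← hw1, show ∑ i, w i = ∑ s, ∑ b, w (s, b) from Fintype.sum_prod_type w]
    apply Finset.sum_congr rfl
    intro s _
    rw [Fintype.sum_bool, add_comm]
  have hcsum : ∑ s, c s = k := by rw [hc, ← Finset.mul_sum, hw1', mul_one]
  have hz0 : 0 ≤ z := Finset.sum_nonneg fun s _ => mul_nonneg hk0 (hw0 _)
  have hzk : z ≤ k := by
    rw [← hcsum]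
    apply Finset.sum_le_sum
    intro s _
    apply mul_le_mul_of_nonneg_left _ hk0
    linarith [hw0 (s, false)]
  have hrep : p = ∑ s, c s • D.v s + z • D.e := by
    rw [hpw, Fintype.sum_prod_type, hz, Finset.sum_smul, ← Finset.sum_add_distrib]
    apply Finset.sum_congr rfl
    intro s _
    rw [Fintype.sum_bool]
    simp only [Sys.pt, hc, if_true, Bool.false_eq_true, if_false, one_smul, zero_smul, add_zero,
      smul_add, smul_smul]
    rw [mul_add, add_smul, mul_comm (w (s, true)), mul_comm (w (s, false))]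
    abel
  -- the integrality of the sums of two coordinates
  have hint : ∀ i j, ∃ a : ℤ, c (true, i) + c (false, j) = a := by
    intro i j
    set α : Bool × Fin (m + 1) → ℝ := fun w => (if w = (true, i) then 1 else 0) +
      (if w = (false, j) then 1 else 0) with hα
    have hαρ : ∑ s, α s * rho s = (0 : ℝ) * N := by
      simp only [hα, add_mul, ite_mul, one_mul, zero_mul, Finset.sum_add_distrib,
        Finset.sum_ite_eq', Finset.mem_univ, if_true]
      simp [rho]
    have hαint : ∀ s, ∃ a : ℤ, α s = a := by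
      intro s
      simp only [hα]
      split_ifs
      · exact ⟨2, by norm_num⟩
      · exact ⟨1, by norm_num⟩
      · exact ⟨1, by norm_num⟩
      · exact ⟨0, by norm_num⟩
    obtain ⟨a1, h1⟩ := D.L_int (β := 0) hαint ⟨0, by simp⟩ hl
    obtain ⟨a2, h2⟩ := D.L_int (β := 0) hαint ⟨0, by simp⟩ (D.hv (false, 0))
    obtain ⟨a3, h3⟩ := hαint (false, 0)
    rw [hrep, D.L_combo hαρ, hcsum, h2, h3, mul_zero, add_zero] at h1
    have h4 : ∑ s, c s * α s = c (true, i) + c (false, j) := by
      simp only [hα, mul_add, mul_ite, mul_one, mul_zero, Finset.sum_add_distrib,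
        Finset.sum_ite_eq', Finset.mem_univ, if_true]
    rw [h4] at h1
    exact ⟨a1 - k * (a2 - a3), by push_cast; linarith⟩
  refine ⟨c, z, hc0, ?_, hcsum, hz0, hzk, hrep⟩
  by_contra hcon
  push Not at hcon
  obtain ⟨i0, hi0⟩ := hcon
  have hpos : ∀ j, 0 < c (false, j) := by
    intro j
    rcases (hc0 (false, j)).lt_or_eq with h | h
    · exact h
    · exfalso
      obtain ⟨a, ha⟩ := hint i0 j
      rw [← h, add_zero] at ha
      exact hi0 a ha
  have hge : ∀ j, 1 ≤ c (true, j) + c (false, j) := by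
    intro j
    obtain ⟨a, ha⟩ := hint j j
    have h1 : (0 : ℝ) < a := by rw [← ha]; linarith [hpos j, hc0 (true, j)]
    have h2 : 0 < a := by exact_mod_cast h1
    rw [ha]
    exact_mod_cast h2
  have hsum : (m : ℝ) + 1 ≤ k := by
    rw [← hcsum, Fintype.sum_prod_type]
    simp only [Fintype.sum_bool]
    rw [← Finset.sum_add_distrib]
    have := Finset.sum_le_sum fun j (_ : j ∈ (Finset.univ : Finset (Fin (m + 1)))) => hge j
    simpa using this
  have : m + 1 ≤ k := by exact_mod_cast hsum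
  omega

theorem Sys.not_closed {k : ℕ} (hk : 1 ≤ k) (D : Sys n k (2 * k + 2)) :
    ¬ IntegrallyClosed (D.P k) := by
  intro hcl
  have hk' : (1 : ℝ) ≤ k := by exact_mod_cast hk
  have hkp : (0 : ℝ) < k := by linarith
  have h1 := hcl 1 le_rfl
  set d : Bool × Fin (k + 1) → ℝ := fun s => (if s.1 then 1 else 0) +
    (if s = (false, 0) then (k : ℝ) - 1 else 0) with hd
  set u : Fin n → ℝ := ∑ s, d s • D.v s + (-1 : ℝ) • D.e with hu
  have hdsum : ∑ s, d s = 2 * k := by
    simp only [hd, Finset.sum_add_distrib, Finset.sum_ite_eq', Finset.mem_univ, if_true]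
    rw [Fintype.sum_prod_type]
    simp only [Fintype.sum_bool, if_true, Bool.false_eq_true, if_false]
    simp
    ring
  have hul : IsLat u := by
    rw [hu]
    apply isLat_add
    · apply isLat_sum
      intro s _
      have : ∃ a : ℕ, (a : ℝ) = d s := by
        simp only [hd]
        split_ifs with h2 h3
        · rw [h3] at h2; simp at h2
        · exact ⟨1, by simp⟩
        · exact ⟨k - 1, by rw [Nat.cast_sub hk]; simp⟩
        · exact ⟨0, by simp⟩
      obtain ⟨a, ha⟩ := this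
      rw [← ha]
      exact isLat_nsmul (D.hv s) a
    · have := isLat_sub isLat_zero D.he
      rw [zero_sub] at this
      rw [neg_one_smul]; exact this
  have humem : u ∈ (((1 + 1 : ℕ) : ℝ) • D.P k) ∩ {x | IsLat x} := by
    refine ⟨?_, hul⟩
    have hconv : Convex ℝ (D.P k) := convex_convexHull ℝ _
    have hmem : ∀ i, D.pt k i ∈ D.P k := fun i => subset_convexHull ℝ _ ⟨i, rfl⟩
    set γ : Bool × Fin (k + 1) → ℝ := fun s => 1 / 2 +
      (if s = (false, 0) then (k : ℝ) - 1 else 0) with hγ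
    have hγ0 : ∀ s, 0 ≤ γ s := by
      intro s
      simp only [hγ]
      split_ifs <;> linarith
    have hγsum : ∑ s, γ s = 2 * k := by
      simp only [hγ, Finset.sum_add_distrib, Finset.sum_ite_eq', Finset.mem_univ, if_true]
      simp
      ring
    refine ⟨∑ s, (γ s / (2 * k)) • ((1 / 2 : ℝ) • D.pt k (s, false) +
      (1 / 2 : ℝ) • D.pt k (s, true)), ?_, ?_⟩
    · apply hconv.sum_mem
      · intro s _
        exact div_nonneg (hγ0 s) (by positivity)
      · rw [← Finset.sum_div, hγsum, div_self (by positivity)]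
      · intro s _
        exact hconv (hmem _) (hmem _) (by norm_num) (by norm_num) (by norm_num)
    · show ((1 + 1 : ℕ) : ℝ) • (∑ s, (γ s / (2 * k)) • ((1 / 2 : ℝ) • D.pt k (s, false) +
        (1 / 2 : ℝ) • D.pt k (s, true))) = u
      have h2 : ∀ s, ((1 + 1 : ℕ) : ℝ) • (γ s / (2 * k)) • ((1 / 2 : ℝ) • D.pt k (s, false) +
          (1 / 2 : ℝ) • D.pt k (s, true)) = γ s • D.v s + (γ s / 2) • D.e := by
        intro s
        have h3 : (1 / 2 : ℝ) • D.pt k (s, false) + (1 / 2 : ℝ) • D.pt k (s, true) =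
            (k : ℝ) • D.v s + ((k : ℝ) / 2) • D.e := by
          rw [D.pt_true, smul_add, ← add_assoc, ← add_smul]
          simp only [Sys.pt, Bool.false_eq_true, if_false, zero_smul, add_zero, smul_smul]
          congr 2 <;> ring
        rw [h3, smul_add, smul_add, smul_smul, smul_smul, smul_smul, smul_smul]
        congr 2
        · push_cast; field_simp
          try norm_num
        · push_cast; field_simp
          try norm_num
      rw [Finset.smul_sum, Finset.sum_congr rfl fun s _ => h2 s, Finset.sum_add_distrib,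
        ← Finset.sum_smul, ← Finset.sum_div, hγsum, hu]
      have h4 : ∑ s, γ s • D.v s + (1 / 2 : ℝ) • ∑ s, rho s • D.v s = ∑ s, d s • D.v s := by
        rw [Finset.smul_sum, ← Finset.sum_add_distrib]
        apply Finset.sum_congr rfl
        rintro ⟨b, i⟩ _
        rw [smul_smul, ← add_smul]
        congr 1
        cases b
        · simp only [hγ, hd, rho, Bool.false_eq_true, if_false]; ring
        · simp only [hγ, hd, rho, if_true]
          simp
          norm_num
      rw [← h4, D.rel, smul_smul]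
      push_cast
      have h5 : (2 * (k : ℝ) / 2) • D.e = (1 / 2 * (2 * (k : ℝ) + 2)) • D.e + (-1 : ℝ) • D.e := by
        rw [← add_smul]
        congr 1
        ring
      rw [h5]
      abel
  rw [← h1] at humem
  obtain ⟨p, ⟨hp, hpl⟩, q, ⟨hq, hql⟩, hpq⟩ := humem
  rw [Nat.cast_one, one_smul] at hq
  obtain ⟨c, z, hc0, hcint, hcsum, hz0, hzk, hrep⟩ := D.lat_points le_rfl hp hpl
  obtain ⟨c', z', hc0', hcint', hcsum', hz0', hzk', hrep'⟩ := D.lat_points le_rfl hq hql
  have hpq' : p + q = u := hpq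
  set α : Bool × Fin (k + 1) → ℝ := fun w => if w = (true, 0) then ((2 * k + 2 : ℕ) : ℝ) else 0
    with hα
  have hαρ : ∑ s, α s * rho s = (1 : ℝ) * ((2 * k + 2 : ℕ) : ℝ) := by
    simp only [hα, ite_mul, zero_mul, Finset.sum_ite_eq', Finset.mem_univ, if_true]
    simp [rho]
  have h2 := congrArg (D.L α 1) hpq'
  rw [map_add, hrep, hrep', hu, D.L_combo hαρ, D.L_combo hαρ, D.L_combo hαρ, hcsum, hcsum',
    hdsum] at h2
  have hev : ∀ f : Bool × Fin (k + 1) → ℝ, ∑ s, f s * α s =
      f (true, 0) * ((2 * k + 2 : ℕ) : ℝ) := by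
    intro f
    simp only [hα, mul_ite, mul_zero, Finset.sum_ite_eq', Finset.mem_univ, if_true]
  rw [hev, hev, hev] at h2
  have hd1 : d (true, 0) = 1 := by simp [hd]
  obtain ⟨a, ha⟩ := hcint 0
  obtain ⟨a', ha'⟩ := hcint' 0
  have ha0 : (0 : ℝ) ≤ a := by rw [← ha]; exact hc0 _
  have ha0' : (0 : ℝ) ≤ a' := by rw [← ha']; exact hc0' _
  have hb0 : 0 ≤ a := by exact_mod_cast ha0
  have hb0' : 0 ≤ a' := by exact_mod_cast ha0'
  rw [hd1, ha, ha'] at h2
  push_cast at h2
  have h3 : ((a : ℝ) + a') * (2 * k + 2) + (z + z') = 2 * k + 1 := by linarith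
  rcases eq_or_lt_of_le (add_nonneg hb0 hb0') with h4 | h4
  · have h5 : ((a : ℝ) + a') = 0 := by exact_mod_cast h4.symm
    rw [h5] at h3
    linarith
  · have h5 : (1 : ℝ) ≤ (a : ℝ) + a' := by exact_mod_cast h4
    nlinarith

end Pool.Agent.Y2.Gp
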