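import Pool.Agent.Y2.Gp.Low

/-!
Lattice polytopes `k Q`, where `Q` is the convex hull of the points `v s` and `v s + e`, and the `v s`
satisfy one affine relation up to a multiple of `e`.
-/

set_option autoImplicit false

open Set Pointwise

namespace Pool.Agent.Y2.Gp

open Pool.Agent.H178R3.Gam

variable {n : ℕ}

/-- the sign of an index -/
def rho {m : ℕ} (s : Bool × Fin (m + 1)) : ℝ := if s.1 then 1 else -1

/-- Points `v s` in `ℝ^n`, `s` in two blocks with `m + 1` elements, and a vector `e` with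
`∑ v (true, i) = ∑ v (false, i) + N e`, the only affine relation; `C`, `Z` are coordinates. -/
structure Sys (n m N : ℕ) where
  v : Bool × Fin (m + 1) → Fin n → ℝ
  e : Fin n → ℝ
  C : (Fin n → ℝ) →ₗ[ℝ] (Bool × Fin (m + 1) → ℝ)
  Z : (Fin n → ℝ) →ₗ[ℝ] ℝ
  hv : ∀ s, IsLat (v s)
  he : IsLat e
  hC : ∀ u, IsLat u → ∀ s, ∃ z : ℤ, C u s = z
  hZ : ∀ u, IsLat u → ∃ z : ℤ, Z u = z
  rep : ∀ u, u = ∑ s, C u s • v s + Z u • e
  sum : ∀ u, ∑ s, C u s = 0
  rel : ∑ s, rho s • v s = (N : ℝ) • e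
  Ce : C e = 0
  Ze : Z e = 1
  lin : ∀ (α : Bool × Fin (m + 1) → ℝ) (β : ℝ), ∑ s, α s * rho s = β * N →
    ∀ r s, (∑ w, α w * C (v r) w + β * Z (v r)) - (∑ w, α w * C (v s) w + β * Z (v s)) =
      α r - α s

variable {m N : ℕ}

lemma rho_sum : ∑ s : Bool × Fin (m + 1), rho s = 0 := by
  rw [Fintype.sum_prod_type]
  simp [rho]

/-- exchange the two blocks and turn `e` round -/
def Sys.swap (D : Sys n m N) : Sys n m N where
  v s := D.v (!s.1, s.2) + D.e
  e := -D.e
  C := (LinearMap.funLeft ℝ ℝ fun s : Bool × Fin (m + 1) => (!s.1, s.2)).comp D.C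
  Z := -D.Z
  hv s := isLat_add (D.hv _) D.he
  he := by
    have := isLat_sub isLat_zero D.he
    rwa [zero_sub] at this
  hC u hu s := D.hC u hu _
  hZ u hu := by
    obtain ⟨z, hz⟩ := D.hZ u hu
    exact ⟨-z, by rw [LinearMap.neg_apply, hz]; push_cast; ring⟩
  rep u := by
    have h1 := D.rep u
    have h2 := D.sum u
    simp only [LinearMap.comp_apply, LinearMap.funLeft_apply, LinearMap.neg_apply, smul_neg,
      neg_smul, neg_neg, smul_add, Finset.sum_add_distrib]
    rw [Fintype.sum_prod_type] at h1 h2 ⊢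
    rw [Fintype.sum_prod_type]
    simp only [Fintype.sum_bool, Bool.not_true, Bool.not_false] at h1 h2 ⊢
    rw [← Finset.sum_smul, ← Finset.sum_smul]
    have h3 : (∑ x, D.C u (false, x)) • D.e + (∑ x, D.C u (true, x)) • D.e = 0 := by
      rw [← add_smul, add_comm, h2, zero_smul]
    rw [h3, add_zero, add_comm (∑ x, D.C u (false, x) • D.v (false, x))]
    exact h1
  sum u := by
    have h2 := D.sum u
    rw [Fintype.sum_prod_type] at h2 ⊢
    simp only [Fintype.sum_bool, Bool.not_true, Bool.not_false, LinearMap.comp_apply,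
      LinearMap.funLeft_apply] at h2 ⊢
    rw [add_comm]; exact h2
  rel := by
    have h1 := D.rel
    have h2 := rho_sum (m := m)
    rw [Fintype.sum_prod_type] at h1 h2 ⊢
    simp only [Fintype.sum_bool, Bool.not_true, Bool.not_false, rho, if_true, one_smul,
      neg_smul, smul_add, Finset.sum_add_distrib, Finset.sum_neg_distrib, Bool.false_eq_true,
      if_false, smul_neg] at h1 h2 ⊢
    rw [← h1]
    abel
  Ce := by
    funext s
    rw [LinearMap.comp_apply, map_neg, D.Ce]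
    simp [LinearMap.funLeft_apply]
  Ze := by rw [LinearMap.neg_apply, map_neg, D.Ze, neg_neg]
  lin α β h r s := by
    have h1 := D.lin (fun w => α (!w.1, w.2)) (-β) (by
      rw [Fintype.sum_prod_type] at h ⊢
      simp only [Fintype.sum_bool, Bool.not_true, Bool.not_false, rho, if_true, 
        Bool.false_eq_true, if_false, mul_one, mul_neg, Finset.sum_neg_distrib] at h ⊢
      linarith) (!r.1, r.2) (!s.1, s.2)
    have h2 : ∀ u : Fin n → ℝ, ∑ w, α (!w.1, w.2) * D.C u w = ∑ w, α w * D.C u (!w.1, w.2) := by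
      intro u
      rw [Fintype.sum_prod_type, Fintype.sum_prod_type]
      simp only [Fintype.sum_bool, Bool.not_true, Bool.not_false]
      rw [add_comm]
    simp only [LinearMap.comp_apply, LinearMap.funLeft_apply, LinearMap.neg_apply, map_add,
      Pi.add_apply, D.Ce, D.Ze, Pi.zero_apply, add_zero, Bool.not_not, h2, Prod.mk.eta] at h1 ⊢
    linarith

/-- the affine functional with the value `α s` at `v s`, up to a constant, and `β` at `e` -/
def Sys.L (D : Sys n m N) (α : Bool × Fin (m + 1) → ℝ) (β : ℝ) : (Fin n → ℝ) →ₗ[ℝ] ℝ :=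
  (∑ w, α w • (LinearMap.proj w).comp D.C) + β • D.Z

lemma Sys.L_apply (D : Sys n m N) (α : Bool × Fin (m + 1) → ℝ) (β : ℝ) (u : Fin n → ℝ) :
    D.L α β u = ∑ w, α w * D.C u w + β * D.Z u := by
  simp [Sys.L, LinearMap.sum_apply]

lemma Sys.L_e (D : Sys n m N) (α : Bool × Fin (m + 1) → ℝ) (β : ℝ) : D.L α β D.e = β := by
  rw [D.L_apply, D.Ce, D.Ze]; simp

lemma Sys.L_sub (D : Sys n m N) {α : Bool × Fin (m + 1) → ℝ} {β : ℝ}
    (h : ∑ s, α s * rho s = β * N) (r s : Bool × Fin (m + 1)) :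
    D.L α β (D.v r) - D.L α β (D.v s) = α r - α s := by
  rw [D.L_apply, D.L_apply]; exact D.lin α β h r s

lemma Sys.L_int (D : Sys n m N) {α : Bool × Fin (m + 1) → ℝ} {β : ℝ}
    (hα : ∀ s, ∃ z : ℤ, α s = z) (hβ : ∃ z : ℤ, β = z) {u : Fin n → ℝ} (hu : IsLat u) :
    ∃ z : ℤ, D.L α β u = z := by
  choose a ha using hα
  obtain ⟨b, hb⟩ := hβ
  choose c hc using D.hC u hu
  obtain ⟨d, hd⟩ := D.hZ u hu
  refine ⟨∑ w, a w * c w + b * d, ?_⟩
  rw [D.L_apply, hb, hd]
  push_cast
  congr 1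
  exact Finset.sum_congr rfl fun w _ => by rw [ha, hc]

end Pool.Agent.Y2.Gp
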