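import Pool.Agent.Y2.Gp.Prism

/-!
The invariant `Γ` of the product of a cone and a ray.
-/

set_option autoImplicit false

open Set Pointwise

namespace Pool.Agent.Y2.Gp

open Pool.Agent.H178R3.Gam

variable {n : ℕ}

/-- `Q` is a pointed convex cone -/
structure GoodCone (Q : Set (Fin n → ℝ)) : Prop where
  zero : (0 : Fin n → ℝ) ∈ Q
  add : ∀ x ∈ Q, ∀ y ∈ Q, x + y ∈ Q
  smul : ∀ c : ℝ, 0 ≤ c → ∀ x ∈ Q, c • x ∈ Q
  pointed : ∀ x ∈ Q, -x ∈ Q → x = 0

lemma isLat_iff_cc {t : ℝ} {x : Fin n → ℝ} : IsLat (cc t x) ↔ (∃ z : ℤ, t = z) ∧ IsLat x :=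
  ⟨fun h => ⟨h 0, (lat_tl h)⟩, fun h => isLat_cc h.1 h.2⟩

lemma isLat_zero : IsLat (0 : Fin n → ℝ) := fun _ => ⟨0, by simp⟩

lemma rayGen_coneP {Q : Set (Fin n → ℝ)} (hQ : GoodCone Q) {σ : ℝ} (hσ : σ = 1 ∨ σ = -1)
    (v : Fin (n + 1) → ℝ) :
    IsRayGen (coneP σ Q) v ↔ (v 0 = 0 ∧ IsRayGen Q (tl v)) ∨ v = cc σ 0 := by
  have hσ0 : σ ≠ 0 := by rcases hσ with rfl | rfl <;> norm_num
  have hσσ : σ * σ = 1 := by rcases hσ with rfl | rfl <;> norm_num
  have hσZ : ∃ z : ℤ, σ = z := by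
    rcases hσ with rfl | rfl
    · exact ⟨1, by simp⟩
    · exact ⟨-1, by simp⟩
  constructor
  · rintro ⟨⟨hv0, hvQ⟩, hne, hlat, hprim, hext⟩
    obtain ⟨t, ht0, ht⟩ := hext (cc 0 (tl v)) ⟨by simp, hvQ⟩ (cc (v 0) 0) ⟨hv0, hQ.zero⟩
      (by rw [cc_add, zero_add, add_zero, cc_tl])
    by_cases htl : tl v = 0
    · right
      obtain ⟨z, hz⟩ := hlat 0
      have hz' : ∃ k : ℕ, σ * v 0 = k := by
        obtain ⟨s, hs⟩ := hσZ
        have h1 : (0 : ℤ) ≤ s * z := by
          have : (0 : ℝ) ≤ ((s * z : ℤ) : ℝ) := by push_cast; rw [← hs, ← hz]; exact hv0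
          exact_mod_cast this
        obtain ⟨k, hk⟩ := Int.eq_ofNat_of_zero_le h1
        refine ⟨k, ?_⟩
        rw [hs, hz]
        exact_mod_cast hk
      obtain ⟨k, hk⟩ := hz'
      have h1 : v = (k : ℝ) • cc σ 0 := by
        rw [cc_smul, ← hk, smul_zero]
        apply ext'
        · simp only [cc_zero]
          calc v 0 = (σ * σ) * v 0 := by rw [hσσ, one_mul]
            _ = σ * v 0 * σ := by ring
        · exact htl
      have h2 := hprim k (cc σ 0) (isLat_cc hσZ isLat_zero) h1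
      rw [h2, Nat.cast_one, one_smul] at h1
      exact h1
    · left
      have h1 : tl v = t • tl v := congrArg tl ht
      have h2 : t = 1 := by
        have h3 : (1 - t) • tl v = 0 := by rw [sub_smul, one_smul, ← h1, sub_self]
        rcases smul_eq_zero.mp h3 with h | h
        · linarith
        · exact absurd h htl
      have h3 : v 0 = 0 := by
        have := congrFun ht 0
        rw [h2, one_smul] at this
        exact this.symm
      refine ⟨h3, hvQ, htl, (lat_tl hlat), ?_, ?_⟩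
      · intro k w hw hkw
        refine hprim k (cc 0 w) (isLat_cc ⟨0, by simp⟩ hw) ?_
        rw [cc_smul, mul_zero]
        exact ext' h3 hkw
      · intro x hx y hy hxy
        obtain ⟨s, hs0, hs⟩ := hext (cc 0 x) ⟨by simp, hx⟩ (cc 0 y) ⟨by simp, hy⟩ (by
          rw [cc_add, zero_add]
          exact ext' h3.symm hxy)
        exact ⟨s, hs0, congrArg tl hs⟩
  · rintro (⟨h0, hvQ, hne, hlat, hprim, hext⟩ | rfl)
    · refine ⟨⟨by rw [h0, mul_zero], hvQ⟩, fun h => hne (congrArg tl h), ?_, ?_, ?_⟩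
      · rw [← cc_tl v]
        exact isLat_cc ⟨0, by rw [h0]; simp⟩ hlat
      · intro k w hw hkw
        exact hprim k (tl w) (lat_tl hw) (congrArg tl hkw)
      · rintro x ⟨hx0, hx⟩ y ⟨hy0, hy⟩ hxy
        have h1 : x 0 + y 0 = 0 := (congrFun hxy 0).trans h0
        have h2 : x 0 = 0 := by
          have h3 : σ * x 0 = 0 := by
            have : σ * x 0 + σ * y 0 = 0 := by rw [← mul_add, h1, mul_zero]
            linarith
          rcases mul_eq_zero.mp h3 with h | h
          · exact absurd h hσ0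
          · exact h
        obtain ⟨t, ht0, ht⟩ := hext (tl x) hx (tl y) hy (congrArg tl hxy)
        exact ⟨t, ht0, ext' (by rw [h2]; simp [h0]) ht⟩
    · refine ⟨⟨by simp [hσσ], hQ.zero⟩, fun h => hσ0 (congrFun h 0), isLat_cc hσZ isLat_zero,
        ?_, ?_⟩
      · intro k w hw hkw
        obtain ⟨z, hz⟩ := hw 0
        have h1 : σ = k * z := by
          have := congrFun hkw 0
          simpa [hz] using this
        have h2 : (1 : ℤ) = (k : ℤ) * (z * (k * z)) := by
          have : (1 : ℝ) = (k : ℝ) * (z * (k * z)) := by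
            calc (1 : ℝ) = σ * σ := hσσ.symm
              _ = (k * z) * (k * z) := by rw [← h1]
              _ = _ := by ring
          exact_mod_cast this
        have h3 : (k : ℤ) ∣ 1 := ⟨_, h2⟩
        have h4 : k ∣ 1 := by exact_mod_cast h3
        exact Nat.dvd_one.mp h4
      · rintro x ⟨hx0, hx⟩ y ⟨hy0, hy⟩ hxy
        have h1 : tl x + tl y = 0 := congrArg tl hxy
        have h2 : tl x = 0 := hQ.pointed _ hx (by
          rw [← eq_neg_of_add_eq_zero_right h1]; exact hy)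
        refine ⟨σ * x 0, hx0, ext' ?_ ?_⟩
        · simp only [Pi.smul_apply, cc_zero, smul_eq_mul]
          calc x 0 = (σ * σ) * x 0 := by rw [hσσ, one_mul]
            _ = σ * x 0 * σ := by ring
        · rw [h2]; simp

lemma hilb_coneP {Q : Set (Fin n → ℝ)} (hQ : GoodCone Q) {σ : ℝ} (hσ : σ = 1 ∨ σ = -1)
    (v : Fin (n + 1) → ℝ) :
    IsHilb (coneP σ Q) v ↔ (v 0 = 0 ∧ IsHilb Q (tl v)) ∨ v = cc σ 0 := by
  have hσ0 : σ ≠ 0 := by rcases hσ with rfl | rfl <;> norm_num
  have hσσ : σ * σ = 1 := by rcases hσ with rfl | rfl <;> norm_num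
  have hσZ : ∃ z : ℤ, σ = z := by
    rcases hσ with rfl | rfl
    · exact ⟨1, by simp⟩
    · exact ⟨-1, by simp⟩
  have hnat : ∀ t : ℝ, (∃ z : ℤ, t = z) → 0 ≤ σ * t → ∃ k : ℕ, σ * t = k := by
    rintro t ⟨z, hz⟩ h
    obtain ⟨s, hs⟩ := hσZ
    have h1 : (0 : ℤ) ≤ s * z := by
      have : (0 : ℝ) ≤ ((s * z : ℤ) : ℝ) := by push_cast; rw [← hs, ← hz]; exact h
      exact_mod_cast this
    obtain ⟨k, hk⟩ := Int.eq_ofNat_of_zero_le h1
    refine ⟨k, ?_⟩
    rw [hs, hz]
    exact_mod_cast hk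
  constructor
  · rintro ⟨⟨hv0, hvQ⟩, hne, hlat, hirr⟩
    rcases hirr (cc 0 (tl v)) ⟨by simp, hvQ⟩ (cc (v 0) 0) ⟨hv0, hQ.zero⟩
      (isLat_cc ⟨0, by simp⟩ (lat_tl hlat)) (isLat_cc (hlat 0) isLat_zero)
      (by rw [cc_add, zero_add, add_zero, cc_tl]) with h | h
    · right
      have htl : tl v = 0 := congrArg tl h
      obtain ⟨k, hk⟩ := hnat (v 0) (hlat 0) hv0
      have hv0' : v 0 = k * σ := by
        calc v 0 = (σ * σ) * v 0 := by rw [hσσ, one_mul]
          _ = σ * v 0 * σ := by ring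
          _ = k * σ := by rw [hk]
      have hk1 : 1 ≤ k := by
        rcases Nat.eq_zero_or_pos k with h' | h'
        · exfalso
          apply hne
          apply ext'
          · rw [hv0', h']; simp
          · exact htl
        · exact h'
      have hk1' : (1 : ℝ) ≤ k := by exact_mod_cast hk1
      rcases hirr (cc σ 0) ⟨by simp [hσσ], hQ.zero⟩ (cc (v 0 - σ) 0) ⟨by
          simp only [cc_zero]
          rw [mul_sub, hk, hσσ]; linarith, hQ.zero⟩ (isLat_cc hσZ isLat_zero)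
          (isLat_cc (by
            obtain ⟨a, ha⟩ := hlat 0
            obtain ⟨b, hb⟩ := hσZ
            exact ⟨a - b, by rw [ha, hb]; push_cast; ring⟩) isLat_zero)
          (by
            rw [cc_add, add_zero]
            apply ext'
            · simp
            · simp [htl]) with h' | h'
      · exact absurd (congrFun h' 0) hσ0
      · apply ext'
        · have := congrFun h' 0
          simp only [cc_zero, Pi.zero_apply] at this
          simp only [cc_zero]; linarith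
        · exact htl
    · left
      have h0 : v 0 = 0 := congrFun h 0
      refine ⟨h0, hvQ, ?_, (lat_tl hlat), ?_⟩
      · intro h'
        exact hne (ext' h0 h')
      · intro x hx y hy hxl hyl hxy
        rcases hirr (cc 0 x) ⟨by simp, hx⟩ (cc 0 y) ⟨by simp, hy⟩ (isLat_cc ⟨0, by simp⟩ hxl)
          (isLat_cc ⟨0, by simp⟩ hyl) (by
            rw [cc_add, zero_add]
            exact ext' h0.symm hxy) with h1 | h1
        · exact Or.inl (congrArg tl h1)
        · exact Or.inr (congrArg tl h1)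
  · rintro (⟨h0, hvQ, hne, hlat, hirr⟩ | rfl)
    · refine ⟨⟨by rw [h0, mul_zero], hvQ⟩, fun h => hne (congrArg tl h), ?_, ?_⟩
      · rw [← cc_tl v]
        exact isLat_cc ⟨0, by rw [h0]; simp⟩ hlat
      · rintro x ⟨hx0, hx⟩ y ⟨hy0, hy⟩ hxl hyl hxy
        have h1 : x 0 + y 0 = 0 := (congrFun hxy 0).trans h0
        have h2 : x 0 = 0 := by
          have h3 : σ * x 0 = 0 := by
            have : σ * x 0 + σ * y 0 = 0 := by rw [← mul_add, h1, mul_zero]
            linarith
          rcases mul_eq_zero.mp h3 with h | h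
          · exact absurd h hσ0
          · exact h
        have h3 : y 0 = 0 := by linarith
        rcases hirr (tl x) hx (tl y) hy (lat_tl hxl) (lat_tl hyl) (congrArg tl hxy) with h | h
        · exact Or.inl (ext' h2 h)
        · exact Or.inr (ext' h3 h)
    · refine ⟨⟨by simp [hσσ], hQ.zero⟩, fun h => hσ0 (congrFun h 0), isLat_cc hσZ isLat_zero, ?_⟩
      rintro x ⟨hx0, hx⟩ y ⟨hy0, hy⟩ hxl hyl hxy
      have h1 : tl x + tl y = 0 := congrArg tl hxy
      have h2 : tl x = 0 := hQ.pointed _ hx (by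
        rw [← eq_neg_of_add_eq_zero_right h1]; exact hy)
      have h3 : tl y = 0 := by rw [h2, zero_add] at h1; exact h1
      obtain ⟨k, hk⟩ := hnat (x 0) (hxl 0) hx0
      obtain ⟨k', hk'⟩ := hnat (y 0) (hyl 0) hy0
      have h4 : k + k' = 1 := by
        have h5 : x 0 + y 0 = σ := congrFun hxy 0
        have : (k : ℝ) + k' = 1 := by rw [← hk, ← hk', ← mul_add, h5, hσσ]
        exact_mod_cast this
      rcases Nat.eq_zero_or_pos k with h | h
      · left
        apply ext'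
        · rw [h, Nat.cast_zero] at hk
          rcases mul_eq_zero.mp hk with h' | h'
          · exact absurd h' hσ0
          · exact h'
        · exact h2
      · right
        have h5 : k' = 0 := by omega
        apply ext'
        · rw [h5, Nat.cast_zero] at hk'
          rcases mul_eq_zero.mp hk' with h' | h'
          · exact absurd h' hσ0
          · exact h'
        · exact h3

/-- representations of points with first coordinate zero -/
lemma transfer {σ : ℝ} (hσ : σ ≠ 0) {R : (Fin n → ℝ) → Prop} {R' : (Fin (n + 1) → ℝ) → Prop}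
    (h : ∀ v, R' v ↔ (v 0 = 0 ∧ R (tl v)) ∨ v = cc σ 0) {α : Type} (c : α → Prop) (cast : α → ℝ)
    (hc0 : ∀ a, c a → 0 ≤ cast a) (u : Fin n → ℝ) (s : ℝ) :
    (∃ (F : Finset (Fin (n + 1) → ℝ)) (a : (Fin (n + 1) → ℝ) → α),
      (∀ w ∈ F, R' w ∧ c (a w)) ∧ cc 0 u = ∑ w ∈ F, cast (a w) • w ∧
        s = ∑ w ∈ F, cast (a w)) ↔
    (∃ (F : Finset (Fin n → ℝ)) (a : (Fin n → ℝ) → α),
      (∀ w ∈ F, R w ∧ c (a w)) ∧ u = ∑ w ∈ F, cast (a w) • w ∧ s = ∑ w ∈ F, cast (a w)) := by
  classical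
  constructor
  · rintro ⟨F, a, hF, hu, rfl⟩
    have hzero : ∀ w ∈ F, w 0 ≠ 0 → cast (a w) = 0 := by
      intro w hw hw0
      have hwσ : w = cc σ 0 := by
        rcases (h w).mp (hF w hw).1 with h1 | h1
        · exact absurd h1.1 hw0
        · exact h1
      have h1 := congrFun hu 0
      rw [Finset.sum_apply] at h1
      have h2 : ∀ w' ∈ F, w' ≠ w → (cast (a w') • w') 0 = 0 := by
        intro w' hw' hne
        rcases (h w').mp (hF w' hw').1 with h3 | h3
        · rw [Pi.smul_apply, h3.1, smul_zero]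
        · exact absurd (h3.trans hwσ.symm) hne
      rw [Finset.sum_eq_single w (fun w' hw' hne => h2 w' hw' hne) (fun hh => absurd hw hh)] at h1
      rw [cc_zero, Pi.smul_apply, smul_eq_mul] at h1
      rcases mul_eq_zero.mp h1.symm with h3 | h3
      · exact h3
      · exact absurd h3 hw0
    refine ⟨(F.filter fun w => w 0 = 0).image tl, fun w => a (cc 0 w), ?_, ?_, ?_⟩
    · intro w hw
      obtain ⟨w', hw', rfl⟩ := Finset.mem_image.mp hw
      rw [Finset.mem_filter] at hw'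
      have h1 : cc 0 (tl w') = w' := ext' hw'.2.symm rfl
      show R (tl w') ∧ c (a (cc 0 (tl w')))
      rw [h1]
      refine ⟨?_, (hF w' hw'.1).2⟩
      rcases (h w').mp (hF w' hw'.1).1 with h2 | h2
      · exact h2.2
      · exfalso
        have := hw'.2
        rw [h2, cc_zero] at this
        exact hσ this
    · rw [Finset.sum_image]
      · have h1 := congrArg tl hu
        rw [tl_cc, tl_sum] at h1
        rw [h1, Finset.sum_filter]
        apply Finset.sum_congr rfl
        intro w hw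
        split_ifs with h2
        · show tl (cast (a w) • w) = cast (a (cc 0 (tl w))) • tl w
          rw [show cc 0 (tl w) = w from ext' h2.symm rfl]; rfl
        · rw [tl_smul, hzero w hw h2, zero_smul]
      · intro w hw w' hw' hww
        simp only [Finset.coe_filter, Set.mem_ofPred_eq] at hw hw'
        exact ext' (hw.2.trans hw'.2.symm) hww
    · rw [Finset.sum_image]
      · rw [Finset.sum_filter]
        apply Finset.sum_congr rfl
        intro w hw
        split_ifs with h2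
        · show cast (a w) = cast (a (cc 0 (tl w)))
          rw [show cc 0 (tl w) = w from ext' h2.symm rfl]
        · exact hzero w hw h2
      · intro w hw w' hw' hww
        simp only [Finset.coe_filter, Set.mem_ofPred_eq] at hw hw'
        exact ext' (hw.2.trans hw'.2.symm) hww
  · rintro ⟨F, a, hF, hu, rfl⟩
    have hinj : Function.Injective (cc (n := n) 0) := fun x y hxy => (cc_inj hxy).2
    refine ⟨F.image (cc 0), fun w => a (tl w), ?_, ?_, ?_⟩
    · intro w hw
      obtain ⟨w', hw', rfl⟩ := Finset.mem_image.mp hw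
      exact ⟨(h _).mpr (Or.inl ⟨rfl, (hF w' hw').1⟩), (hF w' hw').2⟩
    · rw [Finset.sum_image hinj.injOn]
      apply ext'
      · rw [Finset.sum_apply]
        simp
      · rw [tl_sum, tl_cc, hu]
        rfl
    · rw [Finset.sum_image hinj.injOn]
      rfl

lemma htSet_coneP {Q : Set (Fin n → ℝ)} (hQ : GoodCone Q) {σ : ℝ} (hσ : σ = 1 ∨ σ = -1)
    (u : Fin n → ℝ) : htSet (coneP σ Q) (cc 0 u) = htSet Q u := by
  have hσ0 : σ ≠ 0 := by rcases hσ with rfl | rfl <;> norm_num
  ext s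
  exact transfer hσ0 (rayGen_coneP hQ hσ) (fun a : ℝ => 0 ≤ a) id (fun a ha => ha) u s

lemma ordSet_coneP {Q : Set (Fin n → ℝ)} (hQ : GoodCone Q) {σ : ℝ} (hσ : σ = 1 ∨ σ = -1)
    (u : Fin n → ℝ) : ordSet (coneP σ Q) (cc 0 u) = ordSet Q u := by
  have hσ0 : σ ≠ 0 := by rcases hσ with rfl | rfl <;> norm_num
  ext s
  have h := transfer hσ0 (hilb_coneP hQ hσ) (fun _ : ℕ => True) (fun a : ℕ => (a : ℝ))
    (fun a _ => Nat.cast_nonneg a) u s
  simp only [and_true] at h
  exact h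

lemma box_coneP {Q : Set (Fin n → ℝ)} (hQ : GoodCone Q) {σ : ℝ} (hσ : σ = 1 ∨ σ = -1)
    (u : Fin n → ℝ) : cc 0 u ∈ boxSet (coneP σ Q) ↔ u ∈ boxSet Q := by
  have hσ0 : σ ≠ 0 := by rcases hσ with rfl | rfl <;> norm_num
  constructor
  · rintro ⟨F, a, hF, hu⟩
    obtain ⟨F', a', h1, h2, -⟩ := (transfer hσ0 (rayGen_coneP hQ hσ)
      (fun a : ℝ => 0 ≤ a ∧ a < 1) id (fun a ha => ha.1) u _).mp ⟨F, a, hF, hu, rfl⟩
    exact ⟨F', a', h1, h2⟩
  · rintro ⟨F, a, hF, hu⟩
    obtain ⟨F', a', h1, h2, -⟩ := (transfer hσ0 (rayGen_coneP hQ hσ)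
      (fun a : ℝ => 0 ≤ a ∧ a < 1) id (fun a ha => ha.1) u _).mpr ⟨F, a, hF, hu, rfl⟩
    exact ⟨F', a', h1, h2⟩

lemma box_zero {Q : Set (Fin n → ℝ)} (hQ : GoodCone Q) {σ : ℝ} (hσ : σ = 1 ∨ σ = -1)
    {v : Fin (n + 1) → ℝ} (hv : v ∈ boxSet (coneP σ Q)) (hlat : IsLat v) : v 0 = 0 := by
  obtain ⟨F, a, hF, hu⟩ := hv
  have h1 := congrFun hu 0
  rw [Finset.sum_apply] at h1
  by_cases hmem : cc σ 0 ∈ F
  · have h2 : ∀ w' ∈ F, w' ≠ cc σ 0 → (a w' • w') 0 = 0 := by
      intro w' hw' hne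
      rcases (rayGen_coneP hQ hσ w').mp (hF w' hw').1 with h3 | h3
      · rw [Pi.smul_apply, h3.1, smul_zero]
      · exact absurd h3 hne
    rw [Finset.sum_eq_single (cc σ 0) (fun w' hw' hne => h2 w' hw' hne)
      (fun hh => absurd hmem hh)] at h1
    rw [Pi.smul_apply, smul_eq_mul, cc_zero] at h1
    obtain ⟨z, hz⟩ := hlat 0
    have h3 := (hF _ hmem).2
    rw [hz] at h1 ⊢
    have h4 : -1 < (z : ℝ) ∧ (z : ℝ) < 1 := by
      rcases hσ with rfl | rfl
      · rw [h1]; constructor <;> linarith [h3.1, h3.2]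
      · rw [h1]; constructor <;> linarith [h3.1, h3.2]
    have h5 : -1 < z ∧ z < 1 := ⟨by exact_mod_cast h4.1, by exact_mod_cast h4.2⟩
    have h6 : z = 0 := by omega
    rw [h6]; simp
  · rw [h1]
    apply Finset.sum_eq_zero
    intro w hw
    rcases (rayGen_coneP hQ hσ w).mp (hF w hw).1 with h3 | h3
    · rw [Pi.smul_apply, h3.1, smul_zero]
    · exact absurd (h3 ▸ hw) hmem

theorem gamma_coneP {Q : Set (Fin n → ℝ)} (hQ : GoodCone Q) {σ : ℝ} (hσ : σ = 1 ∨ σ = -1)
    (g : ℝ) : IsGammaCone (coneP σ Q) g ↔ IsGammaCone Q g := by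
  have : {d : ℝ | ∃ u ∈ boxSet (coneP σ Q), IsLat u ∧
      ∃ h k, IsGreatest (htSet (coneP σ Q) u) h ∧ IsGreatest (ordSet (coneP σ Q) u) k ∧
        d = h - k} = {d : ℝ | ∃ u ∈ boxSet Q, IsLat u ∧
      ∃ h k, IsGreatest (htSet Q u) h ∧ IsGreatest (ordSet Q u) k ∧ d = h - k} := by
    ext d
    constructor
    · rintro ⟨u, hu, hlat, h, k, hh, hk, rfl⟩
      have h0 := box_zero hQ hσ hu hlat
      have h1 : u = cc 0 (tl u) := ext' h0 rfl
      rw [h1, htSet_coneP hQ hσ] at hh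
      rw [h1, ordSet_coneP hQ hσ] at hk
      rw [h1, box_coneP hQ hσ] at hu
      exact ⟨tl u, hu, (lat_tl hlat), h, k, hh, hk, rfl⟩
    · rintro ⟨u, hu, hlat, h, k, hh, hk, rfl⟩
      refine ⟨cc 0 u, (box_coneP hQ hσ u).mpr hu, isLat_cc ⟨0, by simp⟩ hlat, h, k, ?_, ?_, rfl⟩
      · rw [htSet_coneP hQ hσ]; exact hh
      · rw [ordSet_coneP hQ hσ]; exact hk
  unfold IsGammaCone
  rw [this]

end Pool.Agent.Y2.Gp
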