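import Pool.Agent.Y2.Gp.Circ

/-!
A criterion for `Γ_Q = 0`, and faces of the convex hull of finitely many points.
-/

set_option autoImplicit false

open Set Pointwise

namespace Pool.Agent.Y2.Gp

open Pool.Agent.H178R3.Gam

variable {n : ℕ}

/-- Criterion for `Γ_Q = 0`. -/
theorem gamma_zero {ι J : Type} [Fintype ι] [Nonempty J] {Q : Set (Fin n → ℝ)}
    (hQ0 : (0 : Fin n → ℝ) ∈ Q)
    (hQadd : ∀ x ∈ Q, ∀ y ∈ Q, x + y ∈ Q)
    (hQsmul : ∀ c : ℝ, 0 ≤ c → ∀ x ∈ Q, c • x ∈ Q)
    (G : ι → Fin n → ℝ) (hinj : Function.Injective G) (hGl : ∀ i, IsLat (G i))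
    (hGQ : ∀ i, G i ∈ Q)
    (l : J → (Fin n → ℝ) →ₗ[ℝ] ℝ) (hlint : ∀ j u, IsLat u → ∃ z : ℤ, l j u = z)
    (hl : ∀ j i, 1 ≤ l j (G i)) (hl1 : ∀ i, ∃ j, l j (G i) = 1)
    (hrep : ∀ u ∈ Q, IsLat u → ∃ (c : ι → ℕ) (j : J),
      u = ∑ i, (c i : ℝ) • G i ∧ (∑ i, (c i : ℝ)) = l j u) :
    IsGammaCone Q 0 := by
  classical
  -- every nonzero lattice point has positive values
  have hpos : ∀ u : Fin n → ℝ, u ∈ Q → IsLat u → u ≠ 0 → ∀ j, 1 ≤ l j u := by
    intro u hu hlat hne j
    obtain ⟨c, j', hn, -⟩ := hrep u hu hlat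
    have hex : ∃ i, c i ≠ 0 := by
      by_contra hcon
      push Not at hcon
      apply hne
      rw [hn]
      simp [hcon]
    obtain ⟨i, hi⟩ := hex
    rw [hn, map_sum]
    have h1 : ∀ i, (c i : ℝ) ≤ l j ((c i : ℝ) • G i) := by
      intro i
      rw [map_smul, smul_eq_mul]
      nlinarith [(Nat.cast_nonneg (c i) : (0 : ℝ) ≤ c i), hl j i]
    have h2 : (1 : ℝ) ≤ c i := by exact_mod_cast Nat.one_le_iff_ne_zero.mpr hi
    have h3 : (c i : ℝ) ≤ ∑ i, (c i : ℝ) :=
      Finset.single_le_sum (f := fun i => (c i : ℝ)) (fun _ _ => Nat.cast_nonneg _)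
        (Finset.mem_univ i)
    have h4 := Finset.sum_le_sum (fun i (_ : i ∈ Finset.univ) => h1 i)
    linarith
  -- ray generators are among the `G i`
  have hray : ∀ w, IsRayGen Q w → ∃ i, w = G i := by
    rintro w ⟨hwQ, hw0, hlat, hprim, hext⟩
    obtain ⟨c, j', hn, -⟩ := hrep w hwQ hlat
    have hex : ∃ i, c i ≠ 0 := by
      by_contra hcon
      push Not at hcon
      apply hw0
      rw [hn]
      simp [hcon]
    obtain ⟨i, hi⟩ := hex
    have hrest : ∑ i' ∈ Finset.univ.erase i, (c i' : ℝ) • G i' ∈ Q := by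
      apply Finset.sum_induction _ (fun x => x ∈ Q) (fun x y hx hy => hQadd x hx y hy) hQ0
      intro i' _
      exact hQsmul _ (Nat.cast_nonneg _) _ (hGQ i')
    obtain ⟨t, ht0, ht⟩ := hext ((c i : ℝ) • G i)
      (hQsmul _ (Nat.cast_nonneg _) _ (hGQ i)) _ hrest (by
        rw [hn, Finset.add_sum_erase Finset.univ (fun i => (c i : ℝ) • G i)
          (Finset.mem_univ i)])
    have hni : (0 : ℝ) < c i := by exact_mod_cast Nat.pos_of_ne_zero hi
    obtain ⟨j, hj⟩ := hl1 i
    have hval := congrArg (l j) ht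
    rw [map_smul, map_smul, hj, smul_eq_mul, smul_eq_mul, mul_one] at hval
    obtain ⟨z, hz⟩ := hlint j w hlat
    have htpos : 0 < t := by
      rcases ht0.lt_or_eq with h | h
      · exact h
      · rw [← h, zero_mul] at hval
        linarith
    have hmpos : (0 : ℝ) < z := by
      rw [hz] at hval
      by_contra hcon
      push Not at hcon
      nlinarith
    have hm : (0 : ℤ) < z := by exact_mod_cast hmpos
    obtain ⟨k, hk⟩ := Int.eq_ofNat_of_zero_le hm.le
    have hwm : w = (k : ℝ) • G i := by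
      have h1 : t • w = t • ((k : ℝ) • G i) := by
        rw [← ht, smul_smul, hval, hz, hk]
        push_cast
        rfl
      exact smul_right_injective _ htpos.ne' h1
    have hm1 := hprim k (G i) (hGl i) hwm
    refine ⟨i, ?_⟩
    rw [hwm, hm1, Nat.cast_one, one_smul]
  -- the `G i` are in the Hilbert basis
  have hhilb : ∀ i, IsHilb Q (G i) := by
    intro i
    obtain ⟨j, hj⟩ := hl1 i
    refine ⟨hGQ i, ?_, hGl i, ?_⟩
    · intro h0
      rw [h0, map_zero] at hj
      norm_num at hj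
    · intro x hx y hy hxl hyl hxy
      by_contra hcon
      push Not at hcon
      have h1 := hpos x hx hxl hcon.1 j
      have h2 := hpos y hy hyl hcon.2 j
      have := congrArg (l j) hxy
      rw [hj, map_add] at this
      linarith
  have hht : ∀ u s, s ∈ htSet Q u → ∀ j, s ≤ l j u := by
    rintro u s ⟨F, a, hF, rfl, rfl⟩ j
    rw [map_sum]
    apply Finset.sum_le_sum
    intro w hw
    obtain ⟨i, hi⟩ := hray w (hF w hw).1
    have h2 := (hF w hw).2
    rw [map_smul, smul_eq_mul]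
    have h3 := hl j i
    rw [← hi] at h3
    nlinarith
  have hord : ∀ u s, s ∈ ordSet Q u → ∀ j, s ≤ l j u := by
    rintro u s ⟨F, a, hF, rfl, rfl⟩ j
    rw [map_sum]
    apply Finset.sum_le_sum
    intro w hw
    obtain ⟨h1, h2, h3, -⟩ := hF w hw
    have h4 := hpos w h1 h3 h2 j
    rw [map_smul, smul_eq_mul]
    nlinarith [(Nat.cast_nonneg (a w) : (0 : ℝ) ≤ a w)]
  refine ⟨⟨0, ⟨∅, 0, by simp, by simp⟩, fun i => ⟨0, by simp⟩, 0, 0, ⟨⟨∅, 0, by simp, by simp,
    by simp⟩, ?_⟩, ⟨⟨∅, 0, by simp, by simp, by simp⟩, ?_⟩, by simp⟩, ?_⟩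
  · intro s hs
    have := hht 0 s hs (Classical.arbitrary J)
    rwa [map_zero] at this
  · intro s hs
    have := hord 0 s hs (Classical.arbitrary J)
    rwa [map_zero] at this
  · rintro d ⟨u, hu, hlat, h, k, hh, hk, rfl⟩
    have huQ : u ∈ Q := by
      obtain ⟨F, a, hF, hsum⟩ := hu
      rw [hsum]
      apply Finset.sum_induction _ (fun x => x ∈ Q) (fun x y hx hy => hQadd x hx y hy) hQ0
      intro w hw
      exact hQsmul _ (hF w hw).2.1 _ (hF w hw).1.1
    obtain ⟨c, j, hn, hnj⟩ := hrep u huQ hlat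
    have h1 := hht _ _ hh.1 j
    have h2 : (∑ i, (c i : ℝ)) ∈ ordSet Q u := by
      refine ⟨Finset.univ.image G, Function.extend G c 0, ?_, ?_, ?_⟩
      · intro b hb
        rw [Finset.mem_image] at hb
        obtain ⟨i, -, rfl⟩ := hb
        exact hhilb i
      · rw [Finset.sum_image (fun i _ i' _ h => hinj h)]
        simp only [hinj.extend_apply]
        exact hn
      · rw [Finset.sum_image (fun i _ i' _ h => hinj h)]
        simp only [hinj.extend_apply]
    have h3 := hk.2 h2
    linarith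

lemma mem_hull {ι : Type} [Fintype ι] {V : ι → Fin n → ℝ} {p : Fin n → ℝ}
    (hp : p ∈ convexHull ℝ (range V)) : ∃ w : ι → ℝ, (∀ i, 0 ≤ w i) ∧ ∑ i, w i = 1 ∧
      p = ∑ i, w i • V i := by
  rw [convexHull_range_eq_exists_affineCombination] at hp
  obtain ⟨s, w, hw0, hw1, rfl⟩ := hp
  classical
  refine ⟨fun i => if i ∈ s then w i else 0, ?_, ?_, ?_⟩
  · intro i
    dsimp only
    split_ifs with h
    · exact hw0 i h
    · exact le_refl _
  · rw [Finset.sum_ite_mem, Finset.univ_inter]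
    exact hw1
  · rw [Finset.affineCombination_eq_linear_combination _ _ _ hw1]
    simp only [ite_smul, zero_smul]
    rw [Finset.sum_ite_mem, Finset.univ_inter]

theorem face {ι : Type} [Fintype ι] [DecidableEq ι] {V : ι → Fin n → ℝ}
    (L : (Fin n → ℝ) →ₗ[ℝ] ℝ) (c : ℝ)
    (j k : ι) (h : ∀ i, c ≤ L (V i)) (he : ∀ i, L (V i) = c ↔ i = j ∨ i = k) :
    IsExtreme ℝ (convexHull ℝ (range V)) (segment ℝ (V j) (V k)) := by
  have hV : ∀ i, V i ∈ convexHull ℝ (range V) := fun i => subset_convexHull ℝ _ ⟨i, rfl⟩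
  have hle : ∀ p ∈ convexHull ℝ (range V), c ≤ L p := by
    intro p hp
    obtain ⟨w, hw0, hw1, rfl⟩ := mem_hull hp
    rw [map_sum]
    have : c = ∑ i, w i * c := by rw [← Finset.sum_mul, hw1, one_mul]
    rw [this]
    apply Finset.sum_le_sum
    intro i _
    rw [map_smul, smul_eq_mul]
    exact mul_le_mul_of_nonneg_left (h i) (hw0 i)
  have hj : L (V j) = c := (he j).2 (Or.inl rfl)
  have hk : L (V k) = c := (he k).2 (Or.inr rfl)
  have hseg : ∀ p ∈ segment ℝ (V j) (V k), L p = c := by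
    rintro p ⟨s, t, -, -, hst, rfl⟩
    rw [map_add, map_smul, map_smul, hj, hk, smul_eq_mul, smul_eq_mul, ← add_mul, hst, one_mul]
  have hback : ∀ p ∈ convexHull ℝ (range V), L p = c → p ∈ segment ℝ (V j) (V k) := by
    intro p hp hpc
    obtain ⟨w, hw0, hw1, rfl⟩ := mem_hull hp
    have hz : ∀ i, w i * (L (V i) - c) = 0 := by
      have hsum : ∑ i, w i * (L (V i) - c) = 0 := by
        rw [map_sum] at hpc
        simp only [mul_sub, Finset.sum_sub_distrib, ← Finset.sum_mul, hw1, one_mul]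
        rw [sub_eq_zero, ← hpc]
        apply Finset.sum_congr rfl
        intro i _
        rw [map_smul, smul_eq_mul]
      have hnn : ∀ i ∈ Finset.univ, 0 ≤ w i * (L (V i) - c) := by
        intro i _
        exact mul_nonneg (hw0 i) (by linarith [h i])
      intro i
      exact (Finset.sum_eq_zero_iff_of_nonneg hnn).1 hsum i (Finset.mem_univ i)
    have hw' : ∑ i, w i • V i = ∑ i, w i • (if i = k then V k else V j) := by
      apply Finset.sum_congr rfl
      intro i _
      rcases mul_eq_zero.1 (hz i) with h0 | h0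
      · rw [h0, zero_smul, zero_smul]
      · rcases (he i).1 (by linarith) with h1 | h1
        · subst h1
          split_ifs with h2
          · rw [h2]
          · rfl
        · rw [if_pos h1, h1]
    rw [hw']
    apply (convex_segment _ _).sum_mem (fun i _ => hw0 i) hw1
    intro i _
    split_ifs
    · exact right_mem_segment _ _ _
    · exact left_mem_segment _ _ _
  refine ⟨?_, ?_⟩
  · exact (convex_convexHull ℝ _).segment_subset (hV j) (hV k)
  · intro x hx y hy z hz hzo
    obtain ⟨s, t, hs, ht, hst, rfl⟩ := hzo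
    have h1 := hseg _ hz
    rw [map_add, map_smul, map_smul, smul_eq_mul, smul_eq_mul] at h1
    have h2 := hle x hx
    have h3 := hle y hy
    apply hback x hx
    have h4 : s * (L x - c) = 0 := by
      have : s * (L x - c) + t * (L y - c) = 0 := by
        have : (s + t) * (c : ℝ) = c := by rw [hst, one_mul]
        linarith
      have h5 : 0 ≤ s * (L x - c) := mul_nonneg hs.le (by linarith)
      have h6 : 0 ≤ t * (L y - c) := mul_nonneg ht.le (by linarith)
      linarith
    rcases mul_eq_zero.1 h4 with h5 | h5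
    · linarith
    · linarith

end Pool.Agent.Y2.Gp
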