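import Pool.Agent.Y2.Gp.Poly

/-!
Lattice polytopes of dimension at most two are integrally closed.
-/

set_option autoImplicit false

open Set Pointwise

namespace Pool.Agent.Y2.Gp

open Pool.Agent.H178R3.Gam

variable {n : ℕ}

/-- the energy of a point -/
def en (v : Fin n → ℝ) : ℝ := ∑ k, v k ^ 2

lemma en_nonneg (v : Fin n → ℝ) : 0 ≤ en v := Finset.sum_nonneg fun _ _ => sq_nonneg _

lemma en_pos {v : Fin n → ℝ} (h : v ≠ 0) : 0 < en v := by
  rcases (en_nonneg v).lt_or_eq with h' | h'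
  · exact h'
  · exfalso
    apply h
    funext k
    have := (Finset.sum_eq_zero_iff_of_nonneg (fun k _ => sq_nonneg (v k))).mp h'.symm k
      (Finset.mem_univ k)
    simpa using this

lemma en_convex (p : Fin 3 → ℝ) (hp : ∑ i, p i = 1) (v : Fin 3 → Fin n → ℝ) :
    ∑ i, p i * en (v i) - en (∑ i, p i • v i) =
      p 0 * p 1 * en (v 0 - v 1) + p 0 * p 2 * en (v 0 - v 2) + p 1 * p 2 * en (v 1 - v 2) := by
  rw [Fin.sum_univ_three] at hp
  have h2 : p 2 = 1 - p 0 - p 1 := by linarith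
  simp only [Fin.sum_univ_three, en, Finset.mul_sum, ← Finset.sum_add_distrib,
    ← Finset.sum_sub_distrib]
  apply Finset.sum_congr rfl
  intro k _
  simp only [Pi.add_apply, Pi.smul_apply, smul_eq_mul, Pi.sub_apply]
  rw [h2]
  ring

lemma upd {M : Type*} [AddCommGroup M] [Module ℝ M] (j : Fin 3) (b : Fin 3 → ℝ) (hb : b j = 0)
    (G : (Fin n → ℝ) → M) (τ : Fin 3 → Fin n → ℝ) (w : Fin n → ℝ) (ε : ℝ) :
    ∑ i, (Function.update b j ε) i • G (Function.update τ j w i) =
      ∑ i, b i • G (τ i) + ε • G w := by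
  rw [← Finset.add_sum_erase Finset.univ _ (Finset.mem_univ j),
    ← Finset.add_sum_erase Finset.univ (fun i => b i • G (τ i)) (Finset.mem_univ j)]
  simp only [Function.update_self, hb, zero_smul, zero_add]
  rw [add_comm]
  congr 1
  apply Finset.sum_congr rfl
  intro i hi
  have : i ≠ j := (Finset.mem_erase.mp hi).1
  rw [Function.update_of_ne this, Function.update_of_ne this]

lemma isLat_add {x y : Fin n → ℝ} (hx : IsLat x) (hy : IsLat y) : IsLat (x + y) := by
  intro i
  obtain ⟨a, ha⟩ := hx i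
  obtain ⟨b, hb⟩ := hy i
  exact ⟨a + b, by rw [Pi.add_apply, ha, hb]; push_cast; ring⟩

lemma isLat_sub {x y : Fin n → ℝ} (hx : IsLat x) (hy : IsLat y) : IsLat (x - y) := by
  intro i
  obtain ⟨a, ha⟩ := hx i
  obtain ⟨b, hb⟩ := hy i
  exact ⟨a - b, by rw [Pi.sub_apply, ha, hb]; push_cast; ring⟩

lemma isLat_nsmul {x : Fin n → ℝ} (hx : IsLat x) (k : ℕ) : IsLat ((k : ℝ) • x) := by
  intro i
  obtain ⟨a, ha⟩ := hx i
  exact ⟨k * a, by rw [Pi.smul_apply, ha, smul_eq_mul]; push_cast; ring⟩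

lemma isLat_sum {ι : Type*} (s : Finset ι) (f : ι → Fin n → ℝ) (h : ∀ i ∈ s, IsLat (f i)) :
    IsLat (∑ i ∈ s, f i) := by
  classical
  induction s using Finset.induction_on with
  | empty => rw [Finset.sum_empty]; exact isLat_zero
  | insert a s ha ih =>
    rw [Finset.sum_insert ha]
    exact isLat_add (h a (Finset.mem_insert_self a s))
      (ih fun i hi => h i (Finset.mem_insert_of_mem hi))

lemma sum_subset {P : Set (Fin n → ℝ)} (hP : Convex ℝ P) (r : ℕ) :
    (P ∩ {x | IsLat x}) + (((r : ℝ) • P) ∩ {x | IsLat x}) ⊆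
      (((r + 1 : ℕ) : ℝ) • P) ∩ {x | IsLat x} := by
  rintro _ ⟨a, ⟨ha, hal⟩, b, ⟨hb, hbl⟩, rfl⟩
  obtain ⟨b', hb', rfl⟩ := hb
  refine ⟨⟨(1 / ((r : ℝ) + 1)) • a + ((r : ℝ) / (r + 1)) • b', hP ha hb' (by positivity)
    (by positivity) (by field_simp; ring), ?_⟩, isLat_add hal hbl⟩
  have h1 : ((r : ℝ) + 1) ≠ 0 := by positivity
  simp only [Nat.cast_add, Nat.cast_one, smul_add, smul_smul]
  rw [mul_one_div_cancel h1, one_smul, mul_div_cancel₀ _ h1]

lemma combo_mem {P : Set (Fin n → ℝ)} (hP : Convex ℝ P) {r : ℕ} (hr : 1 ≤ r)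
    (τ : Fin 3 → Fin n → ℝ) (hτ : ∀ i, τ i ∈ P ∧ IsLat (τ i)) (k : Fin 3 → ℕ)
    (hk : ∑ i, (k i : ℝ) = r) :
    ∑ i, (k i : ℝ) • τ i ∈ ((r : ℝ) • P) ∩ {x | IsLat x} := by
  have hr0 : (0 : ℝ) < r := by exact_mod_cast hr
  refine ⟨⟨∑ i, ((k i : ℝ) / r) • τ i, ?_, ?_⟩, isLat_sum _ _ fun i _ => isLat_nsmul (hτ i).2 _⟩
  · apply hP.sum_mem
    · intro i _; positivity
    · rw [← Finset.sum_div, hk, div_self hr0.ne']
    · intro i _; exact (hτ i).1
  · show (r : ℝ) • (∑ i, ((k i : ℝ) / r) • τ i) = _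
    rw [Finset.smul_sum]
    apply Finset.sum_congr rfl
    intro i _
    rw [smul_smul, mul_div_cancel₀ _ hr0.ne']

lemma exists_rep (hn : n ≤ 2) {S : Set (Fin n → ℝ)} {p : Fin n → ℝ} (hp : p ∈ convexHull ℝ S)
    (R : ℝ) (hR : 0 ≤ R) : ∃ (τ : Fin 3 → Fin n → ℝ) (a : Fin 3 → ℝ), (∀ i, τ i ∈ S) ∧
      (∀ i, 0 ≤ a i) ∧ ∑ i, a i = R ∧ ∑ i, a i • τ i = R • p := by
  obtain ⟨ι, hι, z, w, hz, haff, hw0, hw1, hzp⟩ := eq_pos_convex_span_of_mem_convexHull hp
  have hcard : Fintype.card ι ≤ 3 := by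
    have h1 := haff.card_le_finrank_succ
    have h2 : Module.finrank ℝ (vectorSpan ℝ (Set.range z)) ≤ n := by
      have := Submodule.finrank_le (vectorSpan ℝ (Set.range z))
      rwa [Module.finrank_fin_fun] at this
    omega
  have hne : Nonempty ι := by
    by_contra hcon
    rw [not_nonempty_iff] at hcon
    rw [Finset.univ_eq_empty, Finset.sum_empty] at hw1
    exact zero_ne_one hw1
  obtain ⟨i0⟩ := hne
  obtain ⟨e⟩ : Nonempty (ι ↪ Fin 3) := by
    apply Function.Embedding.nonempty_of_card_le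
    rwa [Fintype.card_fin]
  have hzS : ∀ i, z i ∈ S := fun i => hz ⟨i, rfl⟩
  refine ⟨Function.extend e z (fun _ => z i0), Function.extend e (fun i => R * w i) 0, ?_, ?_, ?_,
    ?_⟩
  · intro j
    by_cases hj : ∃ i, e i = j
    · obtain ⟨i, rfl⟩ := hj
      rw [e.injective.extend_apply]
      exact hzS i
    · rw [Function.extend_apply' _ _ _ hj]
      exact hzS i0
  · intro j
    by_cases hj : ∃ i, e i = j
    · obtain ⟨i, rfl⟩ := hj
      rw [e.injective.extend_apply]
      exact mul_nonneg hR (hw0 i).le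
    · rw [Function.extend_apply' _ _ _ hj]
      simp
  · rw [← Fintype.sum_of_injective e e.injective (fun i => R * w i) _ (by
      intro j hj
      rw [Function.extend_apply' _ _ _ (by simpa using hj)]
      rfl) (by
      intro i
      rw [e.injective.extend_apply]), ← Finset.mul_sum, hw1, mul_one]
  · rw [← Fintype.sum_of_injective e e.injective (fun i => (R * w i) • z i) _ (by
      intro j hj
      rw [Function.extend_apply' (fun i => R * w i) _ _ (by simpa using hj)]
      simp) (by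
      intro i
      rw [e.injective.extend_apply, e.injective.extend_apply]), ← hzp, Finset.smul_sum]
    apply Finset.sum_congr rfl
    intro i _
    rw [smul_smul]

lemma finite_lat {P : Set (Fin n → ℝ)} (hP : IsLatticePolytope P) :
    {x | x ∈ P ∧ IsLat x}.Finite := by
  obtain ⟨S, hS, -, rfl⟩ := hP
  have hb : Bornology.IsBounded (convexHull ℝ S) := isBounded_convexHull.mpr hS.isBounded
  obtain ⟨R, hR⟩ := hb.subset_closedBall 0
  obtain ⟨M, hM⟩ := exists_nat_ge R
  apply Set.Finite.subset ((Finset.Icc (fun _ : Fin n => -(M : ℤ))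
    (fun _ : Fin n => (M : ℤ))).finite_toSet.image fun v : Fin n → ℤ => fun i => (v i : ℝ))
  rintro x ⟨hx, hl⟩
  choose v hv using hl
  refine ⟨v, ?_, funext fun i => (hv i).symm⟩
  have h1 : ∀ i, |x i| ≤ M := by
    intro i
    have h2 := hR hx
    rw [mem_closedBall_zero_iff] at h2
    have h3 := norm_le_pi_norm x i
    rw [Real.norm_eq_abs] at h3
    linarith
  rw [Finset.mem_coe, Finset.mem_Icc]
  constructor
  · intro i
    have := (abs_le.mp (h1 i)).1
    rw [hv i] at this
    exact_mod_cast this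
  · intro i
    have := (abs_le.mp (h1 i)).2
    rw [hv i] at this
    exact_mod_cast this

/-- a representation by three lattice points with the least energy -/
lemma exists_min_rep {T : Set (Fin n → ℝ)} (hT : T.Finite) (R : ℝ) (u : Fin n → ℝ)
    (hex : ∃ (τ : Fin 3 → Fin n → ℝ) (a : Fin 3 → ℝ), (∀ i, τ i ∈ T) ∧
      (∀ i, 0 ≤ a i) ∧ ∑ i, a i = R ∧ ∑ i, a i • τ i = u) :
    ∃ (τ : Fin 3 → Fin n → ℝ) (a : Fin 3 → ℝ), ((∀ i, τ i ∈ T) ∧
      (∀ i, 0 ≤ a i) ∧ ∑ i, a i = R ∧ ∑ i, a i • τ i = u) ∧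
      ∀ (τ' : Fin 3 → Fin n → ℝ) (a' : Fin 3 → ℝ), ((∀ i, τ' i ∈ T) ∧
      (∀ i, 0 ≤ a' i) ∧ ∑ i, a' i = R ∧ ∑ i, a' i • τ' i = u) →
        ∑ i, a i * en (τ i) ≤ ∑ i, a' i * en (τ' i) := by
  let K : (Fin 3 → Fin n → ℝ) → Set (Fin 3 → ℝ) := fun τ =>
    {a | (∀ i, 0 ≤ a i) ∧ ∑ i, a i = R ∧ ∑ i, a i • τ i = u}
  have hK : ∀ τ, (K τ).Nonempty → ∃ a ∈ K τ, ∀ b ∈ K τ,
      ∑ i, a i * en (τ i) ≤ ∑ i, b i * en (τ i) := by
    intro τ hne
    have hcomp : IsCompact (K τ) := by
      apply (isCompact_Icc (a := (fun _ => 0 : Fin 3 → ℝ)) (b := fun _ => R)).of_isClosed_subset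
      · apply IsClosed.and
        · exact (isClosed_Ici (a := (0 : Fin 3 → ℝ)))
        · apply IsClosed.and
          · exact isClosed_eq (by fun_prop) continuous_const
          · exact isClosed_eq (by fun_prop) continuous_const
      · rintro a ⟨h0, h1, -⟩
        refine ⟨h0, fun i => ?_⟩
        rw [← h1]
        exact Finset.single_le_sum (fun i _ => h0 i) (Finset.mem_univ i)
    obtain ⟨a, ha, hmin⟩ := hcomp.exists_isMinOn hne
      (f := fun a : Fin 3 → ℝ => ∑ i, a i * en (τ i)) (by fun_prop)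
    exact ⟨a, ha, fun b hb => hmin hb⟩
  choose! m hm1 hm2 using hK
  have hfin : {τ : Fin 3 → Fin n → ℝ | (∀ i, τ i ∈ T) ∧ (K τ).Nonempty}.Finite :=
    (Set.Finite.pi' fun _ => hT).subset fun τ hτ => hτ.1
  obtain ⟨τ, ⟨hτT, hτK⟩, hmin⟩ := Set.exists_min_image _
    (fun τ => ∑ i, m τ i * en (τ i)) hfin (by
      obtain ⟨τ, a, h1, h2⟩ := hex
      exact ⟨τ, h1, a, h2⟩)
  refine ⟨τ, m τ, ⟨hτT, hm1 τ hτK⟩, ?_⟩
  rintro τ' a' ⟨h1, h2⟩
  have hne : (K τ').Nonempty := ⟨a', h2⟩
  exact (hmin τ' ⟨h1, hne⟩).trans (hm2 τ' hne a' h2)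

theorem closed_low (hn : n ≤ 2) {P : Set (Fin n → ℝ)} (hP : IsLatticePolytope P) :
    IntegrallyClosed P := by
  have hconv := convex_of_lattice hP
  have hfin := finite_lat hP
  intro r hr
  apply Subset.antisymm (sum_subset hconv r)
  rintro u ⟨⟨p, hp, hpu⟩, hul⟩
  have hr1 : (1 : ℝ) ≤ r := by exact_mod_cast hr
  -- a representation of least energy
  obtain ⟨τ, a, ⟨hτ, ha0, hasum, hau⟩, hmin⟩ := exists_min_rep hfin ((r : ℝ) + 1) u (by
    obtain ⟨S, -, hSl, rfl⟩ := id hP
    obtain ⟨τ, a, h1, h2, h3, h4⟩ := exists_rep hn hp ((r : ℝ) + 1) (by positivity)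
    refine ⟨τ, a, fun i => ⟨subset_convexHull ℝ S (h1 i), hSl _ (h1 i)⟩, h2, h3, ?_⟩
    rw [h4, ← hpu]
    push_cast
    rfl)
  have hτP : ∀ i, τ i ∈ P := fun i => (hτ i).1
  have hτl : ∀ i, IsLat (τ i) := fun i => (hτ i).2
  set k : Fin 3 → ℕ := fun i => ⌊a i⌋₊ with hk
  set f : Fin 3 → ℝ := fun i => a i - k i with hf
  have hf0 : ∀ i, 0 ≤ f i := fun i => sub_nonneg.mpr (Nat.floor_le (ha0 i))
  have hf1 : ∀ i, f i < 1 := fun i => by
    have := Nat.lt_floor_add_one (a i)
    simp only [hf, hk]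
    linarith
  have hafk : ∀ i, a i = k i + f i := fun i => by simp [hf]
  have hsum : ∑ i, f i = (((r : ℤ) + 1 - ∑ i, (k i : ℤ) : ℤ) : ℝ) := by
    simp only [hf, Finset.sum_sub_distrib, hasum]
    push_cast
    ring
  have hku : ∑ i, (k i : ℝ) • τ i + ∑ i, f i • τ i = u := by
    rw [← hau, ← Finset.sum_add_distrib]
    apply Finset.sum_congr rfl
    intro i _
    rw [← add_smul, ← hafk]
  have hwl : IsLat (∑ i, f i • τ i) := by
    have : ∑ i, f i • τ i = u - ∑ i, (k i : ℝ) • τ i := by rw [← hku]; abel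
    rw [this]
    exact isLat_sub hul (isLat_sum _ _ fun i _ => isLat_nsmul (hτl i) _)
  set N : ℤ := (r : ℤ) + 1 - ∑ i, (k i : ℤ) with hN
  have hN0 : 0 ≤ N := by
    have : (0 : ℝ) ≤ N := by rw [← hsum]; exact Finset.sum_nonneg fun i _ => hf0 i
    exact_mod_cast this
  have hN3 : N < 3 := by
    have : (N : ℝ) < 3 := by
      rw [← hsum, Fin.sum_univ_three]
      linarith [hf1 0, hf1 1, hf1 2]
    exact_mod_cast this
  have hksum : ∑ i, (k i : ℝ) = (r : ℝ) + 1 - N := by
    rw [hN]; push_cast; ring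
  have hcases : N = 0 ∨ N = 1 ∨ N = 2 := by omega
  rcases hcases with h | h | h
  · -- all coefficients are integers
    rw [h, Int.cast_zero] at hsum
    rw [h, Int.cast_zero, sub_zero] at hksum
    have hfz : ∀ i, f i = 0 := fun i =>
      (Finset.sum_eq_zero_iff_of_nonneg (fun i _ => hf0 i)).mp hsum i (Finset.mem_univ i)
    have hex : ∃ j, 1 ≤ k j := by
      by_contra hcon
      push Not at hcon
      have : ∑ i, (k i : ℝ) = 0 := Finset.sum_eq_zero fun i _ => by
        have := hcon i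
        have h0 : k i = 0 := by omega
        rw [h0]; simp
      rw [this] at hksum
      linarith
    obtain ⟨j, hj⟩ := hex
    have hsplit : ∀ i, (k i : ℝ) = ((k i - if i = j then 1 else 0 : ℕ) : ℝ) +
        (if i = j then 1 else 0) := by
      intro i
      split_ifs with hij
      · subst hij
        rw [Nat.cast_sub hj]; simp
      · simp
    refine ⟨τ j, ⟨hτP j, hτl j⟩, _, combo_mem hconv hr τ hτ
      (fun i => k i - if i = j then 1 else 0) ?_, ?_⟩
    · have h1 : ∑ i, (k i : ℝ) = ∑ i, ((k i - if i = j then 1 else 0 : ℕ) : ℝ) + 1 := by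
        rw [Finset.sum_congr rfl fun i _ => hsplit i, Finset.sum_add_distrib]
        simp
      rw [hksum] at h1
      linarith
    · show τ j + _ = u
      rw [← hku]
      have h1 : ∑ i, f i • τ i = 0 := Finset.sum_eq_zero fun i _ => by rw [hfz i, zero_smul]
      rw [h1, add_zero]
      have h2 : ∑ i, (k i : ℝ) • τ i = ∑ i, ((k i - if i = j then 1 else 0 : ℕ) : ℝ) • τ i +
          τ j := by
        have h3 : ∑ i, (if i = j then (1 : ℝ) else 0) • τ i = τ j := by
          simp [ite_smul]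
        rw [← h3, ← Finset.sum_add_distrib]
        apply Finset.sum_congr rfl
        intro i _
        rw [← add_smul, ← hsplit i]
      rw [h2, add_comm]
  · -- the fractional part is a lattice point of `P`
    rw [h, Int.cast_one] at hsum
    rw [h, Int.cast_one] at hksum
    refine ⟨∑ i, f i • τ i, ⟨hconv.sum_mem (fun i _ => hf0 i) hsum fun i _ => hτP i, hwl⟩, _,
      combo_mem hconv hr τ hτ k (by rw [hksum]; ring), ?_⟩
    show ∑ i, f i • τ i + ∑ i, (k i : ℝ) • τ i = u
    rw [add_comm, hku]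
  · -- impossible by minimality, unless the three points coincide
    rw [h] at hsum
    have hs3 : f 0 + f 1 + f 2 = 2 := by
      rw [Fin.sum_univ_three] at hsum
      rw [hsum]; norm_num
    have hfpos : ∀ i, 0 < f i := by
      intro i
      fin_cases i
      · show 0 < f 0; linarith [hf1 1, hf1 2]
      · show 0 < f 1; linarith [hf1 0, hf1 2]
      · show 0 < f 2; linarith [hf1 0, hf1 1]
    set q : Fin 3 → ℝ := fun i => 1 - f i with hq
    have hq0 : ∀ i, 0 < q i := fun i => sub_pos.mpr (hf1 i)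
    have hqsum : ∑ i, q i = 1 := by
      rw [Fin.sum_univ_three]
      simp only [hq]
      linarith
    have hwq : ∑ i, q i • τ i = ∑ i, τ i - ∑ i, f i • τ i := by
      rw [← Finset.sum_sub_distrib]
      apply Finset.sum_congr rfl
      intro i _
      rw [hq, sub_smul, one_smul]
    have hwT : (∑ i, q i • τ i) ∈ P ∧ IsLat (∑ i, q i • τ i) := by
      refine ⟨hconv.sum_mem (fun i _ => (hq0 i).le) hqsum fun i _ => hτP i, ?_⟩
      rw [hwq]
      exact isLat_sub (isLat_sum _ _ fun i _ => hτl i) hwl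
    by_cases heq : τ 0 = τ 1 ∧ τ 0 = τ 2
    · have h1 : u = (r : ℝ) • τ 0 + τ 0 := by
        rw [← hau, Fin.sum_univ_three, ← heq.1, ← heq.2, ← add_smul, ← add_smul]
        rw [Fin.sum_univ_three] at hasum
        rw [hasum, add_smul, one_smul]
      refine ⟨τ 0, ⟨hτP 0, hτl 0⟩, (r : ℝ) • τ 0, ⟨⟨τ 0, hτP 0, rfl⟩, isLat_nsmul (hτl 0) r⟩, ?_⟩
      show τ 0 + (r : ℝ) • τ 0 = u
      rw [h1, add_comm]
    · exfalso
      have hstrict : en (∑ i, q i • τ i) < ∑ i, q i * en (τ i) := by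
        have h1 := en_convex q hqsum τ
        have h01 : 0 < q 0 * q 1 := mul_pos (hq0 0) (hq0 1)
        have h02 : 0 < q 0 * q 2 := mul_pos (hq0 0) (hq0 2)
        have h12 : 0 < q 1 * q 2 := mul_pos (hq0 1) (hq0 2)
        have h3 : 0 ≤ q 0 * q 1 * en (τ 0 - τ 1) := mul_nonneg h01.le (en_nonneg _)
        have h4 : 0 ≤ q 0 * q 2 * en (τ 0 - τ 2) := mul_nonneg h02.le (en_nonneg _)
        have h5 : 0 ≤ q 1 * q 2 * en (τ 1 - τ 2) := mul_nonneg h12.le (en_nonneg _)
        by_cases h6 : τ 0 = τ 1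
        · have h7 : τ 0 ≠ τ 2 := fun h => heq ⟨h6, h⟩
          have h8 : 0 < q 0 * q 2 * en (τ 0 - τ 2) := mul_pos h02 (en_pos (sub_ne_zero.mpr h7))
          linarith
        · have h8 : 0 < q 0 * q 1 * en (τ 0 - τ 1) := mul_pos h01 (en_pos (sub_ne_zero.mpr h6))
          linarith
      obtain ⟨j, hj⟩ := Finite.exists_min fun i => a i / q i
      set ε := a j / q j with hε
      have haj : 0 < a j := lt_of_lt_of_le (hfpos j) (by rw [hafk j]; linarith [(Nat.cast_nonneg (k j) : (0 : ℝ) ≤ k j)])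
      have hε0 : 0 < ε := div_pos haj (hq0 j)
      set b : Fin 3 → ℝ := fun i => a i - ε * q i with hb
      have hbj : b j = 0 := by
        simp only [hb, hε]
        rw [div_mul_cancel₀ _ (hq0 j).ne', sub_self]
      have hb0 : ∀ i, 0 ≤ b i := by
        intro i
        have := hj i
        rw [le_div_iff₀ (hq0 i)] at this
        simp only [hb]
        linarith
      have hnew := hmin (Function.update τ j (∑ i, q i • τ i)) (Function.update b j ε) ⟨?_, ?_, ?_, ?_⟩
      · have h1 := upd j b hbj en τ (∑ i, q i • τ i) ε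
        simp only [smul_eq_mul] at h1
        rw [h1] at hnew
        have h2 : ∑ i, b i * en (τ i) = ∑ i, a i * en (τ i) - ε * ∑ i, q i * en (τ i) := by
          rw [Finset.mul_sum, ← Finset.sum_sub_distrib]
          apply Finset.sum_congr rfl
          intro i _
          simp only [hb]
          ring
        rw [h2] at hnew
        nlinarith
      · intro i
        by_cases hij : i = j
        · subst hij
          rw [Function.update_self]
          exact hwT
        · rw [Function.update_of_ne hij]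
          exact hτ i
      · intro i
        by_cases hij : i = j
        · subst hij
          rw [Function.update_self]
          exact hε0.le
        · rw [Function.update_of_ne hij]
          exact hb0 i
      · have h1 := upd (n := n) (M := ℝ) j b hbj (fun _ => 1) τ (∑ i, q i • τ i) ε
        simp only [smul_eq_mul, mul_one] at h1
        rw [h1]
        have h2 : ∑ i, b i = ∑ i, a i - ε * ∑ i, q i := by
          rw [Finset.mul_sum, ← Finset.sum_sub_distrib]
        rw [h2, hasum, hqsum]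
        ring
      · have h1 := upd j b hbj (fun v => v) τ (∑ i, q i • τ i) ε
        rw [h1]
        have h2 : ∑ i, b i • τ i = ∑ i, a i • τ i - ε • ∑ i, q i • τ i := by
          rw [Finset.smul_sum, ← Finset.sum_sub_distrib]
          apply Finset.sum_congr rfl
          intro i _
          simp only [hb]
          rw [sub_smul, mul_smul]
        rw [h2, hau, sub_add_cancel]

end Pool.Agent.Y2.Gp
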