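import Pool.Agent.Y2.Gp.Cone

/-!
The invariants `L` and `Γ` and integral closedness of the prism over a lattice polytope.
-/

set_option autoImplicit false

open Set Pointwise

namespace Pool.Agent.Y2.Gp

open Pool.Agent.H178R3.Gam

variable {n : ℕ}

lemma vc_zero (P : Set (Fin n → ℝ)) (x : Fin n → ℝ) : (0 : Fin n → ℝ) ∈ vertexCone P x := by
  rw [vertexCone, SetLike.mem_coe]
  exact zero_mem _

lemma vc_add (P : Set (Fin n → ℝ)) (x : Fin n → ℝ) : ∀ u ∈ vertexCone P x,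
    ∀ v ∈ vertexCone P x, u + v ∈ vertexCone P x := by
  intro u hu v hv
  rw [vertexCone, SetLike.mem_coe] at *
  exact add_mem hu hv

lemma vc_smul (P : Set (Fin n → ℝ)) (x : Fin n → ℝ) : ∀ c : ℝ, 0 ≤ c →
    ∀ u ∈ vertexCone P x, c • u ∈ vertexCone P x := by
  intro c hc u hu
  rw [vertexCone, SetLike.mem_coe] at *
  exact Submodule.smul_mem _ (⟨c, hc⟩ : {c : ℝ // 0 ≤ c}) hu

lemma vc_gen {P : Set (Fin n → ℝ)} {x y : Fin n → ℝ} (h : IsEdge P x y) :
    y - x ∈ vertexCone P x := by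
  rw [vertexCone, SetLike.mem_coe, PointedCone.hull]
  exact Submodule.subset_span ⟨y, h, rfl⟩

lemma vc_induction {P : Set (Fin n → ℝ)} {x : Fin n → ℝ} {p : (Fin n → ℝ) → Prop}
    (hgen : ∀ y, IsEdge P x y → p (y - x)) (hzero : p 0)
    (hadd : ∀ u v, p u → p v → p (u + v)) (hsmul : ∀ (c : ℝ) (u), 0 ≤ c → p u → p (c • u))
    {u : Fin n → ℝ} (hu : u ∈ vertexCone P x) : p u := by
  rw [vertexCone, SetLike.mem_coe, PointedCone.hull] at hu
  induction hu using Submodule.span_induction with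
  | mem v hv =>
    obtain ⟨y, hy, rfl⟩ := hv
    exact hgen y hy
  | zero => exact hzero
  | add v w _ _ hv hw => exact hadd v w hv hw
  | smul c v _ hv => exact hsmul c v c.2 hv

lemma ext_combo {P : Set (Fin n → ℝ)} {x y y' : Fin n → ℝ} (hx : x ∈ P.extremePoints ℝ)
    (hy : y ∈ P) (hy' : y' ∈ P) {s t : ℝ} (hs : 0 < s) (ht : 0 < t)
    (h : s • (y - x) + t • (y' - x) = 0) : y = x := by
  apply hx.2 hy hy'
  have hst : 0 < s + t := by linarith
  refine ⟨s / (s + t), t / (s + t), div_pos hs hst, div_pos ht hst, ?_, ?_⟩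
  · field_simp
  · have h1 : s • y + t • y' = (s + t) • x := by
      have : s • y + t • y' - (s + t) • x = 0 := by rw [← h, smul_sub, smul_sub, add_smul]; abel
      exact sub_eq_zero.mp this
    have h2 : (s / (s + t)) • y + (t / (s + t)) • y' = (1 / (s + t)) • (s • y + t • y') := by
      rw [smul_add, smul_smul, smul_smul]
      congr 2 <;> ring
    rw [h2, h1, smul_smul, one_div, inv_mul_cancel₀ hst.ne', one_smul]

lemma vc_form {P : Set (Fin n → ℝ)} (hP : Convex ℝ P) {x : Fin n → ℝ}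
    (hx : x ∈ P.extremePoints ℝ) {u : Fin n → ℝ} (hu : u ∈ vertexCone P x) :
    u = 0 ∨ ∃ s : ℝ, 0 < s ∧ ∃ y ∈ P, y ≠ x ∧ u = s • (y - x) := by
  refine vc_induction (p := fun u => u = 0 ∨ ∃ s : ℝ, 0 < s ∧ ∃ y ∈ P, y ≠ x ∧ u = s • (y - x))
    ?_ ?_ ?_ ?_ hu
  · intro y hy
    exact Or.inr ⟨1, one_pos, y, hy.2.2.1.1, hy.1.symm, by rw [one_smul]⟩
  · exact Or.inl rfl
  · rintro u v (rfl | ⟨s, hs, y, hy, hyx, rfl⟩) (rfl | ⟨t, ht, z, hz, hzx, rfl⟩)
    · left; simp
    · right; exact ⟨t, ht, z, hz, hzx, by simp⟩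
    · right; exact ⟨s, hs, y, hy, hyx, by simp⟩
    · right
      have hst : 0 < s + t := by linarith
      refine ⟨s + t, hst, (s / (s + t)) • y + (t / (s + t)) • z, ?_, ?_, ?_⟩
      · exact hP hy hz (div_pos hs hst).le (div_pos ht hst).le (by field_simp)
      · intro h
        apply hyx
        apply ext_combo hx hy hz hs ht
        have h2 : s • y + t • z = (s + t) • x := by
          rw [← h, smul_add, smul_smul, smul_smul, mul_div_cancel₀ _ hst.ne',
            mul_div_cancel₀ _ hst.ne']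
        rw [smul_sub, smul_sub, sub_add_sub_comm, h2, add_smul, sub_self]
      · rw [smul_sub (s + t), smul_add, smul_smul, smul_smul, mul_div_cancel₀ _ hst.ne',
          mul_div_cancel₀ _ hst.ne', smul_sub, smul_sub, add_smul]
        abel
  · rintro c u hc (rfl | ⟨s, hs, y, hy, hyx, rfl⟩)
    · left; simp
    · rcases hc.lt_or_eq with h | h
      · right; exact ⟨c * s, mul_pos h hs, y, hy, hyx, by rw [smul_smul]⟩
      · left; rw [← h, zero_smul]

theorem vc_good {P : Set (Fin n → ℝ)} (hP : Convex ℝ P) {x : Fin n → ℝ}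
    (hx : x ∈ P.extremePoints ℝ) : GoodCone (vertexCone P x) := by
  refine ⟨vc_zero P x, vc_add P x, vc_smul P x, ?_⟩
  intro u hu hu'
  rcases vc_form hP hx hu with h | ⟨s, hs, y, hy, hyx, h⟩
  · exact h
  rcases vc_form hP hx hu' with h' | ⟨t, ht, z, hz, hzx, h'⟩
  · exact neg_eq_zero.mp h'
  exfalso
  exact hyx (ext_combo hx hy hz hs ht (by rw [← h, ← h', add_neg_cancel]))

theorem vertexCone_prism {P : Set (Fin n → ℝ)} {x : Fin (n + 1) → ℝ}
    (hx : x ∈ (prism P).extremePoints ℝ) {σ : ℝ} (hσ : σ = 1 - 2 * x 0) :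
    vertexCone (prism P) x = coneP σ (vertexCone P (tl x)) := by
  obtain ⟨hx0, hxP⟩ := mem_ext_prism.mp hx
  have hσ1 : σ * σ = 1 := by rcases hx0 with h | h <;> rw [hσ, h] <;> norm_num
  have hvert : IsEdge (prism P) x (cc (1 - x 0) (tl x)) :=
    edge_prism.mpr (Or.inr ⟨hx0, rfl, hxP, rfl⟩)
  apply Subset.antisymm
  · intro u hu
    refine vc_induction (p := fun u => u ∈ coneP σ (vertexCone P (tl x))) ?_ ?_ ?_ ?_ hu
    · intro y hy
      rcases edge_prism.mp hy with ⟨-, h0, h1⟩ | ⟨-, h0, -, h1⟩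
      · exact ⟨by simp [h0], by rw [tl_sub]; exact vc_gen h1⟩
      · refine ⟨?_, by rw [tl_sub, h1, sub_self]; exact vc_zero _ _⟩
        rw [Pi.sub_apply, h0, hσ]
        rcases hx0 with h | h <;> rw [h] <;> norm_num
    · exact ⟨by simp, vc_zero _ _⟩
    · rintro u v ⟨hu0, hu1⟩ ⟨hv0, hv1⟩
      exact ⟨by rw [Pi.add_apply, mul_add]; linarith, vc_add _ _ _ hu1 _ hv1⟩
    · rintro c u hc ⟨hu0, hu1⟩
      refine ⟨?_, vc_smul _ _ c hc _ hu1⟩
      rw [Pi.smul_apply, smul_eq_mul, mul_left_comm]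
      exact mul_nonneg hc hu0
  · rintro u ⟨hu0, hu1⟩
    have h1 : cc 0 (tl u) ∈ vertexCone (prism P) x := by
      refine vc_induction (p := fun w => cc 0 w ∈ vertexCone (prism P) x) ?_ ?_ ?_ ?_ hu1
      · intro y hy
        have h2 : IsEdge (prism P) x (cc (x 0) y) := edge_prism.mpr (Or.inl ⟨hx0, rfl, hy⟩)
        have h3 := vc_gen h2
        have h4 : cc (x 0) y - x = cc 0 (y - tl x) := ext' (by simp) rfl
        rwa [h4] at h3
      · have : cc 0 (0 : Fin n → ℝ) = 0 := ext' rfl rfl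
        rw [this]; exact vc_zero _ _
      · intro a b ha hb
        have : cc 0 (a + b) = cc 0 a + cc 0 b := by rw [cc_add, add_zero]
        rw [this]; exact vc_add _ _ _ ha _ hb
      · intro c a hc ha
        have : cc 0 (c • a) = c • cc 0 a := by rw [cc_smul, mul_zero]
        rw [this]; exact vc_smul _ _ c hc _ ha
    have h2 : cc σ (0 : Fin n → ℝ) ∈ vertexCone (prism P) x := by
      have h3 := vc_gen hvert
      have h4 : cc (1 - x 0) (tl x) - x = cc σ 0 := by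
        apply ext'
        · rw [Pi.sub_apply, cc_zero, cc_zero, hσ]; ring
        · simp
      rwa [h4] at h3
    have h3 : u = cc 0 (tl u) + (σ * u 0) • cc σ 0 := by
      rw [cc_smul, cc_add, smul_zero, add_zero, zero_add]
      apply ext'
      · rw [cc_zero, mul_right_comm, hσ1, one_mul]
      · rfl
    rw [h3]
    exact vc_add _ _ _ h1 _ (vc_smul _ _ _ hu0 _ h2)

lemma gamma_vertex_iff {P : Set (Fin n → ℝ)} (hP : Convex ℝ P) {x : Fin (n + 1) → ℝ}
    (hx : x ∈ (prism P).extremePoints ℝ) (g : ℝ) :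
    IsGammaCone (vertexCone (prism P) x) g ↔ IsGammaCone (vertexCone P (tl x)) g := by
  obtain ⟨hx0, hxP⟩ := mem_ext_prism.mp hx
  rw [vertexCone_prism hx rfl]
  apply gamma_coneP (vc_good hP hxP)
  rcases hx0 with h | h <;> rw [h] <;> norm_num

lemma ext_cc {P : Set (Fin n → ℝ)} {t : ℝ} {x : Fin n → ℝ} (ht : t = 0 ∨ t = 1)
    (hx : x ∈ P.extremePoints ℝ) : cc t x ∈ (prism P).extremePoints ℝ :=
  mem_ext_prism.mpr ⟨ht, hx⟩

theorem isGamma_prism {P : Set (Fin n → ℝ)} (hP : Convex ℝ P) {g : ℝ} (h : IsGamma P g) :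
    IsGamma (prism P) g := by
  obtain ⟨h1, ⟨x, hx, h2⟩, h3⟩ := h
  refine ⟨?_, ⟨cc 0 x, ext_cc (Or.inl rfl) hx, ?_⟩, ?_⟩
  · intro y hy
    obtain ⟨d, hd⟩ := h1 (tl y) (mem_ext_prism.mp hy).2
    exact ⟨d, (gamma_vertex_iff hP hy d).mpr hd⟩
  · exact (gamma_vertex_iff hP (ext_cc (Or.inl rfl) hx) g).mpr h2
  · rintro d ⟨y, hy, hd⟩
    exact h3 ⟨tl y, (mem_ext_prism.mp hy).2, (gamma_vertex_iff hP hy d).mp hd⟩

lemma ext_lat {P : Set (Fin n → ℝ)} (hP : IsLatticePolytope P) {x : Fin n → ℝ}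
    (hx : x ∈ P.extremePoints ℝ) : IsLat x := by
  obtain ⟨S, -, hS, rfl⟩ := hP
  exact hS x (extremePoints_convexHull_subset hx)

lemma latLength_horizontal {x y : Fin (n + 1) → ℝ} (hx : x 0 = 0 ∨ x 0 = 1) (h0 : x 0 = y 0) :
    latLength x y = latLength (tl x) (tl y) := by
  have hinj : Function.Injective (cc (n := n) (x 0)) := fun a b hab => (cc_inj hab).2
  have h1 : {z | z ∈ segment ℝ x y ∧ IsLat z} =
      cc (x 0) '' {z | z ∈ segment ℝ (tl x) (tl y) ∧ IsLat z} := by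
    ext z
    constructor
    · rintro ⟨hz, hl⟩
      obtain ⟨a, b, ha, hb, hab, h2, h3⟩ := mem_seg.mp hz
      refine ⟨tl z, ⟨⟨a, b, ha, hb, hab, h3⟩, lat_tl hl⟩, ext' ?_ rfl⟩
      rw [cc_zero, ← h2, ← h0, ← add_mul, hab, one_mul]
    · rintro ⟨z, ⟨⟨a, b, ha, hb, hab, h3⟩, hl⟩, rfl⟩
      refine ⟨mem_seg.mpr ⟨a, b, ha, hb, hab, ?_, h3⟩, isLat_cc ?_ hl⟩
      · rw [← h0, ← add_mul, hab, one_mul]; rfl
      · rcases hx with h | h
        · exact ⟨0, by rw [h]; simp⟩
        · exact ⟨1, by rw [h]; simp⟩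
  rw [latLength, latLength, h1, ncard_image_of_injective _ hinj]

lemma latLength_vertical {x y : Fin (n + 1) → ℝ} (hx : x 0 = 0 ∨ x 0 = 1) (hy : y 0 = 1 - x 0)
    (hxy : tl y = tl x) (hl : IsLat (tl x)) : latLength x y = 1 := by
  have hx0 : ∃ z : ℤ, x 0 = z := by
    rcases hx with h | h
    · exact ⟨0, by rw [h]; simp⟩
    · exact ⟨1, by rw [h]; simp⟩
  have hy0 : ∃ z : ℤ, y 0 = z := by
    obtain ⟨z, hz⟩ := hx0
    exact ⟨1 - z, by rw [hy, hz]; push_cast; ring⟩
  have hne : x ≠ y := by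
    rintro rfl
    rcases hx with h | h <;> rw [h] at hy <;> norm_num at hy
  have h1 : {z | z ∈ segment ℝ x y ∧ IsLat z} = {x, y} := by
    ext z
    constructor
    · rintro ⟨hz, hlz⟩
      obtain ⟨a, b, ha, hb, hab, h2, h3⟩ := mem_seg.mp hz
      have h4 : tl z = tl x := by rw [← h3, hxy, ← add_smul, hab, one_smul]
      obtain ⟨k, hk⟩ := hlz 0
      have h5 : 0 ≤ z 0 ∧ z 0 ≤ 1 := by
        rw [← h2, hy]
        rcases hx with h | h <;> rw [h] <;> constructor <;> linarith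
      have h6 : (0 : ℝ) ≤ k ∧ (k : ℝ) ≤ 1 := by rw [← hk]; exact h5
      have h7 : 0 ≤ k ∧ k ≤ 1 := ⟨by exact_mod_cast h6.1, by exact_mod_cast h6.2⟩
      have h8 : k = 0 ∨ k = 1 := by omega
      have h9 : z 0 = 0 ∨ z 0 = 1 := by
        rcases h8 with h | h
        · left; rw [hk, h]; simp
        · right; rw [hk, h]; simp
      rcases hx with h | h
      · rcases h9 with h' | h'
        · left; exact ext' (by rw [h', h]) h4
        · right; exact ext' (by rw [h', hy, h]; norm_num) (h4.trans hxy.symm)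
      · rcases h9 with h' | h'
        · right; exact ext' (by rw [h', hy, h]; norm_num) (h4.trans hxy.symm)
        · left; exact ext' (by rw [h', h]) h4
    · rintro (rfl | rfl)
      · exact ⟨left_mem_segment _ _ _, by rw [← cc_tl z]; exact isLat_cc hx0 hl⟩
      · exact ⟨right_mem_segment _ _ _, by
          rw [← cc_tl z]; exact isLat_cc hy0 (by rw [hxy]; exact hl)⟩
  rw [latLength, h1, ncard_pair hne]

theorem minLength_prism {P : Set (Fin n → ℝ)} (hP : IsLatticePolytope P)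
    (h : IsMinLength P 1) : IsMinLength (prism P) 1 := by
  obtain ⟨⟨x, y, hxy, -⟩, hle⟩ := h
  constructor
  · have hx : x ∈ P.extremePoints ℝ := hxy.2.1
    have hl : IsLat x := ext_lat hP hx
    refine ⟨cc 0 x, cc 1 x, (edge_prism (x := cc 0 x) (y := cc 1 x)).mpr
      (Or.inr ⟨Or.inl rfl, by simp, hx, rfl⟩), ?_⟩
    exact (latLength_vertical (x := cc 0 x) (y := cc 1 x) (Or.inl rfl) (by simp) rfl hl).symm
  · rintro l ⟨a, b, hab, rfl⟩
    rcases edge_prism.mp hab with ⟨h1, h2, h3⟩ | ⟨h1, h2, h3, h4⟩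
    · rw [latLength_horizontal h1 h2]
      exact hle ⟨tl a, tl b, h3, rfl⟩
    · rw [latLength_vertical h1 h2 h4 (ext_lat hP h3)]

lemma convex_of_lattice {P : Set (Fin n → ℝ)} (hP : IsLatticePolytope P) : Convex ℝ P := by
  obtain ⟨S, -, -, rfl⟩ := hP
  exact convex_convexHull ℝ S

theorem lattice_prism {P : Set (Fin n → ℝ)} (hP : IsLatticePolytope P) :
    IsLatticePolytope (prism P) := by
  obtain ⟨S, hS, hl, rfl⟩ := hP
  refine ⟨cc 0 '' S ∪ cc 1 '' S, (hS.image _).union (hS.image _), ?_, ?_⟩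
  · rintro x (⟨y, hy, rfl⟩ | ⟨y, hy, rfl⟩)
    · exact isLat_cc ⟨0, by simp⟩ (hl y hy)
    · exact isLat_cc ⟨1, by simp⟩ (hl y hy)
  · apply Subset.antisymm
    · rintro v ⟨h0, h1, hv⟩
      have key : ∀ t : ℝ, cc t '' S ⊆ convexHull ℝ (cc 0 '' S ∪ cc 1 '' S) →
          cc t (tl v) ∈ convexHull ℝ (cc 0 '' S ∪ cc 1 '' S) := by
        intro t ht
        have h2 : convexHull ℝ S ⊆ {p | cc t p ∈ convexHull ℝ (cc 0 '' S ∪ cc 1 '' S)} := by
          apply convexHull_min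
          · intro s hs
            exact ht ⟨s, hs, rfl⟩
          · intro p hp q hq a b ha hb hab
            have h3 : cc t (a • p + b • q) = a • cc t p + b • cc t q := by
              rw [cc_smul, cc_smul, cc_add, ← add_mul, hab, one_mul]
            show cc t (a • p + b • q) ∈ convexHull ℝ (cc 0 '' S ∪ cc 1 '' S)
            rw [h3]
            exact (convex_convexHull ℝ _) hp hq ha hb hab
        exact h2 hv
      have h2 := key 0 (subset_union_left.trans (subset_convexHull ℝ _))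
      have h3 := key 1 (subset_union_right.trans (subset_convexHull ℝ _))
      have h4 : v = (1 - v 0) • cc 0 (tl v) + v 0 • cc 1 (tl v) := by
        apply ext'
        · simp
        · simp only [tl_add, tl_smul, tl_cc]; rw [← add_smul]; simp
      rw [h4]
      exact (convex_convexHull ℝ _) h2 h3 (by linarith) h0 (by ring)
    · apply convexHull_min
      · rintro x (⟨y, hy, rfl⟩ | ⟨y, hy, rfl⟩)
        · exact ⟨le_rfl, zero_le_one, subset_convexHull ℝ S hy⟩
        · exact ⟨zero_le_one, le_rfl, subset_convexHull ℝ S hy⟩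
      · rintro p ⟨hp0, hp1, hp⟩ q ⟨hq0, hq1, hq⟩ a b ha hb hab
        refine ⟨?_, ?_, (convex_convexHull ℝ S) hp hq ha hb hab⟩
        · simp only [Pi.add_apply, Pi.smul_apply, smul_eq_mul]; positivity
        · simp only [Pi.add_apply, Pi.smul_apply, smul_eq_mul]; nlinarith

theorem interior_prism {P : Set (Fin n → ℝ)} (hP : (interior P).Nonempty) :
    (interior (prism P)).Nonempty := by
  obtain ⟨x, hx⟩ := hP
  have hc0 : Continuous fun v : Fin (n + 1) → ℝ => v 0 := continuous_apply 0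
  have hct : Continuous (tl (n := n)) := continuous_pi fun i => continuous_apply i.succ
  have hU : IsOpen {v : Fin (n + 1) → ℝ | 0 < v 0 ∧ v 0 < 1 ∧ tl v ∈ interior P} := by
    apply IsOpen.and (isOpen_lt continuous_const hc0)
    apply IsOpen.and (isOpen_lt hc0 continuous_const)
    exact isOpen_interior.preimage hct
  refine ⟨cc (1 / 2) x, mem_interior.mpr ⟨_, ?_, hU, ?_⟩⟩
  · rintro v ⟨h0, h1, h2⟩
    exact ⟨h0.le, h1.le, interior_subset h2⟩
  · refine ⟨?_, ?_, hx⟩ <;> norm_num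

theorem closed_of_prism {P : Set (Fin n → ℝ)} (hP : Convex ℝ P)
    (h : IntegrallyClosed (prism P)) : IntegrallyClosed P := by
  intro r hr
  have hr0 : (0 : ℝ) ≤ r := Nat.cast_nonneg r
  apply Subset.antisymm
  · rintro _ ⟨a, ⟨ha, hal⟩, b, ⟨hb, hbl⟩, rfl⟩
    obtain ⟨b', hb', rfl⟩ := hb
    refine ⟨⟨(1 / ((r : ℝ) + 1)) • a + ((r : ℝ) / (r + 1)) • b', hP ha hb' (by positivity)
      (by positivity) (by field_simp; ring), ?_⟩, ?_⟩
    · have h1 : ((r : ℝ) + 1) ≠ 0 := by positivity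
      simp only [Nat.cast_add, Nat.cast_one, smul_add, smul_smul]
      rw [mul_one_div_cancel h1, one_smul, mul_div_cancel₀ _ h1]
    · intro i
      obtain ⟨z, hz⟩ := hal i
      obtain ⟨z', hz'⟩ := hbl i
      have hz'' : (r : ℝ) • b' i = z' := hz'
      exact ⟨z + z', by
        push_cast
        rw [← hz, ← hz'']
        rfl⟩
  · rintro u ⟨⟨p, hp, hpu⟩, hul⟩
    have h1 : cc 0 u ∈ (((r + 1 : ℕ) : ℝ) • prism P) ∩ {x | IsLat x} := by
      refine ⟨⟨cc 0 p, ⟨le_rfl, zero_le_one, hp⟩, ?_⟩, isLat_cc ⟨0, by simp⟩ hul⟩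
      show ((r + 1 : ℕ) : ℝ) • cc 0 p = cc 0 u
      rw [cc_smul, mul_zero]
      exact ext' rfl hpu
    rw [← h r hr] at h1
    obtain ⟨a, ⟨ha, hal⟩, b, ⟨hb, hbl⟩, hab⟩ := h1
    obtain ⟨b', hb', rfl⟩ := hb
    refine ⟨tl a, ⟨ha.2.2, lat_tl hal⟩, tl ((r : ℝ) • b'), ⟨⟨tl b', hb'.2.2, rfl⟩, lat_tl hbl⟩, ?_⟩
    exact congrArg tl hab

/-- The property of the counterexamples. -/
def Bad (n : ℕ) : Prop := ∃ P : Set (Fin n → ℝ), IsLatticePolytope P ∧ (interior P).Nonempty ∧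
    IsMinLength P 1 ∧ IsGamma P 0 ∧ ¬ IntegrallyClosed P

theorem Bad.succ (h : Bad n) : Bad (n + 1) := by
  obtain ⟨P, h1, h2, h3, h4, h5⟩ := h
  exact ⟨prism P, lattice_prism h1, interior_prism h2, minLength_prism h1 h3,
    isGamma_prism (convex_of_lattice h1) h4, fun h => h5 (closed_of_prism (convex_of_lattice h1) h)⟩

end Pool.Agent.Y2.Gp
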