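import Pool.Agent.H178R3.GamDefs

/-!
Prisms over lattice polytopes: the invariants `L` and `Γ`, and integral closedness.
-/

set_option autoImplicit false

open Set Pointwise

namespace Pool.Agent.Y2.Gp

open Pool.Agent.H178R3.Gam

variable {n : ℕ}

/-- the point with first coordinate `t` and the other coordinates `x` -/
def cc (t : ℝ) (x : Fin n → ℝ) : Fin (n + 1) → ℝ := Fin.cons t x

/-- forget the first coordinate -/
def tl (v : Fin (n + 1) → ℝ) : Fin n → ℝ := fun i => v i.succ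

@[simp] lemma cc_zero (t : ℝ) (x : Fin n → ℝ) : cc t x 0 = t := rfl
@[simp] lemma cc_succ (t : ℝ) (x : Fin n → ℝ) (i : Fin n) : cc t x i.succ = x i := rfl
@[simp] lemma tl_cc (t : ℝ) (x : Fin n → ℝ) : tl (cc t x) = x := rfl
lemma cc_tl (v : Fin (n + 1) → ℝ) : cc (v 0) (tl v) = v := by
  funext i; refine Fin.cases ?_ (fun j => ?_) i <;> rfl
lemma ext' {v w : Fin (n + 1) → ℝ} (h0 : v 0 = w 0) (h : tl v = tl w) : v = w := by
  rw [← cc_tl v, ← cc_tl w, h0, h]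
@[simp] lemma tl_add (v w : Fin (n + 1) → ℝ) : tl (v + w) = tl v + tl w := rfl
@[simp] lemma tl_sub (v w : Fin (n + 1) → ℝ) : tl (v - w) = tl v - tl w := rfl
@[simp] lemma tl_smul (c : ℝ) (v : Fin (n + 1) → ℝ) : tl (c • v) = c • tl v := rfl
@[simp] lemma tl_zero : tl (0 : Fin (n + 1) → ℝ) = 0 := rfl
lemma tl_sum {ι : Type*} (s : Finset ι) (f : ι → Fin (n + 1) → ℝ) :
    tl (∑ i ∈ s, f i) = ∑ i ∈ s, tl (f i) := by
  funext k
  simp [tl, Finset.sum_apply]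
lemma cc_add (s t : ℝ) (x y : Fin n → ℝ) : cc s x + cc t y = cc (s + t) (x + y) :=
  ext' rfl rfl
lemma cc_smul (c t : ℝ) (x : Fin n → ℝ) : c • cc t x = cc (c * t) (c • x) := ext' rfl rfl
lemma cc_inj {s t : ℝ} {x y : Fin n → ℝ} (h : cc s x = cc t y) : s = t ∧ x = y :=
  ⟨congrFun h 0, congrArg tl h⟩

lemma isLat_cc {t : ℝ} {x : Fin n → ℝ} (ht : ∃ z : ℤ, t = z) (hx : IsLat x) : IsLat (cc t x) := by
  intro i
  refine Fin.cases ?_ (fun j => ?_) i
  · exact ht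
  · exact hx j

lemma lat_tl {v : Fin (n + 1) → ℝ} (h : IsLat v) : IsLat (tl v) := fun i => h i.succ

/-- the prism over `P` -/
def prism (P : Set (Fin n → ℝ)) : Set (Fin (n + 1) → ℝ) :=
  {v | 0 ≤ v 0 ∧ v 0 ≤ 1 ∧ tl v ∈ P}

/-- the product of the cone `Q` and a ray -/
def coneP (σ : ℝ) (Q : Set (Fin n → ℝ)) : Set (Fin (n + 1) → ℝ) :=
  {v | 0 ≤ σ * v 0 ∧ tl v ∈ Q}

lemma mem_seg {v w z : Fin (n + 1) → ℝ} : z ∈ segment ℝ v w ↔
    ∃ a b : ℝ, 0 ≤ a ∧ 0 ≤ b ∧ a + b = 1 ∧ a * v 0 + b * w 0 = z 0 ∧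
      a • tl v + b • tl w = tl z := by
  constructor
  · rintro ⟨a, b, ha, hb, hab, rfl⟩
    exact ⟨a, b, ha, hb, hab, rfl, rfl⟩
  · rintro ⟨a, b, ha, hb, hab, h0, h1⟩
    exact ⟨a, b, ha, hb, hab, ext' h0 h1⟩

lemma mem_oseg {v w z : Fin (n + 1) → ℝ} : z ∈ openSegment ℝ v w ↔
    ∃ a b : ℝ, 0 < a ∧ 0 < b ∧ a + b = 1 ∧ a * v 0 + b * w 0 = z 0 ∧
      a • tl v + b • tl w = tl z := by
  constructor
  · rintro ⟨a, b, ha, hb, hab, rfl⟩
    exact ⟨a, b, ha, hb, hab, rfl, rfl⟩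
  · rintro ⟨a, b, ha, hb, hab, h0, h1⟩
    exact ⟨a, b, ha, hb, hab, ext' h0 h1⟩

/-- a convex combination of numbers in `[0,1]` is `0` or `1` only if both are -/
lemma end_eq {a b s t e : ℝ} (ha : 0 < a) (hb : 0 < b) (hab : a + b = 1) (hs0 : 0 ≤ s)
    (hs1 : s ≤ 1) (ht0 : 0 ≤ t) (ht1 : t ≤ 1) (he : e = 0 ∨ e = 1) (h : a * s + b * t = e) :
    s = e := by
  rcases he with rfl | rfl
  · nlinarith
  · nlinarith

lemma mem_ext_prism {P : Set (Fin n → ℝ)} {v : Fin (n + 1) → ℝ} :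
    v ∈ (prism P).extremePoints ℝ ↔ (v 0 = 0 ∨ v 0 = 1) ∧ tl v ∈ P.extremePoints ℝ := by
  constructor
  · intro hv
    obtain ⟨⟨h0, h1, hP⟩, hext⟩ := hv
    constructor
    · by_contra hcon
      push Not at hcon
      have hlt0 : 0 < v 0 := lt_of_le_of_ne h0 (Ne.symm hcon.1)
      have hlt1 : v 0 < 1 := lt_of_le_of_ne h1 hcon.2
      have h2 := hext (x₁ := cc 0 (tl v)) ⟨le_rfl, zero_le_one, hP⟩ (x₂ := cc 1 (tl v))
        ⟨zero_le_one, le_rfl, hP⟩ (mem_oseg.mpr ⟨1 - v 0, v 0, by linarith, hlt0, by ring,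
          by simp, by simp only [tl_cc]; rw [← add_smul]; simp⟩)
      have h3 := congrFun h2 0
      simp at h3
      exact hcon.1 h3.symm
    · refine ⟨hP, ?_⟩
      intro a ha b hb hab
      obtain ⟨s, t, hs, ht, hst, hab⟩ := hab
      have h2 := hext (x₁ := cc (v 0) a) ⟨h0, h1, ha⟩ (x₂ := cc (v 0) b) ⟨h0, h1, hb⟩
        (mem_oseg.mpr ⟨s, t, hs, ht, hst, by simp only [cc_zero]; rw [← add_mul, hst, one_mul],
          by simpa using hab⟩)
      exact congrArg tl h2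
  · rintro ⟨h01, hP, hext⟩
    refine ⟨⟨by rcases h01 with h | h <;> rw [h] <;> norm_num,
      by rcases h01 with h | h <;> rw [h] <;> norm_num, hP⟩, ?_⟩
    rintro a ⟨ha0, ha1, haP⟩ b ⟨hb0, hb1, hbP⟩ hab
    obtain ⟨s, t, hs, ht, hst, h0, h1⟩ := mem_oseg.mp hab
    exact ext' (end_eq hs ht hst ha0 ha1 hb0 hb1 h01 h0) (hext haP hbP ⟨s, t, hs, ht, hst, h1⟩)

lemma edge_prism {P : Set (Fin n → ℝ)} {x y : Fin (n + 1) → ℝ} :
    IsEdge (prism P) x y ↔
      ((x 0 = 0 ∨ x 0 = 1) ∧ x 0 = y 0 ∧ IsEdge P (tl x) (tl y)) ∨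
      ((x 0 = 0 ∨ x 0 = 1) ∧ y 0 = 1 - x 0 ∧ tl x ∈ P.extremePoints ℝ ∧ tl y = tl x) := by
  constructor
  · rintro ⟨hne, hx, hy, hsub, hext⟩
    rw [mem_ext_prism] at hx hy
    by_cases h0 : x 0 = y 0
    · left
      refine ⟨hx.1, h0, fun h => hne (ext' h0 h), hx.2, hy.2, ?_⟩
      have hx01 : 0 ≤ x 0 ∧ x 0 ≤ 1 := by rcases hx.1 with h | h <;> rw [h] <;> norm_num
      refine ⟨?_, ?_⟩
      · rintro z ⟨a, b, ha, hb, hab, hz⟩
        have h1 := hsub (a := cc (x 0) z) (mem_seg.mpr ⟨a, b, ha, hb, hab, by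
          rw [← h0, ← add_mul, hab, one_mul]; rfl, hz⟩)
        exact h1.2.2
      · rintro a ha b hb z hz hzo
        obtain ⟨s, t, hs, ht, hst, hz1⟩ := hz
        obtain ⟨s', t', hs', ht', hst', hz2⟩ := hzo
        have h1 := hext (x := cc (x 0) a) ⟨hx01.1, hx01.2, ha⟩ (y := cc (x 0) b)
          ⟨hx01.1, hx01.2, hb⟩ (z := cc (x 0) z)
          (mem_seg.mpr ⟨s, t, hs, ht, hst, by rw [← h0, ← add_mul, hst, one_mul]; rfl, hz1⟩)
          (mem_oseg.mpr ⟨s', t', hs', ht', hst', by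
            simp only [cc_zero]; rw [← add_mul, hst', one_mul], hz2⟩)
        obtain ⟨p, q, hp, hq, hpq, -, h2⟩ := mem_seg.mp h1
        exact ⟨p, q, hp, hq, hpq, h2⟩
    · right
      have hy0 : y 0 = 1 - x 0 := by
        rcases hx.1 with h | h
        · rcases hy.1 with h' | h'
          · exact absurd (h.trans h'.symm) h0
          · rw [h, h']; norm_num
        · rcases hy.1 with h' | h'
          · rw [h, h']; norm_num
          · exact absurd (h.trans h'.symm) h0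
      refine ⟨hx.1, hy0, hx.2, ?_⟩
      by_contra hcon
      have hx01 : 0 ≤ x 0 ∧ x 0 ≤ 1 := by rcases hx.1 with h | h <;> rw [h] <;> norm_num
      have hy01 : 0 ≤ y 0 ∧ y 0 ≤ 1 := by rcases hy.1 with h | h <;> rw [h] <;> norm_num
      have h1 := hext (x := cc (x 0) (tl y)) ⟨hx01.1, hx01.2, hy.2.1⟩ (y := cc (y 0) (tl x))
        ⟨hy01.1, hy01.2, hx.2.1⟩ (z := (1 / 2 : ℝ) • x + (1 / 2 : ℝ) • y)
        ⟨1 / 2, 1 / 2, by norm_num, by norm_num, by norm_num, rfl⟩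
        (mem_oseg.mpr ⟨1 / 2, 1 / 2, by norm_num, by norm_num, by norm_num, rfl, by
          simp only [tl_cc, tl_add, tl_smul]; rw [add_comm]⟩)
      obtain ⟨a, b, ha, hb, hab, h2, h3⟩ := mem_seg.mp h1
      simp only [cc_zero, tl_cc] at h2 h3
      have hb0 : b = 0 := by
        have h4 : b * (y 0 - x 0) = 0 := by
          have : a * x 0 = (1 - b) * x 0 := by rw [← hab]; ring
          linarith
        rcases mul_eq_zero.mp h4 with h | h
        · exact h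
        · exact absurd (sub_eq_zero.mp h).symm h0
      rw [hb0, zero_smul, add_zero] at h3
      have ha1 : a = 1 := by linarith
      rw [ha1, one_smul] at h3
      exact hcon h3.symm
  · rintro (⟨hx0, h0, hne, hx, hy, hsub, hext⟩ | ⟨hx0, hy0, hx, hxy⟩)
    · refine ⟨fun h => hne (congrArg tl h), mem_ext_prism.mpr ⟨hx0, hx⟩,
        mem_ext_prism.mpr ⟨h0 ▸ hx0, hy⟩, ?_, ?_⟩
      · intro z hz
        obtain ⟨a, b, ha, hb, hab, h1, h2⟩ := mem_seg.mp hz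
        have h3 : z 0 = x 0 := by rw [← h1, ← h0, ← add_mul, hab, one_mul]
        refine ⟨?_, ?_, hsub ⟨a, b, ha, hb, hab, h2⟩⟩
        · rw [h3]; rcases hx0 with h | h <;> rw [h]; norm_num
        · rw [h3]; rcases hx0 with h | h <;> rw [h]; norm_num
      · rintro a ⟨ha0, ha1, haP⟩ b ⟨hb0, hb1, hbP⟩ z hz hzo
        obtain ⟨s, t, hs, ht, hst, h1, h2⟩ := mem_seg.mp hz
        obtain ⟨s', t', hs', ht', hst', h3, h4⟩ := mem_oseg.mp hzo
        have h5 : z 0 = x 0 := by rw [← h1, ← h0, ← add_mul, hst, one_mul]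
        have h6 : a 0 = x 0 := end_eq hs' ht' hst' ha0 ha1 hb0 hb1 hx0 (h3.trans h5)
        obtain ⟨p, q, hp, hq, hpq, h7⟩ := hext haP hbP ⟨s, t, hs, ht, hst, h2⟩
          ⟨s', t', hs', ht', hst', h4⟩
        exact mem_seg.mpr ⟨p, q, hp, hq, hpq, by rw [h6, ← h0, ← add_mul, hpq, one_mul], h7⟩
    · have hy0' : y 0 = 0 ∨ y 0 = 1 := by
        rcases hx0 with h | h
        · right; rw [hy0, h]; norm_num
        · left; rw [hy0, h]; norm_num
      refine ⟨?_, mem_ext_prism.mpr ⟨hx0, hx⟩, mem_ext_prism.mpr ⟨hy0', hxy ▸ hx⟩, ?_, ?_⟩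
      · rintro rfl
        rcases hx0 with h | h <;> rw [h] at hy0 <;> norm_num at hy0
      · intro z hz
        obtain ⟨a, b, ha, hb, hab, h1, h2⟩ := mem_seg.mp hz
        have h3 : tl z = tl x := by rw [← h2, hxy, ← add_smul, hab, one_smul]
        refine ⟨?_, ?_, h3 ▸ hx.1⟩
        · rw [← h1, hy0]; rcases hx0 with h | h <;> rw [h] <;> nlinarith
        · rw [← h1, hy0]; rcases hx0 with h | h <;> rw [h] <;> nlinarith
      · rintro a ⟨ha0, ha1, haP⟩ b ⟨hb0, hb1, hbP⟩ z hz hzo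
        obtain ⟨s, t, hs, ht, hst, h1, h2⟩ := mem_seg.mp hz
        obtain ⟨s', t', hs', ht', hst', h3, h4⟩ := mem_oseg.mp hzo
        have h5 : tl z = tl x := by rw [← h2, hxy, ← add_smul, hst, one_smul]
        have h6 : tl a = tl x := hx.2 haP hbP ⟨s', t', hs', ht', hst', h4.trans h5⟩
        refine mem_seg.mpr ?_
        rcases hx0 with h | h
        · exact ⟨1 - a 0, a 0, by linarith, ha0, by ring, by rw [hy0, h]; ring,
            by rw [hxy, ← add_smul, h6]; simp⟩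
        · exact ⟨a 0, 1 - a 0, ha0, by linarith, by ring, by rw [hy0, h]; ring,
            by rw [hxy, ← add_smul, h6]; simp⟩

end Pool.Agent.Y2.Gp
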