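import Pool.Agent.Y2.Gp.Crit

/-!
The polytopes `k Q` of a system: vertices, edges and the invariant `Γ`.
-/

set_option autoImplicit false

open Set Pointwise

namespace Pool.Agent.Y2.Gp

open Pool.Agent.H178R3.Gam

variable {n m N : ℕ}

/-- the points `k (v s)` and `k (v s + e)` -/
def Sys.pt (D : Sys n m N) (k : ℕ) (i : (Bool × Fin (m + 1)) × Bool) : Fin n → ℝ :=
  (k : ℝ) • (D.v i.1 + (if i.2 then (1 : ℝ) else 0) • D.e)

/-- the polytope `k Q` -/
def Sys.P (D : Sys n m N) (k : ℕ) : Set (Fin n → ℝ) := convexHull ℝ (range (D.pt k))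

lemma Sys.L_pt (D : Sys n m N) (k : ℕ) {α : Bool × Fin (m + 1) → ℝ} {β : ℝ}
    (h : ∑ s, α s * rho s = β * N) (s : Bool × Fin (m + 1)) (hs : α s = 0)
    (i : (Bool × Fin (m + 1)) × Bool) :
    D.L α β (D.pt k i) = k * D.L α β (D.v s) + k * (α i.1 + (if i.2 then (1 : ℝ) else 0) * β) := by
  have h1 := D.L_sub h i.1 s
  rw [hs, sub_zero] at h1
  rw [Sys.pt, map_smul, map_add, map_smul, D.L_e, smul_eq_mul, smul_eq_mul,
    show D.L α β (D.v i.1) = D.L α β (D.v s) + α i.1 by linarith]
  ring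

/-- positive functionals with prescribed zeros -/
lemma exists_alpha (F : Finset (Bool × Fin (m + 1))) (hA : ∃ i, (true, i) ∉ F) (β : ℝ)
    (hβ : β = 1 ∨ (β = 0 ∧ ∃ i, (false, i) ∉ F)) (hN : 1 ≤ N) :
    ∃ α : Bool × Fin (m + 1) → ℝ, ∑ s, α s * rho s = β * N ∧ (∀ s ∈ F, α s = 0) ∧
      ∀ s, s ∉ F → 0 < α s := by
  classical
  set a : ℝ := ((Finset.univ.filter fun i : Fin (m + 1) => (true, i) ∉ F).card : ℝ) with ha
  set b : ℝ := ((Finset.univ.filter fun i : Fin (m + 1) => (false, i) ∉ F).card : ℝ) with hb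
  have ha0 : 0 < a := by
    obtain ⟨i, hi⟩ := hA
    rw [ha]
    exact_mod_cast Finset.card_pos.mpr ⟨i, by simp [hi]⟩
  have hb0 : 0 ≤ b := Nat.cast_nonneg _
  have hN' : (1 : ℝ) ≤ N := by exact_mod_cast hN
  have hpos : 0 < b + β * N := by
    rcases hβ with rfl | ⟨rfl, i, hi⟩
    · linarith
    · have : 0 < b := by
        rw [hb]
        exact_mod_cast Finset.card_pos.mpr ⟨i, by simp [hi]⟩
      linarith
  refine ⟨fun s => if s ∈ F then 0 else if s.1 then (b + β * N) / a else 1, ?_, ?_, ?_⟩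
  · rw [Fintype.sum_prod_type]
    simp only [Fintype.sum_bool, rho, if_true, Bool.false_eq_true, if_false, mul_one, mul_neg,
      Finset.sum_neg_distrib]
    have h0 : ∀ (b : Bool) (c : ℝ), ∑ x, (if (b, x) ∈ F then (0 : ℝ) else c) =
        ((Finset.univ.filter fun i : Fin (m + 1) => (b, i) ∉ F).card : ℝ) * c := by
      intro b c
      rw [← nsmul_eq_mul, ← Finset.sum_const, Finset.sum_filter]
      apply Finset.sum_congr rfl
      intro x _
      by_cases h : (b, x) ∈ F <;> simp [h]
    have h1 : ∑ x, (if (true, x) ∈ F then (0 : ℝ) else (b + β * N) / a) = b + β * N := by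
      rw [h0, ← ha]
      field_simp
    have h2 : ∑ x, (if (false, x) ∈ F then (0 : ℝ) else 1) = b := by
      rw [h0, ← hb, mul_one]
    rw [h1, h2]
    ring
  · intro s hs
    simp [hs]
  · intro s hs
    simp only [hs, if_false]
    split_ifs
    · exact div_pos hpos ha0
    · exact one_pos

lemma exists_true_notMem (hm : 2 ≤ m) (s w : Bool × Fin (m + 1)) (b : Bool) :
    ∃ i, (b, i) ∉ ({s, w} : Finset (Bool × Fin (m + 1))) := by
  by_contra hcon
  push Not at hcon
  have h1 : (Finset.univ.image fun i : Fin (m + 1) => (b, i)) ⊆ {s, w} := by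
    intro x hx
    obtain ⟨i, -, rfl⟩ := Finset.mem_image.mp hx
    exact hcon i
  have h2 := Finset.card_le_card h1
  rw [Finset.card_image_of_injective _ (fun i j h => (Prod.mk.inj h).2), Finset.card_univ,
    Fintype.card_fin] at h2
  have h3 : ({s, w} : Finset (Bool × Fin (m + 1))).card ≤ 2 := Finset.card_le_two
  omega

/-- the faces spanned by two points `k (v s)`, `k (v w)` -/
lemma Sys.face_bb (D : Sys n m N) (hm : 2 ≤ m) (hN : 1 ≤ N) {k : ℕ} (hk : 1 ≤ k)
    (s w : Bool × Fin (m + 1)) :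
    IsExtreme ℝ (D.P k) (segment ℝ (D.pt k (s, false)) (D.pt k (w, false))) := by
  classical
  have hk' : (0 : ℝ) < k := by exact_mod_cast hk
  obtain ⟨α, h1, h2, h3⟩ := exists_alpha (N := N) {s, w} (exists_true_notMem hm s w true) 1
    (Or.inl rfl) hN
  have hs : α s = 0 := h2 s (by simp)
  have hnn : ∀ r, 0 ≤ α r := fun r => by
    by_cases hr : r ∈ ({s, w} : Finset (Bool × Fin (m + 1)))
    · rw [h2 r hr]
    · exact (h3 r hr).le
  apply face (D.L α 1) (k * D.L α 1 (D.v s))
  · rintro ⟨r, ε⟩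
    rw [D.L_pt k h1 s hs]
    have h4 := hnn r
    have : 0 ≤ (k : ℝ) * (α r + (if ε then (1 : ℝ) else 0) * 1) := by
      apply mul_nonneg hk'.le
      cases ε <;> simp <;> linarith
    simpa using this
  · rintro ⟨r, ε⟩
    rw [D.L_pt k h1 s hs]
    have h4 := hnn r
    constructor
    · intro h5
      have h6 : α r + (if ε then (1 : ℝ) else 0) * 1 = 0 := by
        have : (k : ℝ) * (α r + (if ε then (1 : ℝ) else 0) * 1) = 0 := by linarith
        rcases mul_eq_zero.mp this with h | h
        · exact absurd h hk'.ne'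
        · exact h
      cases ε
      · have h7 : r ∈ ({s, w} : Finset (Bool × Fin (m + 1))) := by
          by_contra hcon
          have := h3 r hcon
          simp at h6
          linarith
        rw [Finset.mem_insert, Finset.mem_singleton] at h7
        rcases h7 with rfl | rfl
        · exact Or.inl rfl
        · exact Or.inr rfl
      · simp at h6
        linarith
    · rintro (h | h)
      · rw [Prod.mk.injEq] at h
        obtain ⟨rfl, rfl⟩ := h
        simp [hs]
      · rw [Prod.mk.injEq] at h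
        obtain ⟨rfl, rfl⟩ := h
        simp [h2]

lemma Sys.face_vert (D : Sys n m N) (hm : 2 ≤ m) (hN : 1 ≤ N) {k : ℕ} (hk : 1 ≤ k)
    (s : Bool × Fin (m + 1)) :
    IsExtreme ℝ (D.P k) (segment ℝ (D.pt k (s, false)) (D.pt k (s, true))) := by
  classical
  have hk' : (0 : ℝ) < k := by exact_mod_cast hk
  obtain ⟨α, h1, h2, h3⟩ := exists_alpha (N := N) {s, s} (exists_true_notMem hm s s true) 0
    (Or.inr ⟨rfl, exists_true_notMem hm s s false⟩) hN
  have hs : α s = 0 := h2 s (by simp)
  have hnn : ∀ r, 0 ≤ α r := fun r => by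
    by_cases hr : r ∈ ({s, s} : Finset (Bool × Fin (m + 1)))
    · rw [h2 r hr]
    · exact (h3 r hr).le
  apply face (D.L α 0) (k * D.L α 0 (D.v s))
  · rintro ⟨r, ε⟩
    rw [D.L_pt k h1 s hs, mul_zero, add_zero]
    have := mul_nonneg hk'.le (hnn r)
    simpa using this
  · rintro ⟨r, ε⟩
    rw [D.L_pt k h1 s hs, mul_zero, add_zero]
    constructor
    · intro h5
      have h6 : α r = 0 := by
        have : (k : ℝ) * α r = 0 := by simpa using h5
        rcases mul_eq_zero.mp this with h | h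
        · exact absurd h hk'.ne'
        · exact h
      have h7 : r = s := by
        by_contra hcon
        have := h3 r (by simpa using hcon)
        linarith
      subst h7
      cases ε
      · exact Or.inl rfl
      · exact Or.inr rfl
    · rintro (h | h)
      · rw [Prod.mk.injEq] at h
        obtain ⟨rfl, rfl⟩ := h
        simp [hs]
      · rw [Prod.mk.injEq] at h
        obtain ⟨rfl, rfl⟩ := h
        simp [hs]

lemma Sys.swap_pt (D : Sys n m N) (k : ℕ) (s : Bool × Fin (m + 1)) (ε : Bool) :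
    D.swap.pt k (s, ε) = D.pt k ((!s.1, s.2), !ε) := by
  rw [Sys.pt, Sys.pt]
  congr 1
  show D.v (!s.1, s.2) + D.e + (if ε then (1 : ℝ) else 0) • (-D.e) = _
  cases ε
  · simp
  · simp

lemma Sys.swap_P (D : Sys n m N) (k : ℕ) : D.swap.P k = D.P k := by
  rw [Sys.P, Sys.P]
  congr 1
  ext x
  constructor
  · rintro ⟨⟨s, ε⟩, rfl⟩
    exact ⟨((!s.1, s.2), !ε), (D.swap_pt k s ε).symm⟩
  · rintro ⟨⟨s, ε⟩, rfl⟩
    refine ⟨((!s.1, s.2), !ε), ?_⟩
    rw [D.swap_pt]
    simp

lemma Sys.ext_bottom (D : Sys n m N) (hm : 2 ≤ m) (hN : 1 ≤ N) {k : ℕ} (hk : 1 ≤ k)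
    (s : Bool × Fin (m + 1)) : D.pt k (s, false) ∈ (D.P k).extremePoints ℝ := by
  have := D.face_bb hm hN hk s s
  rwa [segment_same, isExtreme_singleton] at this

lemma Sys.ext_top (D : Sys n m N) (hm : 2 ≤ m) (hN : 1 ≤ N) {k : ℕ} (hk : 1 ≤ k)
    (s : Bool × Fin (m + 1)) : D.pt k (s, true) ∈ (D.P k).extremePoints ℝ := by
  have := D.swap.ext_bottom hm hN hk (!s.1, s.2)
  rw [D.swap_pt, D.swap_P] at this
  simpa using this

lemma Sys.e_ne (D : Sys n m N) : D.e ≠ 0 := by
  intro h
  have := D.Ze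
  rw [h, map_zero] at this
  exact zero_ne_one this

lemma Sys.v_inj (D : Sys n m N) (hm : 2 ≤ m) (hN : 1 ≤ N) {s w : Bool × Fin (m + 1)}
    (h : s ≠ w) : D.v w ≠ D.v s := by
  classical
  obtain ⟨α, h1, h2, h3⟩ := exists_alpha (N := N) {s, s} (exists_true_notMem hm s s true) 1
    (Or.inl rfl) hN
  intro hcon
  have h4 := D.L_sub h1 w s
  rw [hcon, sub_self, h2 s (by simp), sub_zero] at h4
  have := h3 w (by simpa using h.symm)
  linarith

lemma Sys.edge_bb (D : Sys n m N) (hm : 2 ≤ m) (hN : 1 ≤ N) {k : ℕ} (hk : 1 ≤ k)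
    {s w : Bool × Fin (m + 1)} (h : s ≠ w) :
    IsEdge (D.P k) (D.pt k (s, false)) (D.pt k (w, false)) := by
  have hk' : (k : ℝ) ≠ 0 := by exact_mod_cast (by omega : k ≠ 0)
  refine ⟨?_, D.ext_bottom hm hN hk s, D.ext_bottom hm hN hk w, D.face_bb hm hN hk s w⟩
  intro hcon
  rw [Sys.pt, Sys.pt] at hcon
  have := smul_right_injective _ hk' hcon
  simp at this
  exact D.v_inj hm hN h this.symm

lemma Sys.edge_vert (D : Sys n m N) (hm : 2 ≤ m) (hN : 1 ≤ N) {k : ℕ} (hk : 1 ≤ k)
    (s : Bool × Fin (m + 1)) :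
    IsEdge (D.P k) (D.pt k (s, false)) (D.pt k (s, true)) := by
  have hk' : (k : ℝ) ≠ 0 := by exact_mod_cast (by omega : k ≠ 0)
  refine ⟨?_, D.ext_bottom hm hN hk s, D.ext_top hm hN hk s, D.face_vert hm hN hk s⟩
  intro hcon
  rw [Sys.pt, Sys.pt] at hcon
  have := smul_right_injective _ hk' hcon
  simp at this
  exact D.e_ne this

lemma Sys.ext_pt (D : Sys n m N) {k : ℕ} {x : Fin n → ℝ} (hx : x ∈ (D.P k).extremePoints ℝ) :
    ∃ i, x = D.pt k i := by
  obtain ⟨i, hi⟩ := extremePoints_convexHull_subset hx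
  exact ⟨i, hi.symm⟩

lemma Sys.cone_nonneg (D : Sys n m N) (k : ℕ) {α : Bool × Fin (m + 1) → ℝ} {β : ℝ}
    (h : ∑ s, α s * rho s = β * N) (hα : ∀ r, 0 ≤ α r) (hβ : 0 ≤ β) {s : Bool × Fin (m + 1)}
    (hs : α s = 0) {u : Fin n → ℝ} (hu : u ∈ vertexCone (D.P k) (D.pt k (s, false))) :
    0 ≤ D.L α β u := by
  refine vc_induction (p := fun u => 0 ≤ D.L α β u) ?_ ?_ ?_ ?_ hu
  · intro y hy
    obtain ⟨i, rfl⟩ := D.ext_pt hy.2.2.1
    rw [map_sub, D.L_pt k h s hs, D.L_pt k h s hs]
    have h1 : 0 ≤ (k : ℝ) * (α i.1 + (if i.2 then (1 : ℝ) else 0) * β) := by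
      apply mul_nonneg (Nat.cast_nonneg k)
      apply add_nonneg (hα _)
      split_ifs
      · simpa using hβ
      · simp
    simp only [hs, Bool.false_eq_true, if_false, zero_mul, add_zero, mul_zero]
    linarith
  · show 0 ≤ D.L α β 0
    rw [map_zero]
  · intro u v hu hv
    show 0 ≤ D.L α β (u + v)
    rw [map_add]; exact add_nonneg hu hv
  · intro c u hc hu
    show 0 ≤ D.L α β (c • u)
    rw [map_smul, smul_eq_mul]; exact mul_nonneg hc hu

/-- a natural number from a nonnegative integer -/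
lemma exists_nat {x : ℝ} (h : ∃ z : ℤ, x = z) (hx : 0 ≤ x) : ∃ k : ℕ, (k : ℝ) = x := by
  obtain ⟨z, rfl⟩ := h
  have : 0 ≤ z := by exact_mod_cast hx
  obtain ⟨k, rfl⟩ := Int.eq_ofNat_of_zero_le this
  exact ⟨k, by simp⟩

theorem Sys.gamma_bottom (D : Sys n m N) (hm : 2 ≤ m) (hN : 1 ≤ N) {k : ℕ} (hk : 1 ≤ k)
    (s : Bool × Fin (m + 1)) :
    IsGammaCone (vertexCone (D.P k) (D.pt k (s, false))) 0 := by
  classical
  have hk' : (0 : ℝ) < k := by exact_mod_cast hk
  have hN' : (1 : ℝ) ≤ N := by exact_mod_cast hN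
  set κ : ℝ := N + rho s with hκ
  have hρ : rho s = 1 ∨ rho s = -1 := by
    unfold rho; split_ifs <;> simp
  have hκ0 : 0 ≤ κ := by rcases hρ with h | h <;> rw [hκ, h] <;> linarith
  have hρint : ∀ w : Bool × Fin (m + 1), ∃ z : ℤ, rho w = z := fun w => by
    unfold rho; split_ifs
    · exact ⟨1, by simp⟩
    · exact ⟨-1, by simp⟩
  -- the linear functionals
  let α : {i : Fin (m + 1) // (true, i) ≠ s} → Bool × Fin (m + 1) → ℝ := fun j w =>
    (if w = s then 0 else 1) + (if w = (true, j.1) then κ else 0)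
  have hαs : ∀ j, α j s = 0 := by
    intro j
    have : s ≠ (true, j.1) := fun h => j.2 h.symm
    simp [α, this]
  have hαρ : ∀ j, ∑ w, α j w * rho w = 1 * N := by
    intro j
    have h1 : ∀ w, α j w * rho w = rho w - (if w = s then rho w else 0) +
        (if w = (true, j.1) then κ * rho w else 0) := by
      intro w
      simp only [α]
      split_ifs <;> ring
    rw [Finset.sum_congr rfl fun w _ => h1 w, Finset.sum_add_distrib, Finset.sum_sub_distrib,
      rho_sum, Finset.sum_ite_eq' Finset.univ s, Finset.sum_ite_eq' Finset.univ (true, j.1)]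
    simp only [Finset.mem_univ, if_true]
    rw [hκ]
    simp [rho]
  have hJ : Nonempty {i : Fin (m + 1) // (true, i) ≠ s} := by
    obtain ⟨i, hi⟩ := exists_true_notMem hm s s true
    exact ⟨⟨i, by simpa using hi⟩⟩
  have hLe : ∀ j, D.L (α j) 1 D.e = 1 := fun j => D.L_e _ _
  have hLv : ∀ j w, D.L (α j) 1 (D.v w - D.v s) = α j w := by
    intro j w
    rw [map_sub, D.L_sub (hαρ j), hαs j, sub_zero]
  let G : Option {w : Bool × Fin (m + 1) // w ≠ s} → Fin n → ℝ := fun i =>
    i.elim D.e fun w => D.v w.1 - D.v s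
  apply gamma_zero (ι := Option {w : Bool × Fin (m + 1) // w ≠ s})
    (J := {i : Fin (m + 1) // (true, i) ≠ s}) (vc_zero _ _) (vc_add _ _) (vc_smul _ _) G
    (l := fun j => D.L (α j) 1)
  · -- injectivity
    have h0 : ∀ w : {w : Bool × Fin (m + 1) // w ≠ s}, D.e ≠ D.v w.1 - D.v s := by
      intro w h
      -- use the functional without the `e`-part
      obtain ⟨β, h1, h2, h3⟩ := exists_alpha (N := N) {s, s} (exists_true_notMem hm s s true) 0
        (Or.inr ⟨rfl, exists_true_notMem hm s s false⟩) hN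
      have h4 := congrArg (D.L β 0) h
      rw [D.L_e, map_sub, D.L_sub h1, h2 s (by simp), sub_zero] at h4
      have := h3 w.1 (by simpa using w.2)
      linarith
    rintro (_ | w) (_ | w') h
    · rfl
    · exact absurd h (h0 w')
    · exact absurd h.symm (h0 w)
    · congr 1
      apply Subtype.ext
      by_contra hne
      have h1 : D.v w.1 = D.v w'.1 := sub_left_inj.mp h
      exact D.v_inj hm hN (fun h => hne h.symm) h1
  · rintro (_ | w)
    · exact D.he
    · exact isLat_sub (D.hv _) (D.hv _)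
  · rintro (_ | w)
    · have h1 := vc_gen (D.edge_vert hm hN hk s)
      have h2 : D.pt k (s, true) - D.pt k (s, false) = (k : ℝ) • D.e := by
        simp [Sys.pt, smul_add]
      rw [h2] at h1
      have h3 := vc_smul _ _ (1 / (k : ℝ)) (by positivity) _ h1
      rw [smul_smul, one_div_mul_cancel hk'.ne', one_smul] at h3
      exact h3
    · have h1 := vc_gen (D.edge_bb hm hN hk w.2.symm)
      have h2 : D.pt k (w.1, false) - D.pt k (s, false) = (k : ℝ) • (D.v w.1 - D.v s) := by
        simp [Sys.pt, smul_sub]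
      rw [h2] at h1
      have h3 := vc_smul _ _ (1 / (k : ℝ)) (by positivity) _ h1
      rw [smul_smul, one_div_mul_cancel hk'.ne', one_smul] at h3
      exact h3
  · intro j u hu
    apply D.L_int _ ⟨1, by simp⟩ hu
    intro w
    obtain ⟨z, hz⟩ := hρint s
    simp only [α]
    by_cases h1 : w = s
    · have h2 : w ≠ (true, j.1) := fun h => j.2 (h.symm.trans h1)
      exact ⟨0, by rw [if_pos h1, if_neg h2]; simp⟩
    · by_cases h2 : w = (true, j.1)
      · exact ⟨1 + (N + z), by rw [if_neg h1, if_pos h2, hκ, hz]; push_cast; ring⟩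
      · exact ⟨1, by rw [if_neg h1, if_neg h2]; simp⟩
  · rintro j (_ | w)
    · exact (hLe j).ge
    · show 1 ≤ D.L (α j) 1 (D.v w.1 - D.v s)
      rw [hLv]
      simp only [α, w.2, if_false]
      split_ifs <;> linarith
  · rintro (_ | w)
    · exact ⟨hJ.some, hLe _⟩
    · obtain ⟨i, hi⟩ := exists_true_notMem hm s w.1 true
      rw [Finset.mem_insert, Finset.mem_singleton] at hi
      push Not at hi
      refine ⟨⟨i, hi.1⟩, ?_⟩
      show D.L (α ⟨i, hi.1⟩) 1 (D.v w.1 - D.v s) = 1
      rw [hLv]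
      have h1 : w.1 ≠ (true, i) := fun h => hi.2 h.symm
      simp [α, w.2, h1]
  · intro u hu hul
    -- the smallest coordinate of the first block
    obtain ⟨j, hj⟩ := Finite.exists_min
      (fun i : {i : Fin (m + 1) // (true, i) ≠ s} => D.C u (true, i.1))
    set t : ℝ := D.C u (true, j.1) with ht
    have htint : ∃ z : ℤ, t = z := D.hC u hul _
    have hnn : ∀ w : {w : Bool × Fin (m + 1) // w ≠ s}, 0 ≤ D.C u w.1 - t * rho w.1 := by
      rintro ⟨⟨b, i⟩, hw⟩
      cases b
      · -- second block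
        have h1 := D.cone_nonneg k (α := fun w => (if w = (true, j.1) then 1 else 0) +
          (if w = (false, i) then 1 else 0)) (β := 0) (by
            simp only [add_mul, ite_mul, one_mul, zero_mul, Finset.sum_add_distrib,
              Finset.sum_ite_eq', Finset.mem_univ, if_true]
            simp [rho]) (fun r => by split_ifs <;> norm_num) le_rfl (s := s) (by
            have h2 : s ≠ (true, j.1) := fun h => j.2 h.symm
            have h3 : s ≠ (false, i) := fun h => hw h.symm
            simp [h2, h3]) hu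
        rw [D.L_apply] at h1
        simp only [add_mul, ite_mul, one_mul, zero_mul, Finset.sum_add_distrib,
          Finset.sum_ite_eq', Finset.mem_univ, if_true, add_zero] at h1
        simp only [rho, Bool.false_eq_true, if_false]
        linarith
      · have h1 := hj ⟨i, hw⟩
        simp only [rho, if_true]
        linarith
    have hnne : 0 ≤ D.Z u + N * t := by
      have h1 := D.cone_nonneg k (α := fun w => if w = (true, j.1) then (N : ℝ) else 0)
        (β := 1) (by
          simp only [ite_mul, zero_mul, Finset.sum_ite_eq', Finset.mem_univ, if_true]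
          simp [rho]) (fun r => by split_ifs <;> positivity) zero_le_one (s := s) (by
          have h2 : s ≠ (true, j.1) := fun h => j.2 h.symm
          simp [h2]) hu
      rw [D.L_apply] at h1
      simp only [ite_mul, zero_mul, Finset.sum_ite_eq', Finset.mem_univ, if_true, one_mul] at h1
      linarith
    have hex : ∀ w : {w : Bool × Fin (m + 1) // w ≠ s}, ∃ c : ℕ,
        (c : ℝ) = D.C u w.1 - t * rho w.1 := by
      intro w
      apply exists_nat _ (hnn w)
      obtain ⟨a, ha⟩ := D.hC u hul w.1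
      obtain ⟨b, hb⟩ := htint
      obtain ⟨c, hc⟩ := hρint w.1
      exact ⟨a - b * c, by rw [ha, hb, hc]; push_cast; ring⟩
    choose c hc using hex
    obtain ⟨c0, hc0⟩ : ∃ c0 : ℕ, (c0 : ℝ) = D.Z u + N * t := by
      apply exists_nat _ hnne
      obtain ⟨a, ha⟩ := D.hZ u hul
      obtain ⟨b, hb⟩ := htint
      exact ⟨a + N * b, by rw [ha, hb]; push_cast; ring⟩
    have hsub : ∀ {M : Type} [AddCommGroup M] (f : Bool × Fin (m + 1) → M),
        ∑ w : {w : Bool × Fin (m + 1) // w ≠ s}, f w.1 = ∑ w, f w - f s := by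
      intro M _ f
      rw [← Finset.sum_subtype (Finset.univ.erase s) (fun x => by simp) f,
        Finset.sum_erase_eq_sub (Finset.mem_univ s)]
    refine ⟨fun i => i.elim c0 c, j, ?_, ?_⟩
    · rw [Fintype.sum_option]
      show u = (c0 : ℝ) • D.e + ∑ w, (c w : ℝ) • (D.v w.1 - D.v s)
      simp only [hc, hc0]
      rw [hsub fun w => (D.C u w - t * rho w) • (D.v w - D.v s)]
      simp only [sub_self, smul_zero, sub_zero, smul_sub, Finset.sum_sub_distrib,
        ← Finset.sum_smul, sub_smul, mul_smul, ← Finset.smul_sum, D.sum u, D.rel]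
      rw [rho_sum]
      simp only [smul_zero, zero_smul, sub_zero, add_smul, mul_smul]
      conv_lhs => rw [D.rep u]
      rw [smul_comm t (N : ℝ) D.e]
      abel
    · rw [Fintype.sum_option]
      show (c0 : ℝ) + ∑ w, (c w : ℝ) = D.L (α j) 1 u
      simp only [hc, hc0]
      rw [hsub fun w => D.C u w - t * rho w, D.L_apply]
      have h1 : ∀ w, α j w * D.C u w = D.C u w - (if w = s then D.C u w else 0) +
          (if w = (true, j.1) then κ * D.C u w else 0) := by
        intro w
        simp only [α]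
        split_ifs <;> ring
      rw [Finset.sum_congr rfl fun w _ => h1 w, Finset.sum_add_distrib, Finset.sum_sub_distrib,
        Finset.sum_sub_distrib, ← Finset.mul_sum, rho_sum, D.sum u,
        Finset.sum_ite_eq' Finset.univ s, Finset.sum_ite_eq' Finset.univ (true, j.1)]
      simp only [Finset.mem_univ, if_true]
      rw [← ht, hκ]
      ring

end Pool.Agent.Y2.Gp
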